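import Pool.Agent.Q183.CN.D

/-!
# The polynomials `P_k(r, x) = ∫_0^x (r - a²)^k da`
-/

set_option autoImplicit false

open MeasureTheory Metric Set Filter Topology

namespace Pool.Agent.Q183.HD

open Pool.Agent.Q183.CN
open Pool.Agent.W716.FV (E gam gd)
open Pool.Agent.Q188.FC (PB PL)

/-- `∫_0^x (r - a²)^k da` -/
noncomputable def Pk : ℕ → ℝ → ℝ → ℝ
  | 0, _, x => x
  | k + 1, r, x => (x * (r - x ^ 2) ^ (k + 1) + 2 * (k + 1) * r * Pk k r x) / (2 * k + 3)

/-- the derivative of `Pk` in `r` -/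
noncomputable def Qk : ℕ → ℝ → ℝ → ℝ
  | 0, _, _ => 0
  | k + 1, r, x => (k + 1) * Pk k r x

theorem Pk_rec (k : ℕ) (r x : ℝ) :
    (2 * k + 1) * Pk k r x = x * (r - x ^ 2) ^ k + 2 * r * Qk k r x := by
  cases k with
  | zero => simp [Pk, Qk]
  | succ k =>
    rw [Pk, Qk]
    have : (2 * (k : ℝ) + 3) ≠ 0 := by positivity
    push_cast
    field_simp
    ring

/-- the chain rule -/
theorem Pk_comp (k : ℕ) {r x : ℝ → ℝ} {r' x' t : ℝ} (hr : HasDerivAt r r' t)
    (hx : HasDerivAt x x' t) : HasDerivAt (fun s => Pk k (r s) (x s))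
      (Qk k (r t) (x t) * r' + (r t - x t ^ 2) ^ k * x') t := by
  induction k with
  | zero =>
    simp only [Pk, Qk, pow_zero, zero_mul, zero_add, one_mul]
    exact hx
  | succ k ih =>
    have h1 : HasDerivAt (fun s => r s - x s ^ 2) (r' - 2 * x t * x') t := by
      refine (hr.sub (hx.pow 2)).congr_deriv ?_
      simp
    have h2 := (hx.mul (h1.pow (k + 1)))
    have h3 := ((hr.mul ih).const_mul (2 * ((k : ℝ) + 1)))
    have h4 := (h2.add h3).div_const (2 * (k : ℝ) + 3)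
    have e : (fun s => Pk (k + 1) (r s) (x s)) = fun s => (x s * (r s - x s ^ 2) ^ (k + 1) +
        2 * ((k : ℝ) + 1) * (r s * Pk k (r s) (x s))) / (2 * (k : ℝ) + 3) := by
      funext s
      rw [Pk]
      ring
    rw [e]
    refine h4.congr_deriv ?_
    have h5 := Pk_rec k (r t) (x t)
    have : (2 * (k : ℝ) + 3) ≠ 0 := by positivity
    rw [Qk, div_eq_iff this]
    simp only [Nat.add_sub_cancel, Nat.cast_add, Nat.cast_one, Pi.pow_apply]
    linear_combination (-((k : ℝ) + 1) * r') * h5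

theorem Pk_hd (k : ℕ) (r x : ℝ) : HasDerivAt (fun x => Pk k r x) ((r - x ^ 2) ^ k) x := by
  have h := Pk_comp k (hasDerivAt_const x r) (hasDerivAt_id x)
  simpa using h

theorem Qk_hd (k : ℕ) (r x : ℝ) :
    HasDerivAt (fun x => Qk k r x) (k * (r - x ^ 2) ^ (k - 1)) x := by
  cases k with
  | zero =>
    simp only [Qk, Nat.cast_zero, zero_mul]
    exact hasDerivAt_const _ _
  | succ k =>
    simp only [Qk, Nat.add_sub_cancel, Nat.cast_add, Nat.cast_one]
    exact (Pk_hd k r x).const_mul _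

theorem sq_seg {a b ξ r : ℝ} (hξ : ξ ∈ uIcc a b) (ha : a ^ 2 ≤ r) (hb : b ^ 2 ≤ r) :
    ξ ^ 2 ≤ r := by
  have h1 : |a| ≤ √r := Real.abs_le_sqrt ha
  have h2 : |b| ≤ √r := Real.abs_le_sqrt hb
  have h3 := abs_seg0 hξ h1 h2
  have hr : 0 ≤ r := (sq_nonneg a).trans ha
  rw [← Real.sq_sqrt hr, ← sq_abs]
  exact pow_le_pow_left₀ (abs_nonneg _) h3 2

theorem Pk_lip (k : ℕ) {r x y : ℝ} (hx : x ^ 2 ≤ r) (hy : y ^ 2 ≤ r) :
    |Pk k r x - Pk k r y| ≤ r ^ k * |x - y| := by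
  have h := seg_est (g := fun x => Pk k r x) (g' := fun x => (r - x ^ 2) ^ k) (a := y) (b := x)
    (C := r ^ k) (fun ξ _ => Pk_hd k r ξ) (fun ξ hξ => by
      have h1 := sq_seg hξ hy hx
      rw [abs_of_nonneg (pow_nonneg (by linarith) k)]
      exact pow_le_pow_left₀ (by linarith) (by linarith [sq_nonneg ξ]) k)
  exact h

theorem Qk_lip (k : ℕ) {r x y : ℝ} (hx : x ^ 2 ≤ r) (hy : y ^ 2 ≤ r) :
    |Qk k r x - Qk k r y| ≤ k * r ^ (k - 1) * |x - y| := by
  have h := seg_est (g := fun x => Qk k r x) (g' := fun x => k * (r - x ^ 2) ^ (k - 1)) (a := y)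
    (b := x) (C := k * r ^ (k - 1)) (fun ξ _ => Qk_hd k r ξ) (fun ξ hξ => by
      have h1 := sq_seg hξ hy hx
      have h0 : 0 ≤ r - ξ ^ 2 := by linarith
      have h2 : (0 : ℝ) ≤ k := Nat.cast_nonneg k
      rw [abs_mul, abs_of_nonneg (pow_nonneg h0 (k - 1)), abs_of_nonneg h2]
      exact mul_le_mul_of_nonneg_left
        (pow_le_pow_left₀ h0 (by linarith [sq_nonneg ξ]) _) h2)
  exact h

theorem Pk_zero (k : ℕ) (r : ℝ) : Pk k r 0 = 0 := by
  induction k with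
  | zero => rfl
  | succ k ih =>
    rw [Pk, ih]
    simp

theorem Pk_abs (k : ℕ) {r x : ℝ} (hx : x ^ 2 ≤ r) : |Pk k r x| ≤ r ^ k * |x| := by
  have h := Pk_lip k hx (y := 0) (by
    have := (sq_nonneg x).trans hx
    simpa using this)
  rwa [Pk_zero, sub_zero, sub_zero] at h

theorem Pk_hom (k : ℕ) (t r x : ℝ) : Pk k (t ^ 2 * r) (t * x) = t ^ (2 * k + 1) * Pk k r x := by
  induction k with
  | zero => simp [Pk]
  | succ k ih =>
    rw [Pk, Pk, ih]
    have e : t ^ 2 * r - (t * x) ^ 2 = t ^ 2 * (r - x ^ 2) := by ring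
    rw [e, mul_pow]
    have : (2 * (k : ℝ) + 3) ≠ 0 := by positivity
    field_simp
    ring

theorem Pk_mono (k : ℕ) {r x y : ℝ} (hx : x ^ 2 ≤ r) (hy : y ^ 2 ≤ r) (hxy : x ≤ y) :
    Pk k r x ≤ Pk k r y := by
  have hm : MonotoneOn (fun x => Pk k r x) (Icc x y) := by
    refine monotoneOn_of_deriv_nonneg (convex_Icc x y)
      (fun ξ _ => (Pk_hd k r ξ).continuousAt.continuousWithinAt)
      (fun ξ _ => (Pk_hd k r ξ).differentiableAt.differentiableWithinAt) fun ξ hξ => ?_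
    rw [(Pk_hd k r ξ).deriv]
    rw [interior_Icc] at hξ
    have h1 : ξ ∈ uIcc x y := by
      rw [uIcc_of_le hxy]
      exact Ioo_subset_Icc_self hξ
    exact pow_nonneg (by linarith [sq_seg h1 hx hy]) k
  exact hm ⟨le_rfl, hxy⟩ ⟨hxy, le_rfl⟩ hxy

theorem Pk_smono (k : ℕ) {r x y : ℝ} (hx : x ^ 2 ≤ r) (hy : y ^ 2 ≤ r) (hxy : x < y) :
    Pk k r x < Pk k r y := by
  have hm : StrictMonoOn (fun x => Pk k r x) (Icc x y) := by
    refine strictMonoOn_of_deriv_pos (convex_Icc x y)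
      (fun ξ _ => (Pk_hd k r ξ).continuousAt.continuousWithinAt) fun ξ hξ => ?_
    rw [(Pk_hd k r ξ).deriv]
    rw [interior_Icc] at hξ
    refine pow_pos ?_ k
    have h1 : ξ ^ 2 < max (x ^ 2) (y ^ 2) := by
      rcases le_total 0 ξ with h | h
      · refine lt_max_of_lt_right ?_
        nlinarith [hξ.2]
      · refine lt_max_of_lt_left ?_
        nlinarith [hξ.1]
    have h2 : max (x ^ 2) (y ^ 2) ≤ r := max_le hx hy
    linarith
  exact hm ⟨le_rfl, hxy.le⟩ ⟨hxy.le, le_rfl⟩ hxy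

theorem Pk_cont {X : Type} [TopologicalSpace X] (k : ℕ) {f g : X → ℝ} (hf : Continuous f)
    (hg : Continuous g) : Continuous (fun x => Pk k (f x) (g x)) := by
  induction k with
  | zero =>
    simp only [Pk]
    exact hg
  | succ k ih =>
    simp only [Pk]
    fun_prop

theorem pl_add {n : ℕ} {f g : E n → ℝ} (hf : PL f) (hg : PL g) : PL (fun x => f x + g x) :=
  ((Pool.Agent.Q188.FC.pl n).2.1 f g hf hg).1

theorem pl_sub {n : ℕ} {f g : E n → ℝ} (hf : PL f) (hg : PL g) : PL (fun x => f x - g x) :=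
  ((Pool.Agent.Q188.FC.pl n).2.1 f g hf hg).2.1

theorem pl_mul {n : ℕ} {f g : E n → ℝ} (hf : PL f) (hg : PL g) : PL (fun x => f x * g x) :=
  ((Pool.Agent.Q188.FC.pl n).2.1 f g hf hg).2.2

theorem pl_const {n : ℕ} (c : ℝ) : PL (fun _ : E n => c) :=
  (Pool.Agent.Q188.FC.pl n).2.2.2.1 c

theorem pl_inner {n : ℕ} (u : E n) : PL (fun x : E n => (inner ℝ u x : ℝ)) :=
  (Pool.Agent.Q188.FC.pl n).2.2.2.2.1 u

theorem pl_pow {n : ℕ} {f : E n → ℝ} (hf : PL f) (j : ℕ) : PL (fun x => f x ^ j) := by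
  induction j with
  | zero =>
    simp only [pow_zero]
    exact pl_const 1
  | succ j ih =>
    simp only [pow_succ]
    exact pl_mul ih hf

theorem pl_cont {n : ℕ} {f : E n → ℝ} (hf : PL f) : Continuous f :=
  ((Pool.Agent.Q188.FC.pl n).1 f hf).1

theorem pl_pb {n : ℕ} {f : E n → ℝ} (hf : PL f) : PB f :=
  ((Pool.Agent.Q188.FC.pl n).1 f hf).2.1

theorem pl_int {n : ℕ} {f : E n → ℝ} (hf : PL f) : Integrable f (gam n) :=
  (Pool.Agent.Q188.FC.pl n).2.2.2.2.2.1 f (pl_cont hf) (pl_pb hf)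

theorem pl_Pk {n : ℕ} (k : ℕ) {f g : E n → ℝ} (hf : PL f) (hg : PL g) :
    PL (fun x => Pk k (f x) (g x)) := by
  induction k with
  | zero =>
    simp only [Pk]
    exact hg
  | succ k ih =>
    have h1 := pl_mul hg (pl_pow (pl_sub hf (pl_pow hg 2)) (k + 1))
    have h2 := pl_mul (pl_mul (pl_const (n := n) (2 * ((k : ℝ) + 1))) hf) ih
    have h3 := pl_mul (pl_add h1 h2) (pl_const (n := n) (2 * (k : ℝ) + 3)⁻¹)
    simp only [Pk, div_eq_mul_inv]
    exact h3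

end Pool.Agent.Q183.HD
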