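import Pool.Agent.Q183.HD.A

/-!
# The field of degree `2k+1`: differentiability
-/

set_option autoImplicit false

open MeasureTheory Metric Set Filter Topology

namespace Pool.Agent.Q183.HD

open Pool.Agent.Q183.CN
open Pool.Agent.W716.FV (E gam gd)
open Pool.Agent.Q188.FC (PB PL)

/-- the field whose zero is the centre of `φ` -/
noncomputable def XX {n : ℕ} (k : ℕ) (p : E n) (φ : E n → ℝ) : E n :=
  ∫ y, ((Pk k (‖y‖ ^ 2) (φ y) - Pk k (‖y‖ ^ 2) (inner ℝ p y)) * W p y) • y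

/-- the factor of the integrand -/
noncomputable def F0 (k : ℕ) (r f x : ℝ) : ℝ := (Pk k r f - Pk k r x) * Real.exp (x ^ 2 / 2)

/-- its derivative in `x` -/
noncomputable def F1 (k : ℕ) (r f x : ℝ) : ℝ :=
  (-(r - x ^ 2) ^ k + (Pk k r f - Pk k r x) * x) * Real.exp (x ^ 2 / 2)

/-- the second derivative in `x` -/
noncomputable def F2 (k : ℕ) (r f x : ℝ) : ℝ :=
  (2 * k * x * (r - x ^ 2) ^ (k - 1) - (r - x ^ 2) ^ k * x + (Pk k r f - Pk k r x) +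
    x * (-(r - x ^ 2) ^ k + (Pk k r f - Pk k r x) * x)) * Real.exp (x ^ 2 / 2)

/-- the derivative of `XX · φ` at `p` -/
noncomputable def LX {n : ℕ} (k : ℕ) (p : E n) (φ : E n → ℝ) : E n →L[ℝ] E n :=
  ∫ y, (F1 k (‖y‖ ^ 2) (φ y) (inner ℝ p y) * Real.exp (-‖y‖ ^ 2 / 2)) • (innerSL ℝ y).smulRight y

theorem hd_exp (x : ℝ) :
    HasDerivAt (fun x : ℝ => Real.exp (x ^ 2 / 2)) (Real.exp (x ^ 2 / 2) * x) x := by
  have h3 : HasDerivAt (fun x : ℝ => x ^ 2 / 2) x x := by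
    have := ((hasDerivAt_pow 2 x).div_const 2)
    refine this.congr_deriv ?_
    simp
  exact h3.exp

theorem hd_F0 (k : ℕ) (r f x : ℝ) : HasDerivAt (fun x => F0 k r f x) (F1 k r f x) x := by
  refine (((Pk_hd k r x).const_sub (Pk k r f)).mul (hd_exp x)).congr_deriv ?_
  unfold F1
  ring

theorem hd_F1 (k : ℕ) (r f x : ℝ) : HasDerivAt (fun x => F1 k r f x) (F2 k r f x) x := by
  have h1 : HasDerivAt (fun x : ℝ => r - x ^ 2) (-(2 * x)) x := by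
    refine ((hasDerivAt_pow 2 x).const_sub r).congr_deriv ?_
    simp
  have h2 := (h1.pow k).neg
  have h3 := ((Pk_hd k r x).const_sub (Pk k r f)).mul (hasDerivAt_id x)
  have h4 : HasDerivAt (fun x : ℝ => -(r - x ^ 2) ^ k + (Pk k r f - Pk k r x) * x)
      (-(k * (r - x ^ 2) ^ (k - 1) * -(2 * x)) + (-(r - x ^ 2) ^ k * x +
        (Pk k r f - Pk k r x) * 1)) x := h2.add h3
  refine (h4.mul (hd_exp x)).congr_deriv ?_
  unfold F2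
  ring

theorem rk_le (k : ℕ) {R : ℝ} (hR : 0 ≤ R) : (R ^ 2) ^ k ≤ (1 + R) ^ (2 * k) := by
  rw [← pow_mul]
  exact pow_le_pow_left₀ hR (by linarith) _

theorem up {R : ℝ} (hR : 0 ≤ R) {i j : ℕ} (h : i ≤ j) : (1 + R) ^ i ≤ (1 + R) ^ j :=
  pow_le_pow_right₀ (by linarith) h

theorem sq_le_of {x R : ℝ} (h : |x| ≤ R) : x ^ 2 ≤ R ^ 2 := by
  rw [← sq_abs]
  exact pow_le_pow_left₀ (abs_nonneg _) h 2

theorem ak_le (k : ℕ) {R x : ℝ} (hR : 0 ≤ R) (hx : |x| ≤ R) :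
    |(R ^ 2 - x ^ 2) ^ k| ≤ (1 + R) ^ (2 * k) := by
  have h := sq_le_of hx
  rw [abs_of_nonneg (pow_nonneg (by linarith) k)]
  exact (pow_le_pow_left₀ (by linarith) (by linarith [sq_nonneg x]) k).trans (rk_le k hR)

theorem dP_le (k : ℕ) {R f x : ℝ} (hR : 0 ≤ R) (hf : |f| ≤ R) (hx : |x| ≤ R) :
    |Pk k (R ^ 2) f - Pk k (R ^ 2) x| ≤ 2 * (1 + R) ^ (2 * k + 1) := by
  refine (Pk_lip k (sq_le_of hf) (sq_le_of hx)).trans ?_
  have h1 : |f - x| ≤ 2 * (1 + R) := (abs_sub _ _).trans (by linarith)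
  calc (R ^ 2) ^ k * |f - x| ≤ (1 + R) ^ (2 * k) * (2 * (1 + R)) := by
        have := rk_le k hR
        gcongr
    _ = _ := by ring

theorem F1_bd (k : ℕ) {f x R ρ : ℝ} (hR : 0 ≤ R) (hρ1 : ρ ≤ 1) (hf : |f| ≤ R)
    (hx : |x| ≤ ρ * R) :
    |F1 k (R ^ 2) f x| ≤ 3 * (1 + R) ^ (2 * k + 2) * Real.exp (ρ ^ 2 * R ^ 2 / 2) := by
  unfold F1
  rw [abs_mul, abs_of_pos (Real.exp_pos _)]
  have hx' : |x| ≤ R := hx.trans (by nlinarith)
  have h1 := ak_le k hR hx'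
  have h2 := dP_le k hR hf hx'
  have h3 : |-(R ^ 2 - x ^ 2) ^ k + (Pk k (R ^ 2) f - Pk k (R ^ 2) x) * x| ≤
      3 * (1 + R) ^ (2 * k + 2) := by
    refine (abs_add_le _ _).trans ?_
    rw [abs_neg, abs_mul]
    have h4 : |Pk k (R ^ 2) f - Pk k (R ^ 2) x| * |x| ≤ 2 * (1 + R) ^ (2 * k + 1) * (1 + R) := by
      gcongr
      linarith
    have h5 := up hR (show 2 * k ≤ 2 * k + 2 by omega)
    have h6 : 2 * (1 + R) ^ (2 * k + 1) * (1 + R) = 2 * (1 + R) ^ (2 * k + 2) := by ring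
    linarith
  have := exp_in hx
  gcongr

theorem F2_bd (k : ℕ) {f x R ρ : ℝ} (hR : 0 ≤ R) (hρ1 : ρ ≤ 1) (hf : |f| ≤ R)
    (hx : |x| ≤ ρ * R) :
    |F2 k (R ^ 2) f x| ≤ (2 * k + 6) * (1 + R) ^ (2 * k + 3) * Real.exp (ρ ^ 2 * R ^ 2 / 2) := by
  unfold F2
  rw [abs_mul, abs_of_pos (Real.exp_pos _)]
  have hx' : |x| ≤ R := hx.trans (by nlinarith)
  have hxS : |x| ≤ 1 + R := by linarith
  have h1 := ak_le k hR hx'
  have h1' := ak_le (k - 1) hR hx'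
  have h2 := dP_le k hR hf hx'
  have hS : 0 ≤ 1 + R := by linarith
  have b1 : |2 * k * x * (R ^ 2 - x ^ 2) ^ (k - 1)| ≤ 2 * k * (1 + R) ^ (2 * k + 3) := by
    rw [abs_mul, abs_mul, abs_mul, abs_two, abs_of_nonneg (Nat.cast_nonneg k : (0 : ℝ) ≤ k)]
    calc 2 * (k : ℝ) * |x| * |(R ^ 2 - x ^ 2) ^ (k - 1)| ≤
        2 * k * (1 + R) * (1 + R) ^ (2 * (k - 1)) := by gcongr
      _ = 2 * k * (1 + R) ^ (2 * (k - 1) + 1) := by ring
      _ ≤ _ := by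
        have := up hR (show 2 * (k - 1) + 1 ≤ 2 * k + 3 by omega)
        gcongr
  have b2 : |(R ^ 2 - x ^ 2) ^ k * x| ≤ (1 + R) ^ (2 * k + 3) := by
    rw [abs_mul]
    calc |(R ^ 2 - x ^ 2) ^ k| * |x| ≤ (1 + R) ^ (2 * k) * (1 + R) := by gcongr
      _ = (1 + R) ^ (2 * k + 1) := by ring
      _ ≤ _ := up hR (by omega)
  have b3 : |Pk k (R ^ 2) f - Pk k (R ^ 2) x| ≤ 2 * (1 + R) ^ (2 * k + 3) := by
    refine h2.trans ?_
    have := up hR (show 2 * k + 1 ≤ 2 * k + 3 by omega)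
    linarith
  have b4 : |x * (-(R ^ 2 - x ^ 2) ^ k + (Pk k (R ^ 2) f - Pk k (R ^ 2) x) * x)| ≤
      3 * (1 + R) ^ (2 * k + 3) := by
    rw [abs_mul]
    have c1 : |-(R ^ 2 - x ^ 2) ^ k + (Pk k (R ^ 2) f - Pk k (R ^ 2) x) * x| ≤
        3 * (1 + R) ^ (2 * k + 2) := by
      refine (abs_add_le _ _).trans ?_
      rw [abs_neg, abs_mul]
      have h4 : |Pk k (R ^ 2) f - Pk k (R ^ 2) x| * |x| ≤
          2 * (1 + R) ^ (2 * k + 1) * (1 + R) := by gcongr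
      have h5 := up hR (show 2 * k ≤ 2 * k + 2 by omega)
      have h6 : 2 * (1 + R) ^ (2 * k + 1) * (1 + R) = 2 * (1 + R) ^ (2 * k + 2) := by ring
      linarith
    calc _ ≤ (1 + R) * (3 * (1 + R) ^ (2 * k + 2)) := by gcongr
      _ = _ := by ring
  have h3 : |2 * k * x * (R ^ 2 - x ^ 2) ^ (k - 1) - (R ^ 2 - x ^ 2) ^ k * x +
      (Pk k (R ^ 2) f - Pk k (R ^ 2) x) +
      x * (-(R ^ 2 - x ^ 2) ^ k + (Pk k (R ^ 2) f - Pk k (R ^ 2) x) * x)| ≤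
      (2 * k + 6) * (1 + R) ^ (2 * k + 3) := by
    refine (abs_add_le _ _).trans ?_
    have c1 := abs_add_le (2 * k * x * (R ^ 2 - x ^ 2) ^ (k - 1) - (R ^ 2 - x ^ 2) ^ k * x)
      (Pk k (R ^ 2) f - Pk k (R ^ 2) x)
    have c2 := abs_sub (2 * k * x * (R ^ 2 - x ^ 2) ^ (k - 1)) ((R ^ 2 - x ^ 2) ^ k * x)
    linarith
  have := exp_in hx
  gcongr

theorem F1_diff (k : ℕ) {f f0 x x0 R δ ρ : ℝ} (hR : 0 ≤ R) (hρ1 : ρ ≤ 1) (hδ : 0 ≤ δ)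
    (hf : |f| ≤ R) (hf0 : |f0| ≤ R) (hx : |x| ≤ ρ * R) (hx0 : |x0| ≤ ρ * R)
    (hff : |f - f0| ≤ δ * R) (hxx : |x - x0| ≤ δ * R) :
    |F1 k (R ^ 2) f x - F1 k (R ^ 2) f0 x0| ≤
      (2 * k + 7) * δ * (1 + R) ^ (2 * k + 4) * Real.exp (ρ ^ 2 * R ^ 2 / 2) := by
  have h1 : |F1 k (R ^ 2) f x - F1 k (R ^ 2) f0 x| ≤
      δ * (1 + R) ^ (2 * k + 4) * Real.exp (ρ ^ 2 * R ^ 2 / 2) := by
    have e : F1 k (R ^ 2) f x - F1 k (R ^ 2) f0 x =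
        (Pk k (R ^ 2) f - Pk k (R ^ 2) f0) * x * Real.exp (x ^ 2 / 2) := by
      unfold F1
      ring
    rw [e, abs_mul, abs_mul, abs_of_pos (Real.exp_pos _)]
    have hx' : |x| ≤ 1 + R := hx.trans (by nlinarith)
    have h3 := Pk_lip k (sq_le_of hf) (sq_le_of hf0)
    have h4 := rk_le k hR
    have h5 := exp_in hx
    have h6 : |Pk k (R ^ 2) f - Pk k (R ^ 2) f0| ≤ (1 + R) ^ (2 * k) * (δ * (1 + R)) := by
      refine h3.trans ?_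
      gcongr
      refine hff.trans ?_
      gcongr
      linarith
    calc |Pk k (R ^ 2) f - Pk k (R ^ 2) f0| * |x| * Real.exp (x ^ 2 / 2) ≤
        ((1 + R) ^ (2 * k) * (δ * (1 + R))) * (1 + R) * Real.exp (ρ ^ 2 * R ^ 2 / 2) := by
          gcongr
      _ = (δ * (1 + R) ^ (2 * k + 2)) * Real.exp (ρ ^ 2 * R ^ 2 / 2) := by ring
      _ ≤ _ := by
        have := up hR (show 2 * k + 2 ≤ 2 * k + 4 by omega)
        gcongr
  have h2 : |F1 k (R ^ 2) f0 x - F1 k (R ^ 2) f0 x0| ≤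
      ((2 * k + 6) * (1 + R) ^ (2 * k + 3) * Real.exp (ρ ^ 2 * R ^ 2 / 2)) * (δ * (1 + R)) := by
    have h3 := seg_est (g := fun x => F1 k (R ^ 2) f0 x) (g' := fun x => F2 k (R ^ 2) f0 x)
      (a := x0) (b := x)
      (C := (2 * k + 6) * (1 + R) ^ (2 * k + 3) * Real.exp (ρ ^ 2 * R ^ 2 / 2))
      (fun ξ _ => hd_F1 k (R ^ 2) f0 ξ)
      (fun ξ hξ => F2_bd k hR hρ1 hf0 (abs_seg0 hξ hx0 hx))
    refine h3.trans ?_
    gcongr
    refine hxx.trans ?_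
    gcongr
    linarith
  have h4 : |F1 k (R ^ 2) f x - F1 k (R ^ 2) f0 x0| ≤
      |F1 k (R ^ 2) f x - F1 k (R ^ 2) f0 x| + |F1 k (R ^ 2) f0 x - F1 k (R ^ 2) f0 x0| :=
    abs_sub_le _ _ _
  refine h4.trans ((add_le_add h1 h2).trans (le_of_eq ?_))
  ring

theorem F0_taylor (k : ℕ) {f f0 x x' x0 R δ ρ : ℝ} (hR : 0 ≤ R) (hρ1 : ρ ≤ 1) (hδ : 0 ≤ δ)
    (hf : |f| ≤ R) (hf0 : |f0| ≤ R) (hx : |x| ≤ ρ * R) (hx' : |x'| ≤ ρ * R)
    (hx0 : |x0| ≤ ρ * R) (hff : |f - f0| ≤ δ * R) (hxx : |x - x0| ≤ δ * R)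
    (hxx' : |x' - x0| ≤ δ * R) :
    |F0 k (R ^ 2) f x - F0 k (R ^ 2) f x' - F1 k (R ^ 2) f0 x0 * (x - x')| ≤
      (2 * k + 7) * δ * (1 + R) ^ (2 * k + 4) * Real.exp (ρ ^ 2 * R ^ 2 / 2) * |x - x'| := by
  have h := seg_est (g := fun ξ => F0 k (R ^ 2) f ξ - F1 k (R ^ 2) f0 x0 * ξ)
    (g' := fun ξ => F1 k (R ^ 2) f ξ - F1 k (R ^ 2) f0 x0)
    (a := x') (b := x)
    (C := (2 * k + 7) * δ * (1 + R) ^ (2 * k + 4) * Real.exp (ρ ^ 2 * R ^ 2 / 2))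
    (fun ξ _ => by
      have := (hd_F0 k (R ^ 2) f ξ).sub ((hasDerivAt_id ξ).const_mul (F1 k (R ^ 2) f0 x0))
      rw [mul_one] at this
      exact this)
    (fun ξ hξ => by
      exact F1_diff k hR hρ1 hδ hf hf0 (abs_seg0 hξ hx' hx) hx0 hff (abs_seg hξ hxx' hxx))
  have e : F0 k (R ^ 2) f x - F1 k (R ^ 2) f0 x0 * x -
      (F0 k (R ^ 2) f x' - F1 k (R ^ 2) f0 x0 * x') =
      F0 k (R ^ 2) f x - F0 k (R ^ 2) f x' - F1 k (R ^ 2) f0 x0 * (x - x') := by ring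
  rw [← e]
  exact h

variable {n : ℕ}

theorem xint_eq (k : ℕ) (p y : E n) (φ : E n → ℝ) :
    (Pk k (‖y‖ ^ 2) (φ y) - Pk k (‖y‖ ^ 2) (inner ℝ p y)) * W p y =
      F0 k (‖y‖ ^ 2) (φ y) (inner ℝ p y) * Real.exp (-‖y‖ ^ 2 / 2) := by
  rw [W_eq]
  unfold F0
  ring

theorem dP_cont (k : ℕ) {φ : E n → ℝ} (hc : Continuous φ) (p : E n) :
    Continuous (fun y : E n => Pk k (‖y‖ ^ 2) (φ y) - Pk k (‖y‖ ^ 2) (inner ℝ p y)) :=
  (Pk_cont k (by fun_prop) hc).sub (Pk_cont k (by fun_prop) (by fun_prop))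

theorem W_cont (p : E n) : Continuous (fun y : E n => W p y) := by
  unfold W
  fun_prop

theorem inner_le_of {ρ : ℝ} (hρ : ρ < 1) {p : E n} (hp : ‖p‖ ≤ ρ) (y : E n) :
    |(inner ℝ p y : ℝ)| ≤ ‖y‖ := by
  refine (inner_bd hp y).trans ?_
  nlinarith [norm_nonneg y]

theorem XX_int (k : ℕ) {ρ : ℝ} (hρ0 : 0 ≤ ρ) (hρ : ρ < 1) {p : E n} (hp : ‖p‖ ≤ ρ)
    {φ : E n → ℝ} (hφ : Bd φ) :
    Integrable (fun y => ((Pk k (‖y‖ ^ 2) (φ y) - Pk k (‖y‖ ^ 2) (inner ℝ p y)) * W p y) • y) := by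
  obtain ⟨hc, hb⟩ := hφ
  refine int_of (C := 2) (c := (1 - ρ ^ 2) / 2) (k := 2 * k + 2) (cpos hρ0 hρ) ?_
    (ae_of_all _ fun y => ?_)
  · exact (((dP_cont k hc p).mul (W_cont p)).smul continuous_id).aestronglyMeasurable
  · rw [norm_smul, Real.norm_eq_abs, abs_mul, abs_of_pos (W_pos p y)]
    have h3 := W_le hp y
    have h4 := norm_nonneg y
    have h5 := dP_le k h4 (hb y) (inner_le_of hρ hp y)
    calc |Pk k (‖y‖ ^ 2) (φ y) - Pk k (‖y‖ ^ 2) (inner ℝ p y)| * W p y * ‖y‖ ≤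
        (2 * (1 + ‖y‖) ^ (2 * k + 1)) * Real.exp (-((1 - ρ ^ 2) / 2 * ‖y‖ ^ 2)) * (1 + ‖y‖) := by
          have := W_pos p y
          gcongr
          linarith
      _ = _ := by ring

theorem cont_F1 (k : ℕ) {φ : E n → ℝ} (hc : Continuous φ) (p : E n) :
    Continuous (fun y : E n => F1 k (‖y‖ ^ 2) (φ y) (inner ℝ p y)) := by
  have := dP_cont k hc p
  unfold F1
  fun_prop

theorem LX_int (k : ℕ) {ρ : ℝ} (hρ0 : 0 ≤ ρ) (hρ : ρ < 1) {p : E n} (hp : ‖p‖ ≤ ρ)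
    {φ : E n → ℝ} (hφ : Bd φ) :
    Integrable (fun y => (F1 k (‖y‖ ^ 2) (φ y) (inner ℝ p y) * Real.exp (-‖y‖ ^ 2 / 2)) •
      (innerSL ℝ y).smulRight y) := by
  obtain ⟨hc, hb⟩ := hφ
  refine int_of (C := 3) (c := (1 - ρ ^ 2) / 2) (k := 2 * k + 4) (cpos hρ0 hρ) ?_
    (ae_of_all _ fun y => ?_)
  · have h1 := cont_F1 k hc p
    have h2 : Continuous (fun y : E n => (innerSL ℝ y).smulRight y) := by
      have h3 : Continuous (fun z : (E n →L[ℝ] ℝ) × E n => z.1.smulRight z.2) :=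
        (ContinuousLinearMap.smulRightL ℝ (E n) (E n)).continuous₂
      exact h3.comp ((innerSL ℝ).continuous.prodMk continuous_id)
    exact ((h1.mul (by fun_prop)).smul h2).aestronglyMeasurable
  · rw [norm_smul, Real.norm_eq_abs, abs_mul, abs_of_pos (Real.exp_pos _), smulRight_norm]
    have h1 := F1_bd k (norm_nonneg y) hρ.le (hb y) (inner_bd hp y)
    have h4 := norm_nonneg y
    calc |F1 k (‖y‖ ^ 2) (φ y) (inner ℝ p y)| * Real.exp (-‖y‖ ^ 2 / 2) * (‖y‖ * ‖y‖) ≤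
        (3 * (1 + ‖y‖) ^ (2 * k + 2) * Real.exp (ρ ^ 2 * ‖y‖ ^ 2 / 2)) *
          Real.exp (-‖y‖ ^ 2 / 2) * ((1 + ‖y‖) * (1 + ‖y‖)) := by
          gcongr <;> linarith
      _ = 3 * ((1 + ‖y‖) ^ (2 * k + 4) *
          (Real.exp (ρ ^ 2 * ‖y‖ ^ 2 / 2) * Real.exp (-‖y‖ ^ 2 / 2))) := by ring
      _ = _ := by rw [exp_split]

theorem LX_apply (k : ℕ) {ρ : ℝ} (hρ0 : 0 ≤ ρ) (hρ : ρ < 1) {p : E n} (hp : ‖p‖ ≤ ρ)
    {φ : E n → ℝ} (hφ : Bd φ) (a : E n) : LX k p φ a =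
      ∫ y, (F1 k (‖y‖ ^ 2) (φ y) (inner ℝ p y) * Real.exp (-‖y‖ ^ 2 / 2) * inner ℝ y a) • y := by
  unfold LX
  rw [ContinuousLinearMap.integral_apply (LX_int k hρ0 hρ hp hφ)]
  refine integral_congr_ae (ae_of_all _ fun y => ?_)
  simp only [smul_apply, ContinuousLinearMap.smulRight_apply, innerSL_apply_apply,
    smul_smul]

theorem LXa_int (k : ℕ) {ρ : ℝ} (hρ0 : 0 ≤ ρ) (hρ : ρ < 1) {p : E n} (hp : ‖p‖ ≤ ρ)
    {φ : E n → ℝ} (hφ : Bd φ) (a : E n) : Integrable (fun y =>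
      (F1 k (‖y‖ ^ 2) (φ y) (inner ℝ p y) * Real.exp (-‖y‖ ^ 2 / 2) * inner ℝ y a) • y) := by
  refine ((LX_int k hρ0 hρ hp hφ).apply_continuousLinearMap a).congr (ae_of_all _ fun y => ?_)
  simp only [smul_apply, ContinuousLinearMap.smulRight_apply, innerSL_apply_apply,
    smul_smul]

/-- the key estimate -/
theorem strict (k : ℕ) {ρ : ℝ} (hρ0 : 0 ≤ ρ) (hρ : ρ < 1) : ∃ K : ℝ, 0 ≤ K ∧
    ∀ (p0 p p' : E n) (φ0 φ : E n → ℝ) (δ : ℝ), ‖p0‖ ≤ ρ → ‖p‖ ≤ ρ → ‖p'‖ ≤ ρ → Bd φ0 → Bd φ →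
      0 ≤ δ → (∀ y, |φ y - φ0 y| ≤ δ * ‖y‖) → ‖p - p0‖ ≤ δ → ‖p' - p0‖ ≤ δ →
      ‖XX k p φ - XX k p' φ - LX k p0 φ0 (p - p')‖ ≤ K * δ * ‖p - p'‖ := by
  have hc := cpos hρ0 hρ
  refine ⟨(2 * k + 7) * ∫ y : E n, (1 + ‖y‖) ^ (2 * k + 6) *
    Real.exp (-((1 - ρ ^ 2) / 2 * ‖y‖ ^ 2)), by positivity, ?_⟩
  intro p0 p p' φ0 φ δ hp0 hp hp' hφ0 hφ hδ hff hpp hpp'
  have e1 : XX k p φ - XX k p' φ - LX k p0 φ0 (p - p') = ∫ y,
      (((Pk k (‖y‖ ^ 2) (φ y) - Pk k (‖y‖ ^ 2) (inner ℝ p y)) * W p y) • y -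
      ((Pk k (‖y‖ ^ 2) (φ y) - Pk k (‖y‖ ^ 2) (inner ℝ p' y)) * W p' y) • y -
      (F1 k (‖y‖ ^ 2) (φ0 y) (inner ℝ p0 y) * Real.exp (-‖y‖ ^ 2 / 2) *
        inner ℝ y (p - p')) • y) := by
    have i1 := XX_int k hρ0 hρ hp hφ
    have i2 := XX_int k hρ0 hρ hp' hφ
    have i3 := LXa_int k hρ0 hρ hp0 hφ0 (p - p')
    rw [LX_apply k hρ0 hρ hp0 hφ0]
    unfold XX
    rw [← integral_sub i1 i2]
    exact (integral_sub (i1.sub i2) i3).symm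
  have hbi := (int_pe (n := n) (2 * k + 6) hc).const_mul ((2 * k + 7) * δ * ‖p - p'‖)
  rw [e1]
  refine (norm_integral_le_of_norm_le hbi (ae_of_all _ fun y => ?_)).trans (le_of_eq ?_)
  · rw [xint_eq k p y φ, xint_eq k p' y φ, ← sub_smul, ← sub_smul, norm_smul, Real.norm_eq_abs]
    have h4 := norm_nonneg y
    have hin : ∀ a b : E n, (inner ℝ a y : ℝ) - inner ℝ b y = inner ℝ (a - b) y := fun a b => by
      rw [inner_sub_left]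
    have ht := F0_taylor k (f := φ y) (f0 := φ0 y) (x := inner ℝ p y) (x' := inner ℝ p' y)
      (x0 := inner ℝ p0 y) (R := ‖y‖) (δ := δ) (ρ := ρ) h4 hρ.le hδ (hφ.2 y) (hφ0.2 y)
      (inner_bd hp y) (inner_bd hp' y) (inner_bd hp0 y) (hff y)
      (by rw [hin]; exact inner_bd hpp y) (by rw [hin]; exact inner_bd hpp' y)
    have e2 : F0 k (‖y‖ ^ 2) (φ y) (inner ℝ p y) * Real.exp (-‖y‖ ^ 2 / 2) -
        F0 k (‖y‖ ^ 2) (φ y) (inner ℝ p' y) * Real.exp (-‖y‖ ^ 2 / 2) -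
        F1 k (‖y‖ ^ 2) (φ0 y) (inner ℝ p0 y) * Real.exp (-‖y‖ ^ 2 / 2) * inner ℝ y (p - p') =
        (F0 k (‖y‖ ^ 2) (φ y) (inner ℝ p y) - F0 k (‖y‖ ^ 2) (φ y) (inner ℝ p' y) -
          F1 k (‖y‖ ^ 2) (φ0 y) (inner ℝ p0 y) * (inner ℝ p y - inner ℝ p' y)) *
            Real.exp (-‖y‖ ^ 2 / 2) := by
      rw [inner_sub_right, real_inner_comm p y, real_inner_comm p' y]
      ring
    rw [e2, abs_mul, abs_of_pos (Real.exp_pos _)]
    have h5 : |(inner ℝ p y : ℝ) - inner ℝ p' y| ≤ ‖p - p'‖ * ‖y‖ := by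
      rw [hin]
      exact abs_real_inner_le_norm _ _
    calc |F0 k (‖y‖ ^ 2) (φ y) (inner ℝ p y) - F0 k (‖y‖ ^ 2) (φ y) (inner ℝ p' y) -
          F1 k (‖y‖ ^ 2) (φ0 y) (inner ℝ p0 y) * (inner ℝ p y - inner ℝ p' y)| *
            Real.exp (-‖y‖ ^ 2 / 2) * ‖y‖
        ≤ ((2 * k + 7) * δ * (1 + ‖y‖) ^ (2 * k + 4) * Real.exp (ρ ^ 2 * ‖y‖ ^ 2 / 2) *
            (‖p - p'‖ * (1 + ‖y‖))) * Real.exp (-‖y‖ ^ 2 / 2) * (1 + ‖y‖) := by
          gcongr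
          · refine ht.trans ?_
            gcongr
            refine h5.trans ?_
            gcongr
            linarith
          · linarith
      _ = (2 * k + 7) * δ * ‖p - p'‖ * ((1 + ‖y‖) ^ (2 * k + 6) *
          (Real.exp (ρ ^ 2 * ‖y‖ ^ 2 / 2) * Real.exp (-‖y‖ ^ 2 / 2))) := by ring
      _ = _ := by rw [exp_split]
  · rw [integral_const_mul]
    ring

theorem XX_hasFDerivAt (k : ℕ) {ρ : ℝ} (hρ0 : 0 ≤ ρ) (hρ : ρ < 1) {p : E n} (hp : ‖p‖ < ρ)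
    {φ : E n → ℝ} (hφ : Bd φ) : HasFDerivAt (fun p' => XX k p' φ) (LX k p φ) p := by
  obtain ⟨K, hK, h⟩ := strict (n := n) k hρ0 hρ
  rw [hasFDerivAt_iff_isLittleO, Asymptotics.isLittleO_iff]
  intro ε hε
  have h1 : ∀ᶠ p' in 𝓝 p, ‖p' - p‖ < ε / (K + 1) ∧ ‖p'‖ < ρ := by
    refine Filter.Eventually.and ?_ ?_
    · have := ball_mem_nhds p (ε := ε / (K + 1)) (by positivity)
      filter_upwards [this] with q hq
      rwa [mem_ball, dist_eq_norm] at hq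
    · exact (isOpen_lt continuous_norm continuous_const).mem_nhds hp
  filter_upwards [h1] with p' hp'
  have h2 := h p p' p φ φ ‖p' - p‖ hp.le hp'.2.le hp.le hφ hφ (norm_nonneg _) (fun y => by
    rw [sub_self, abs_zero]; positivity) le_rfl (by rw [sub_self, norm_zero]; exact norm_nonneg _)
  refine h2.trans ?_
  gcongr
  have h3 := hp'.1.le
  rw [le_div_iff₀ (by positivity)] at h3
  nlinarith [norm_nonneg (p' - p)]

/-- Lipschitz dependence on the function -/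
theorem XX_lip (k : ℕ) {ρ : ℝ} (hρ0 : 0 ≤ ρ) (hρ : ρ < 1) : ∃ K : ℝ, 0 ≤ K ∧
    ∀ (p : E n) (φ φ' : E n → ℝ) (δ : ℝ), ‖p‖ ≤ ρ → Bd φ → Bd φ' → 0 ≤ δ →
      (∀ y, |φ y - φ' y| ≤ δ * ‖y‖) → ‖XX k p φ - XX k p φ'‖ ≤ K * δ := by
  have hc := cpos hρ0 hρ
  refine ⟨∫ y : E n, (1 + ‖y‖) ^ (2 * k + 2) * Real.exp (-((1 - ρ ^ 2) / 2 * ‖y‖ ^ 2)),
    by positivity, ?_⟩
  intro p φ φ' δ hp hφ hφ' hδ hff
  have e1 : XX k p φ - XX k p φ' = ∫ y,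
      (((Pk k (‖y‖ ^ 2) (φ y) - Pk k (‖y‖ ^ 2) (inner ℝ p y)) * W p y) • y -
      ((Pk k (‖y‖ ^ 2) (φ' y) - Pk k (‖y‖ ^ 2) (inner ℝ p y)) * W p y) • y) := by
    unfold XX
    exact (integral_sub (XX_int k hρ0 hρ hp hφ) (XX_int k hρ0 hρ hp hφ')).symm
  have hbi := (int_pe (n := n) (2 * k + 2) hc).const_mul δ
  rw [e1]
  refine (norm_integral_le_of_norm_le hbi (ae_of_all _ fun y => ?_)).trans (le_of_eq ?_)
  · rw [← sub_smul, norm_smul, Real.norm_eq_abs]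
    have e2 : (Pk k (‖y‖ ^ 2) (φ y) - Pk k (‖y‖ ^ 2) (inner ℝ p y)) * W p y -
        (Pk k (‖y‖ ^ 2) (φ' y) - Pk k (‖y‖ ^ 2) (inner ℝ p y)) * W p y =
        (Pk k (‖y‖ ^ 2) (φ y) - Pk k (‖y‖ ^ 2) (φ' y)) * W p y := by ring
    rw [e2, abs_mul, abs_of_pos (W_pos p y)]
    have h3 := W_le hp y
    have h4 := norm_nonneg y
    have h5 := hff y
    have h6 := Pk_lip k (sq_le_of (hφ.2 y)) (sq_le_of (hφ'.2 y))
    have h7 := rk_le k h4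
    calc |Pk k (‖y‖ ^ 2) (φ y) - Pk k (‖y‖ ^ 2) (φ' y)| * W p y * ‖y‖ ≤
        ((1 + ‖y‖) ^ (2 * k) * (δ * (1 + ‖y‖))) *
          Real.exp (-((1 - ρ ^ 2) / 2 * ‖y‖ ^ 2)) * (1 + ‖y‖) := by
          have := W_pos p y
          gcongr
          · refine h6.trans ?_
            gcongr
            refine h5.trans ?_
            gcongr
            linarith
          · linarith
      _ = _ := by ring
  · rw [integral_const_mul]
    ring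

/-- the factor `(‖y‖² - φ²)^k` -/
noncomputable def ak (k : ℕ) (φ : E n → ℝ) (y : E n) : ℝ := (‖y‖ ^ 2 - φ y ^ 2) ^ k

theorem ak_bd (k : ℕ) {φ : E n → ℝ} (hφ : Bd φ) (y : E n) :
    0 ≤ ak k φ y ∧ ak k φ y ≤ (1 + ‖y‖) ^ (2 * k) := by
  have h1 := sq_le_of (hφ.2 y)
  have h2 := ak_le k (norm_nonneg y) (hφ.2 y)
  unfold ak
  exact ⟨pow_nonneg (by linarith) k, (le_abs_self _).trans h2⟩

/-- differentiation with respect to a parameter of the function -/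
theorem XX_chart (k : ℕ) {ρ : ℝ} (hρ0 : 0 ≤ ρ) (hρ : ρ < 1) {p : E n} (hp : ‖p‖ ≤ ρ)
    {φ : E n → E n → ℝ} (hφ : ∀ c, Bd (φ c)) {c₀ : E n} {r K : ℝ} (hr : 0 < r)
    (hK : ∀ c ∈ ball c₀ r, ∀ y, |φ c y - φ c₀ y| ≤ K * ‖c - c₀‖ * ‖y‖)
    {D : E n → E n →L[ℝ] ℝ} (hD : Measurable D)
    (hDer : ∀ᵐ y ∂(volume : Measure (E n)), HasFDerivAt (fun c => φ c y) (D y) c₀) :
    ∃ T : E n →L[ℝ] E n, HasFDerivAt (fun c => XX k p (φ c)) T c₀ ∧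
      ∀ v, T v = ∫ y, ((ak k (φ c₀) y • D y) v * W p y) • y := by
  have hc := cpos hρ0 hρ
  set F : E n → E n → E n := fun c y =>
    ((Pk k (‖y‖ ^ 2) (φ c y) - Pk k (‖y‖ ^ 2) (inner ℝ p y)) * W p y) • y with hF
  set D' : E n → E n →L[ℝ] ℝ := fun y => ak k (φ c₀) y • D y with hD'
  set F' : E n → E n →L[ℝ] E n := fun y => (D' y).smulRight (W p y • y) with hF'
  set bound : E n → ℝ := fun y => |K| * ((1 + ‖y‖) ^ (2 * k + 2) *
    Real.exp (-((1 - ρ ^ 2) / 2 * ‖y‖ ^ 2))) with hbound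
  have hWc := W_cont p
  have hFc : ∀ c : E n, Continuous (F c) := by
    intro c
    have := (hφ c).1
    rw [hF]
    exact ((dP_cont k this p).mul hWc).smul continuous_id
  have hbi : Integrable bound := (int_pe (2 * k + 2) hc).const_mul _
  have hakm : Measurable (fun y => ak k (φ c₀) y) := by
    have := (hφ c₀).1
    unfold ak
    fun_prop
  have hD'm : Measurable D' := hakm.smul hD
  have hF'm : AEStronglyMeasurable F' volume := by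
    have h1 : Measurable (fun y : E n => W p y • y) := (hWc.smul continuous_id).measurable
    have h2 : Continuous (fun z : (E n →L[ℝ] ℝ) × E n => z.1.smulRight z.2) :=
      (ContinuousLinearMap.smulRightL ℝ (E n) (E n)).continuous₂
    exact (h2.measurable.comp (hD'm.prodMk h1)).aestronglyMeasurable
  have key := hasFDerivAt_integral_of_dominated_loc_of_lip' (μ := (volume : Measure (E n))) (F := F)
    (F' := F') (x₀ := c₀) (bound := bound) (s := ball c₀ r) (ball_mem_nhds c₀ hr)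
    (fun c _ => (hFc c).aestronglyMeasurable) (XX_int k hρ0 hρ hp (hφ c₀)) hF'm ?_ hbi ?_
  · obtain ⟨k1, k2⟩ := key
    refine ⟨∫ y, F' y, k2, ?_⟩
    intro v
    rw [ContinuousLinearMap.integral_apply k1]
    refine integral_congr_ae (ae_of_all _ fun y => ?_)
    simp only [hF', ContinuousLinearMap.smulRight_apply, smul_smul]
    rfl
  · refine ae_of_all _ fun y c' hc' => ?_
    have e1 : F c' y - F c₀ y =
        ((Pk k (‖y‖ ^ 2) (φ c' y) - Pk k (‖y‖ ^ 2) (φ c₀ y)) * W p y) • y := by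
      simp only [hF]
      rw [← sub_smul]
      congr 1
      ring
    rw [e1, norm_smul, Real.norm_eq_abs, abs_mul, abs_of_pos (W_pos p y)]
    have h2 := hK c' hc' y
    have h3 := W_le hp y
    have h4 := norm_nonneg y
    have h6 := Pk_lip k (sq_le_of ((hφ c').2 y)) (sq_le_of ((hφ c₀).2 y))
    have h7 := rk_le k h4
    calc |Pk k (‖y‖ ^ 2) (φ c' y) - Pk k (‖y‖ ^ 2) (φ c₀ y)| * W p y * ‖y‖ ≤
        ((1 + ‖y‖) ^ (2 * k) * (|K| * ‖c' - c₀‖ * (1 + ‖y‖))) *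
          Real.exp (-((1 - ρ ^ 2) / 2 * ‖y‖ ^ 2)) * (1 + ‖y‖) := by
          have := W_pos p y
          gcongr
          · refine h6.trans ?_
            gcongr
            refine h2.trans ?_
            gcongr
            · exact le_abs_self K
            · linarith
          · linarith
      _ = _ := by
          rw [hbound]
          ring
  · filter_upwards [hDer] with y hy
    have h0 : HasFDerivAt (fun c => Pk k (‖y‖ ^ 2) (φ c y)) (D' y) c₀ :=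
      (Pk_hd k (‖y‖ ^ 2) (φ c₀ y)).comp_hasFDerivAt c₀ hy
    have h3 : HasFDerivAt (fun c => ((Pk k (‖y‖ ^ 2) (φ c y) - Pk k (‖y‖ ^ 2) (inner ℝ p y)) *
        W p y) • y) (F' y) c₀ := by
      have h4 := ((h0.sub_const (Pk k (‖y‖ ^ 2) (inner ℝ p y))).mul_const (W p y)).smul_const y
      refine h4.congr_fderiv ?_
      ext v
      simp [hF', smul_smul, mul_comm]
    exact h3

end Pool.Agent.Q183.HD
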