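import Pool.Agent.Q183.HD.B
import Pool.Agent.Q183.CN.F

/-!
# The field of degree `2k+1`: change of variables
-/

set_option autoImplicit false

open MeasureTheory Metric Set Filter Topology

namespace Pool.Agent.Q183.HD

open Pool.Agent.Q183.CN
open Pool.Agent.W716.FV (E gam gd)
open Pool.Agent.Q188.FC (PB PL lf NN NNL NI)

variable {n : ℕ}

/-- the difference of the primitives at `N_p z` -/
noncomputable def sS (k : ℕ) (p : E n) (φ : E n → ℝ) (z : E n) : ℝ :=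
  Pk k (‖NN p z‖ ^ 2) (φ (NN p z)) - Pk k (‖NN p z‖ ^ 2) (lf p * inner ℝ p z)

/-- the first moment of `sS` -/
noncomputable def mX (k : ℕ) (p : E n) (φ : E n → ℝ) : E n := ∫ z, sS k p φ z • z ∂(gam n)

theorem XX_hat (k : ℕ) {ρ : ℝ} (hρ0 : 0 ≤ ρ) (hρ : ρ < 1) {p : E n} (hp : ‖p‖ ≤ ρ) {φ : E n → ℝ}
    (hφ : Bd φ) : Integrable (fun z => sS k p φ z • z) (gam n) ∧
      XX k p φ = (lf p * kn n) • NN p (mX k p φ) := by
  have hp1 : ‖p‖ < 1 := hp.trans_lt hρ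
  obtain ⟨h1, -, h3, -, -, -, h7, h8, -⟩ := bst hp1
  have e1 : (fun y => ((Pk k (‖y‖ ^ 2) (φ y) - Pk k (‖y‖ ^ 2) (inner ℝ p y)) * W p y) • y) =
      fun y => W p y • ((Pk k (‖y‖ ^ 2) (φ y) - Pk k (‖y‖ ^ 2) (inner ℝ p y)) • y) := by
    funext y
    rw [smul_smul, mul_comm]
  have i1 := XX_int k hρ0 hρ hp hφ
  rw [e1, cov_int hp1] at i1
  have e2 : (fun z => (Pk k (‖NN p z‖ ^ 2) (φ (NN p z)) -
      Pk k (‖NN p z‖ ^ 2) (inner ℝ p (NN p z))) • NN p z) = fun z => NNL p (sS k p φ z • z) := by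
    funext z
    rw [map_smul, h3, h7]
    rfl
  rw [e2] at i1
  have i2 : Integrable (fun z => sS k p φ z • z) (gam n) := by
    have h4 := (eqv hp1).integrable_comp_iff (φ := fun z => sS k p φ z • z) (μ := gam n)
    refine h4.1 ?_
    refine i1.congr (ae_of_all _ fun z => ?_)
    simp only
    rw [eqv_apply, h3]
  refine ⟨i2, ?_⟩
  unfold XX
  rw [e1, cov hp1]
  simp only [e2]
  congr 1
  rw [(NNL p).integral_comp_comm i2, h3]
  rfl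

theorem XX_zero (k : ℕ) {ρ : ℝ} (hρ0 : 0 ≤ ρ) (hρ : ρ < 1) {p : E n} (hp : ‖p‖ ≤ ρ)
    {φ : E n → ℝ} (hφ : Bd φ) : XX k p φ = 0 ↔ mX k p φ = 0 := by
  have hp1 : ‖p‖ < 1 := hp.trans_lt hρ
  obtain ⟨h1, -, h3, -⟩ := bst hp1
  have hl : 0 < lf p := by linarith
  rw [(XX_hat k hρ0 hρ hp hφ).2, smul_eq_zero_iff_right (mul_pos hl (kn_pos n)).ne']
  constructor
  · exact NN_inj hp1
  · intro h
    rw [h, ← h3, map_zero]

/-- the derivative in terms of `sS` -/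
theorem LX_hat (k : ℕ) {ρ : ℝ} (hρ0 : 0 ≤ ρ) (hρ : ρ < 1) {p : E n} (hp : ‖p‖ ≤ ρ)
    {φ : E n → ℝ} (hφ : Bd φ) (a a' : E n) : (inner ℝ (LX k p φ a) a' : ℝ) = -(lf p * kn n) *
      ∫ z, ((‖z‖ ^ 2) ^ k - sS k p φ z * (lf p * inner ℝ p z)) *
        (inner ℝ (NN p a) z * inner ℝ (NN p a') z) ∂(gam n) := by
  have hp1 : ‖p‖ < 1 := hp.trans_lt hρ
  obtain ⟨h1, -, h3, -, -, h6, h7, h8, -⟩ := bst hp1
  rw [LX_apply k hρ0 hρ hp hφ, real_inner_comm, ← integral_inner (LXa_int k hρ0 hρ hp hφ a)]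
  have e1 : (fun y => (inner ℝ a' ((F1 k (‖y‖ ^ 2) (φ y) (inner ℝ p y) *
      Real.exp (-‖y‖ ^ 2 / 2) * inner ℝ y a) • y) : ℝ)) = fun y => W p y •
      (-(((‖y‖ ^ 2 - (inner ℝ p y) ^ 2) ^ k - (Pk k (‖y‖ ^ 2) (φ y) -
        Pk k (‖y‖ ^ 2) (inner ℝ p y)) * inner ℝ p y) * (inner ℝ a y * inner ℝ a' y))) := by
    funext y
    rw [real_inner_smul_right, smul_eq_mul, W_eq, real_inner_comm a y]
    unfold F1
    ring
  rw [e1, cov hp1, smul_eq_mul, neg_mul, ← mul_neg, ← integral_neg]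
  congr 1
  refine integral_congr_ae (ae_of_all _ fun z => ?_)
  simp only
  rw [h7, ← h6 a z, ← h6 a' z]
  have e2 : ‖NN p z‖ ^ 2 - (lf p * inner ℝ p z) ^ 2 = ‖z‖ ^ 2 := by
    rw [nn_sq hp1]
    ring
  rw [e2]
  rfl

theorem DX_int (k : ℕ) {ρ : ℝ} (hρ0 : 0 ≤ ρ) (hρ : ρ < 1) {p : E n} (hp : ‖p‖ ≤ ρ)
    {φ : E n → ℝ} (hφ : Bd φ) {G : Matrix (Fin n) (Fin n) ℝ} {D : E n → E n →L[ℝ] ℝ}
    (hD : Measurable D)
    (hDb : ∀ᵐ y ∂(volume : Measure (E n)), ∀ v : E n,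
      (D y v) ^ 2 ≤ (‖y‖ ^ 2 - φ y ^ 2) * ∑ i, ∑ j, v i * G i j * v j) (v : E n) :
    Integrable (fun y => ((ak k φ y • D y) v * W p y) • y) := by
  have hDm : Measurable (fun y => D y v) := hD.apply_continuousLinearMap v
  have hWc := W_cont p
  have hakm : Measurable (fun y => ak k φ y) := by
    have := hφ.1
    unfold ak
    fun_prop
  have e0 : (fun y => ((ak k φ y • D y) v * W p y) • y) =
      fun y => ((ak k φ y * D y v) * W p y) • y := rfl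
  rw [e0]
  refine int_of (C := √|∑ i, ∑ j, v i * G i j * v j|) (c := (1 - ρ ^ 2) / 2) (k := 2 * k + 2)
    (cpos hρ0 hρ)
    (((hakm.mul hDm).mul hWc.measurable).smul measurable_id).aestronglyMeasurable ?_
  filter_upwards [hDb] with y hy
  have h1 := hy v
  have h2 : |D y v| ≤ ‖y‖ * √|∑ i, ∑ j, v i * G i j * v j| := by
    rw [← Real.sqrt_sq (norm_nonneg y), ← Real.sqrt_mul (sq_nonneg _)]
    apply Real.abs_le_sqrt
    refine h1.trans ?_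
    have h5 : φ y ^ 2 ≤ ‖y‖ ^ 2 := sq_le_of (hφ.2 y)
    calc (‖y‖ ^ 2 - φ y ^ 2) * ∑ i, ∑ j, v i * G i j * v j
        ≤ (‖y‖ ^ 2 - φ y ^ 2) * |∑ i, ∑ j, v i * G i j * v j| :=
          mul_le_mul_of_nonneg_left (le_abs_self _) (by linarith)
      _ ≤ ‖y‖ ^ 2 * |∑ i, ∑ j, v i * G i j * v j| := by
          apply mul_le_mul_of_nonneg_right _ (abs_nonneg _)
          nlinarith [sq_nonneg (φ y)]
  obtain ⟨a0, a1⟩ := ak_bd k hφ y
  rw [norm_smul, Real.norm_eq_abs, abs_mul, abs_mul, abs_of_pos (W_pos p y), abs_of_nonneg a0]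
  have h3 := W_le hp y
  have h4 := norm_nonneg y
  calc ak k φ y * |D y v| * W p y * ‖y‖ ≤ ((1 + ‖y‖) ^ (2 * k) *
        ((1 + ‖y‖) * √|∑ i, ∑ j, v i * G i j * v j|)) *
        Real.exp (-((1 - ρ ^ 2) / 2 * ‖y‖ ^ 2)) * (1 + ‖y‖) := by
        have := W_pos p y
        gcongr
        · refine h2.trans ?_
          gcongr
          linarith
        · linarith
    _ = _ := by ring

/-! ### linear functions -/

theorem lin_bd' {a : E n} (ha : ‖a‖ ≤ 1) : Bd (fun y : E n => (inner ℝ a y : ℝ)) :=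
  ⟨by fun_prop, fun y => (abs_real_inner_le_norm a y).trans (by nlinarith [norm_nonneg y])⟩

theorem sq_lt_norm {ρ : ℝ} (hρ : ρ < 1) {p : E n} (hp : ‖p‖ ≤ ρ) (y : E n) :
    (inner ℝ p y : ℝ) ^ 2 ≤ ‖y‖ ^ 2 := sq_le_of (inner_le_of hρ hp y)

/-- the field of a linear function -/
theorem XX_lin_pos (k : ℕ) {ρ : ℝ} (hρ0 : 0 ≤ ρ) (hρ : ρ < 1) {p a : E n} (hp : ‖p‖ ≤ ρ)
    (ha : ‖a‖ ≤ 1) (hne : a ≠ p) :
    0 < (inner ℝ (XX k p (fun y => (inner ℝ a y : ℝ))) (a - p) : ℝ) := by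
  have hi := XX_int k hρ0 hρ hp (lin_bd' ha)
  unfold XX
  rw [real_inner_comm, ← integral_inner hi]
  have e1 : (fun y : E n => (inner ℝ (a - p) (((Pk k (‖y‖ ^ 2) (inner ℝ a y) -
      Pk k (‖y‖ ^ 2) (inner ℝ p y)) * W p y) • y) : ℝ)) =
      fun y => (Pk k (‖y‖ ^ 2) (inner ℝ a y) - Pk k (‖y‖ ^ 2) (inner ℝ p y)) *
        ((inner ℝ a y : ℝ) - inner ℝ p y) * W p y := by
    funext y
    rw [real_inner_smul_right, inner_sub_left]
    ring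
  rw [e1]
  have hi2 : Integrable (fun y : E n => (Pk k (‖y‖ ^ 2) (inner ℝ a y) -
      Pk k (‖y‖ ^ 2) (inner ℝ p y)) * ((inner ℝ a y : ℝ) - inner ℝ p y) * W p y) := by
    rw [← e1]
    exact hi.const_inner (a - p)
  have hsa : ∀ y : E n, (inner ℝ a y : ℝ) ^ 2 ≤ ‖y‖ ^ 2 := fun y => sq_le_of ((lin_bd' ha).2 y)
  have hsp : ∀ y : E n, (inner ℝ p y : ℝ) ^ 2 ≤ ‖y‖ ^ 2 := fun y => sq_lt_norm hρ hp y
  have hnn : ∀ y : E n, 0 ≤ (Pk k (‖y‖ ^ 2) (inner ℝ a y) -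
      Pk k (‖y‖ ^ 2) (inner ℝ p y)) * ((inner ℝ a y : ℝ) - inner ℝ p y) * W p y := by
    intro y
    refine mul_nonneg ?_ (W_pos p y).le
    rcases le_total (inner ℝ a y : ℝ) (inner ℝ p y) with h | h
    · exact mul_nonneg_of_nonpos_of_nonpos (sub_nonpos.2 (Pk_mono k (hsa y) (hsp y) h))
        (sub_nonpos.2 h)
    · exact mul_nonneg (sub_nonneg.2 (Pk_mono k (hsp y) (hsa y) h)) (sub_nonneg.2 h)
  have hcont : Continuous (fun y : E n => (Pk k (‖y‖ ^ 2) (inner ℝ a y) -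
      Pk k (‖y‖ ^ 2) (inner ℝ p y)) * ((inner ℝ a y : ℝ) - inner ℝ p y) * W p y) :=
    ((dP_cont k (by fun_prop) p).mul (by fun_prop)).mul (W_cont p)
  refine integral_pos_of_integrable_nonneg_nonzero (x := a - p) hcont hi2 hnn ?_
  have hlt : (inner ℝ p (a - p) : ℝ) < inner ℝ a (a - p) := by
    have h1 : (inner ℝ a (a - p) : ℝ) - inner ℝ p (a - p) = ‖a - p‖ ^ 2 := by
      rw [← inner_sub_left, real_inner_self_eq_norm_sq]
    have h2 : 0 < ‖a - p‖ := norm_pos_iff.2 (sub_ne_zero.2 hne)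
    have h3 : 0 < ‖a - p‖ ^ 2 := by positivity
    linarith
  have h1 := Pk_smono k (hsp (a - p)) (hsa (a - p)) hlt
  exact (mul_pos (mul_pos (sub_pos.2 h1) (sub_pos.2 hlt)) (W_pos _ _)).ne'

end Pool.Agent.Q183.HD
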