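import Pool.Agent.Q183.HD.C

/-!
# Gaussian moments
-/

set_option autoImplicit false

open MeasureTheory Metric Set Filter Topology

namespace Pool.Agent.Q183.HD

open Pool.Agent.Q183.CN
open Pool.Agent.W716.FV (E gam gd)
open Pool.Agent.Q188.FC (PB PL lf NN NNL NI hs qp)
open Pool.Agent.H241R3.FV (act mat det_mat)
open Pool.Agent.Q280.FC (pb_mono pb_const pb_norm pb_mul pb_add pb_sub pb_pow pb_inner pb_apply
  pb_sum pb_intc cs int_inner_sq qp_cont qp_pb)

variable {n : ℕ}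

/-- the moment identity for homogeneous functions -/
theorem hom_mom (j : ℕ) {g : E n → ℝ} (hg : PL g)
    (hhom : ∀ (t : ℝ) (z : E n), g (t • z) = t ^ j * g z) :
    Integrable g (gam n) ∧ Integrable (fun z => ‖z‖ ^ 2 * g z) (gam n) ∧
    ∫ z, ‖z‖ ^ 2 * g z ∂(gam n) = (n + j) * ∫ z, g z ∂(gam n) := by
  obtain ⟨f1, f2, f3, -, f5, f6, f7⟩ := Pool.Agent.Q188.FC.pl n
  obtain ⟨gc, gb, gd', -, gpb, gm, -⟩ := f1 g hg
  have hPBn : PB (fun x : E n => ‖x‖) := ⟨1, 1, by norm_num, fun x => by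
    rw [abs_of_nonneg (norm_nonneg x), pow_one]
    linarith [norm_nonneg x]⟩
  have gint : Integrable g (gam n) := f6 g gc gb
  have g2 : Integrable (fun z => ‖z‖ ^ 2 * g z) (gam n) := by
    refine f6 _ (by fun_prop) ?_
    have e1 := (f3 _ _ hPBn hPBn).2
    have e2 := (f3 _ _ e1 gb).2
    have e3 : (fun x : E n => ‖x‖ * ‖x‖ * g x) = fun z => ‖z‖ ^ 2 * g z := by
      funext x
      ring
    rw [e3] at e2
    exact e2
  refine ⟨gint, g2, ?_⟩
  -- the coordinates
  have key : ∀ i : Fin n, ∫ z, z i ^ 2 * g z ∂(gam n) =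
      (∫ z, fderiv ℝ g z (z i • EuclideanSpace.single i (1 : ℝ)) ∂(gam n)) +
        ∫ z, g z ∂(gam n) := by
    intro i
    set v : E n := EuclideanSpace.single i (1 : ℝ) with hv
    have hPLi : PL (fun x : E n => (inner ℝ v x : ℝ)) := f5 v
    have hh := (f2 g _ hg hPLi).2.2
    have hI := (f1 _ hh).2.2.2.2.2.2 v
    have hPBi := (f1 _ hPLi).2.1
    have e1 : ∀ z : E n, g z * (inner ℝ v z : ℝ) * (inner ℝ z v : ℝ) = z i ^ 2 * g z := by
      intro z
      rw [real_inner_comm z v, hv, Pool.Agent.Q53.FC.CM.inner_single]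
      ring
    simp only [e1] at hI
    rw [hI]
    have e2 : ∀ᵐ z ∂(gam n), fderiv ℝ (fun x : E n => g x * (inner ℝ v x : ℝ)) z v =
        fderiv ℝ g z (z i • v) + g z := by
      filter_upwards [gd'] with z hz
      have d1 : HasFDerivAt (fun x : E n => (inner ℝ v x : ℝ)) (innerSL ℝ v) z :=
        (innerSL ℝ v).hasFDerivAt
      have d2 : fderiv ℝ (fun x : E n => g x * (inner ℝ v x : ℝ)) z =
          g z • (innerSL ℝ v) + (inner ℝ v z : ℝ) • fderiv ℝ g z :=
        (hz.hasFDerivAt.mul d1).fderiv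
      rw [d2]
      simp only [add_apply, smul_apply, smul_eq_mul,
        innerSL_apply_apply, map_smul]
      have e3 : (inner ℝ v v : ℝ) = 1 := by
        rw [real_inner_self_eq_norm_sq, hv]
        simp
      have e4 : (inner ℝ v z : ℝ) = z i := by
        rw [real_inner_comm, hv, Pool.Agent.Q53.FC.CM.inner_single]
      rw [e3, e4]
      ring
    rw [integral_congr_ae e2, integral_add _ gint]
    refine f7 _ ?_ ?_
    · have m1 : Measurable fun z : E n => fderiv ℝ g z v :=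
        (ContinuousLinearMap.measurable_apply v).comp gm
      have m2 : Measurable fun z : E n => z i := by fun_prop
      have m3 : (fun z : E n => fderiv ℝ g z (z i • v)) = fun z => z i * fderiv ℝ g z v := by
        funext z
        rw [map_smul, smul_eq_mul]
      rw [m3]
      exact m2.mul m1
    · obtain ⟨C, m, hC, hCm⟩ := gpb
      refine ⟨C, m + 1, hC, fun x => ?_⟩
      have e3 : |fderiv ℝ g x (x i • v)| ≤ ‖fderiv ℝ g x‖ * ‖x i • v‖ :=
        (fderiv ℝ g x).le_opNorm _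
      have e4 : ‖x i • v‖ ≤ 1 + ‖x‖ := by
        rw [norm_smul, hv]
        have : ‖x i‖ ≤ ‖x‖ := PiLp.norm_apply_le x i
        simp
        linarith [norm_nonneg x, this, Real.norm_eq_abs (x i)]
      have e5 := hCm x
      rw [abs_of_nonneg (norm_nonneg _)] at e5
      calc |fderiv ℝ g x (x i • v)| ≤ ‖fderiv ℝ g x‖ * ‖x i • v‖ := e3
        _ ≤ (C * (1 + ‖x‖) ^ m) * (1 + ‖x‖) := by gcongr
        _ = C * (1 + ‖x‖) ^ (m + 1) := by ring
  have hs1 : ∫ z, ‖z‖ ^ 2 * g z ∂(gam n) = ∑ i, ∫ z, z i ^ 2 * g z ∂(gam n) := by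
    rw [← integral_finsetSum]
    · refine integral_congr_ae (Filter.Eventually.of_forall fun z => ?_)
      simp only
      rw [EuclideanSpace.real_norm_sq_eq, Finset.sum_mul]
    · intro i _
      refine g2.mono (by fun_prop) (Filter.Eventually.of_forall fun z => ?_)
      rw [norm_mul, norm_mul, norm_pow, norm_pow, norm_norm]
      have : ‖z i‖ ≤ ‖z‖ := PiLp.norm_apply_le z i
      gcongr
  have hs2 : ∑ i, ∫ z, fderiv ℝ g z (z i • EuclideanSpace.single i (1 : ℝ)) ∂(gam n) =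
      j * ∫ z, g z ∂(gam n) := by
    rw [← integral_finsetSum, ← integral_const_mul]
    · refine integral_congr_ae ?_
      filter_upwards [gd'] with z hz
      rw [← map_sum, Pool.Agent.Q53.FC.CM.basis_sum]
      -- Euler
      have d1 : HasDerivAt (fun t : ℝ => g (t • z)) (fderiv ℝ g z z) 1 := by
        have d2 : HasDerivAt (fun t : ℝ => t • z) z 1 := by
          simpa using (hasDerivAt_id (1 : ℝ)).smul_const z
        have d3 : HasFDerivAt g (fderiv ℝ g z) ((1 : ℝ) • z) := by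
          rw [one_smul]
          exact hz.hasFDerivAt
        exact d3.comp_hasDerivAt (1 : ℝ) d2
      have d4 : HasDerivAt (fun t : ℝ => g (t • z)) (j * g z) 1 := by
        have d5 : HasDerivAt (fun t : ℝ => t ^ j * g z) (j * g z) 1 := by
          have := (hasDerivAt_pow j (1 : ℝ)).mul_const (g z)
          simpa using this
        have d6 : (fun t : ℝ => g (t • z)) = fun t => t ^ j * g z := funext fun t => hhom t z
        rw [d6]
        exact d5
      exact d1.unique d4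
    · intro i _
      refine f7 _ ?_ ?_
      · have m1 : Measurable fun z : E n => fderiv ℝ g z (EuclideanSpace.single i (1 : ℝ)) :=
          (ContinuousLinearMap.measurable_apply _).comp gm
        have m2 : Measurable fun z : E n => z i := by fun_prop
        have m3 : (fun z : E n => fderiv ℝ g z (z i • EuclideanSpace.single i (1 : ℝ))) =
            fun z => z i * fderiv ℝ g z (EuclideanSpace.single i (1 : ℝ)) := by
          funext z
          rw [map_smul, smul_eq_mul]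
        rw [m3]
        exact m2.mul m1
      · obtain ⟨C, m, hC, hCm⟩ := gpb
        refine ⟨C, m + 1, hC, fun x => ?_⟩
        have e3 : |fderiv ℝ g x (x i • EuclideanSpace.single i (1 : ℝ))| ≤
            ‖fderiv ℝ g x‖ * ‖x i • (EuclideanSpace.single i (1 : ℝ) : E n)‖ :=
          (fderiv ℝ g x).le_opNorm _
        have e4 : ‖x i • (EuclideanSpace.single i (1 : ℝ) : E n)‖ ≤ 1 + ‖x‖ := by
          rw [norm_smul]
          have : ‖x i‖ ≤ ‖x‖ := PiLp.norm_apply_le x i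
          simp
          linarith [norm_nonneg x, this, Real.norm_eq_abs (x i)]
        have e5 := hCm x
        rw [abs_of_nonneg (norm_nonneg _)] at e5
        calc |fderiv ℝ g x (x i • EuclideanSpace.single i (1 : ℝ))|
            ≤ ‖fderiv ℝ g x‖ * ‖x i • (EuclideanSpace.single i (1 : ℝ) : E n)‖ := e3
          _ ≤ (C * (1 + ‖x‖) ^ m) * (1 + ‖x‖) := by gcongr
          _ = C * (1 + ‖x‖) ^ (m + 1) := by ring
  rw [hs1, Finset.sum_congr rfl fun i _ => key i, Finset.sum_add_distrib, hs2, Finset.sum_const,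
    Finset.card_univ, Fintype.card_fin, nsmul_eq_mul]
  ring


theorem pl_norm : PL (fun x : E n => ‖x‖) :=
  ⟨1, 0, zero_le_one, fun x y => by
    rw [pow_zero, one_mul, one_mul]
    exact abs_norm_sub_norm_le x y⟩

theorem pl_nsq : PL (fun x : E n => ‖x‖ ^ 2) := pl_pow pl_norm 2

/-- `(n+j)(n+j+2)⋯(n+j+2(i-1))` -/
noncomputable def pr (n j i : ℕ) : ℝ := ∏ l ∈ Finset.range i, ((n : ℝ) + j + 2 * l)

theorem pr_succ (n j i : ℕ) : pr n j (i + 1) = pr n j i * ((n : ℝ) + j + 2 * i) := by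
  unfold pr
  rw [Finset.prod_range_succ]

theorem pr_shift (n j i : ℕ) : pr n j (i + 1) = ((n : ℝ) + j) * pr n (j + 2) i := by
  unfold pr
  rw [Finset.prod_range_succ', mul_comm]
  congr 1
  · simp
  · refine Finset.prod_congr rfl fun l _ => ?_
    push_cast
    ring

theorem pr_nonneg (n j i : ℕ) : 0 ≤ pr n j i := by
  unfold pr
  exact Finset.prod_nonneg fun l _ => by positivity

theorem pr_pos {n : ℕ} (hn : 0 < n) (j i : ℕ) : 0 < pr n j i := by
  have : (0 : ℝ) < n := by exact_mod_cast hn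
  unfold pr
  exact Finset.prod_pos fun l _ => by positivity

/-- moments with the weight `‖z‖^(2i)` -/
theorem bmom (j : ℕ) {g : E n → ℝ} (hg : PL g)
    (hhom : ∀ (t : ℝ) (z : E n), g (t • z) = t ^ j * g z) (i : ℕ) :
    ∫ z, (‖z‖ ^ 2) ^ i * g z ∂(gam n) = pr n j i * ∫ z, g z ∂(gam n) := by
  induction i with
  | zero => simp [pr]
  | succ i ih =>
    have h1 := (hom_mom (j + 2 * i) (g := fun z => (‖z‖ ^ 2) ^ i * g z)
      (pl_mul (pl_pow pl_nsq i) hg) (fun t z => by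
        rw [hhom, norm_smul, Real.norm_eq_abs, mul_pow, sq_abs, mul_pow, pow_add, pow_mul]
        ring)).2.2
    have e : (fun z : E n => (‖z‖ ^ 2) ^ (i + 1) * g z) =
        fun z => ‖z‖ ^ 2 * ((‖z‖ ^ 2) ^ i * g z) := by
      funext z
      ring
    rw [e, h1, ih, pr_succ]
    push_cast
    ring

/-- Stein's formula -/
theorem stein {F F' : E n → ℝ} (hF : PL F) (w : E n)
    (hd : ∀ᵐ z ∂(gam n), HasDerivAt (fun t : ℝ => F (z + t • w)) (F' z) 0) :
    ∫ z, inner ℝ w z * F z ∂(gam n) = ∫ z, F' z ∂(gam n) := by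
  obtain ⟨-, -, h3, -, -, -, h7⟩ := (Pool.Agent.Q188.FC.pl n).1 F hF
  have h8 := h7 w
  have e1 : (fun z : E n => (inner ℝ w z : ℝ) * F z) = fun z => F z * inner ℝ z w := by
    funext z
    rw [real_inner_comm, mul_comm]
  rw [e1, h8]
  refine integral_congr_ae ?_
  filter_upwards [h3, hd] with z hz hdz
  have d2 : HasDerivAt (fun t : ℝ => z + t • w) w 0 := by
    simpa using ((hasDerivAt_id (0 : ℝ)).smul_const w).const_add z
  have d3 : HasFDerivAt F (fderiv ℝ F z) (z + (0 : ℝ) • w) := by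
    rw [zero_smul, add_zero]
    exact hz.hasFDerivAt
  exact (d3.comp_hasDerivAt (0 : ℝ) d2).unique hdz

theorem hd_inner (w u z : E n) :
    HasDerivAt (fun t : ℝ => (inner ℝ u (z + t • w) : ℝ)) (inner ℝ u w) 0 := by
  have e : (fun t : ℝ => (inner ℝ u (z + t • w) : ℝ)) = fun t => inner ℝ u z + t * inner ℝ u w := by
    funext t
    rw [inner_add_right, inner_smul_right]
  rw [e]
  simpa using ((hasDerivAt_id (0 : ℝ)).mul_const (inner ℝ u w : ℝ)).const_add (inner ℝ u z : ℝ)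

theorem hd_qpl {Q : Matrix (Fin n) (Fin n) ℝ} (hQ : Q.IsSymm) (w z : E n) :
    HasDerivAt (fun t : ℝ => qp Q (z + t • w)) (2 * inner ℝ (act Q w) z) 0 := by
  have d2 : HasDerivAt (fun t : ℝ => z + t • w) w 0 := by
    simpa using ((hasDerivAt_id (0 : ℝ)).smul_const w).const_add z
  have d3 : HasFDerivAt (qp Q) ((2 : ℝ) • innerSL ℝ (act Q z)) (z + (0 : ℝ) • w) := by
    rw [zero_smul, add_zero]
    exact ((Pool.Agent.Q188.FC.gm n).2 Q hQ).2.2.1 z
  have h := d3.comp_hasDerivAt (0 : ℝ) d2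
  refine h.congr_deriv ?_
  simp only [smul_apply, innerSL_apply_apply, smul_eq_mul]
  rw [Pool.Agent.Q149.FC.GM.act_symm hQ, real_inner_comm]

/-- the moment `E[m⁴ q²]` -/
theorem mom_m4q2 {Q : Matrix (Fin n) (Fin n) ℝ} (hQ : Q.IsSymm) (w : E n) :
    ∫ z, inner ℝ w z ^ 4 * qp Q z ^ 2 ∂(gam n) ≤ 78 * (‖w‖ ^ 2) ^ 2 * hs Q := by
  obtain ⟨q1, -, -, q4, q5, q6, q7⟩ := (Pool.Agent.Q188.FC.gm n).2 Q hQ
  set r : E n → ℝ := fun z => inner ℝ (act Q w) z with hr
  set s₀ : ℝ := inner ℝ (act Q w) w with hs₀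
  have pm := pl_inner w
  have prr : PL r := pl_inner (act Q w)
  have hww : (inner ℝ w w : ℝ) = ‖w‖ ^ 2 := real_inner_self_eq_norm_sq w
  -- first step
  have a1 := stein (F := fun z => inner ℝ w z ^ 3 * qp Q z ^ 2)
    (F' := fun z => 3 * inner ℝ w z ^ 2 * ‖w‖ ^ 2 * qp Q z ^ 2 +
      inner ℝ w z ^ 3 * (2 * qp Q z * (2 * r z)))
    (pl_mul (pl_pow pm 3) (pl_pow q1 2)) w (ae_of_all _ fun z => by
      have h := ((hd_inner w w z).pow 3).mul ((hd_qpl hQ w z).pow 2)
      refine h.congr_deriv ?_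
      simp only [zero_smul, add_zero, hww, hr, Pi.pow_apply]
      push_cast
      ring)
  have a2 := stein (F := fun z => inner ℝ w z ^ 2 * (qp Q z * r z))
    (F' := fun z => 2 * inner ℝ w z * ‖w‖ ^ 2 * (qp Q z * r z) +
      inner ℝ w z ^ 2 * (2 * r z * r z + qp Q z * s₀))
    (pl_mul (pl_pow pm 2) (pl_mul q1 prr)) w (ae_of_all _ fun z => by
      have h := ((hd_inner w w z).pow 2).mul ((hd_qpl hQ w z).mul (hd_inner w (act Q w) z))
      refine h.congr_deriv ?_
      simp only [zero_smul, add_zero, hww, hr, hs₀, Pi.pow_apply, Pi.mul_apply]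
      push_cast
      ring)
  have i1 : Integrable (fun z => inner ℝ w z ^ 2 * qp Q z ^ 2) (gam n) :=
    pl_int (pl_mul (pl_pow pm 2) (pl_pow q1 2))
  have i2 : Integrable (fun z => inner ℝ w z ^ 3 * (qp Q z * r z)) (gam n) :=
    pl_int (pl_mul (pl_pow pm 3) (pl_mul q1 prr))
  have i3 : Integrable (fun z => inner ℝ w z * r z * qp Q z) (gam n) :=
    pl_int (pl_mul (pl_mul pm prr) q1)
  have i4 : Integrable (fun z => inner ℝ w z ^ 2 * r z ^ 2) (gam n) :=
    pl_int (pl_mul (pl_pow pm 2) (pl_pow prr 2))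
  have i5 : Integrable (fun z => inner ℝ w z * inner ℝ w z * qp Q z) (gam n) :=
    pl_int (pl_mul (pl_mul pm pm) q1)
  have b1 : ∫ z, inner ℝ w z ^ 4 * qp Q z ^ 2 ∂(gam n) =
      3 * ‖w‖ ^ 2 * ∫ z, inner ℝ w z ^ 2 * qp Q z ^ 2 ∂(gam n) +
      4 * ∫ z, inner ℝ w z ^ 3 * (qp Q z * r z) ∂(gam n) := by
    have e : ∀ z : E n, inner ℝ w z ^ 4 * qp Q z ^ 2 =
        inner ℝ w z * (inner ℝ w z ^ 3 * qp Q z ^ 2) := fun z => by ring
    simp only [e]
    rw [a1, ← integral_const_mul, ← integral_const_mul,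
      ← integral_add (i1.const_mul _) (i2.const_mul _)]
    refine integral_congr_ae (ae_of_all _ fun z => ?_)
    simp only
    ring
  have b2 : ∫ z, inner ℝ w z ^ 3 * (qp Q z * r z) ∂(gam n) =
      2 * ‖w‖ ^ 2 * ∫ z, inner ℝ w z * r z * qp Q z ∂(gam n) +
      (2 * ∫ z, inner ℝ w z ^ 2 * r z ^ 2 ∂(gam n) +
      s₀ * ∫ z, inner ℝ w z * inner ℝ w z * qp Q z ∂(gam n)) := by
    have e : ∀ z : E n, inner ℝ w z ^ 3 * (qp Q z * r z) =
        inner ℝ w z * (inner ℝ w z ^ 2 * (qp Q z * r z)) := fun z => by ring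
    have i45 : Integrable (fun z => 2 * (inner ℝ w z ^ 2 * r z ^ 2) +
        s₀ * (inner ℝ w z * inner ℝ w z * qp Q z)) (gam n) := (i4.const_mul _).add (i5.const_mul _)
    simp only [e]
    rw [a2, ← integral_const_mul, ← integral_const_mul, ← integral_const_mul,
      ← integral_add (i4.const_mul _) (i5.const_mul _), ← integral_add (i3.const_mul _) i45]
    refine integral_congr_ae (ae_of_all _ fun z => ?_)
    simp only
    ring
  have b3 : ∫ z, inner ℝ w z * r z * qp Q z ∂(gam n) = 2 * ‖act Q w‖ ^ 2 := by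
    rw [hr, q6 w (act Q w), real_inner_self_eq_norm_sq]
  have b4 : ∫ z, inner ℝ w z ^ 2 * r z ^ 2 ∂(gam n) = ‖w‖ ^ 2 * ‖act Q w‖ ^ 2 + 2 * s₀ ^ 2 := by
    rw [hr, mom4, hs₀, real_inner_comm]
  have b5 : ∫ z, inner ℝ w z * inner ℝ w z * qp Q z ∂(gam n) = 2 * s₀ := by
    rw [q6 w w]
  have c1 := Pool.Agent.Q280.FC.act_le Q w
  have c2 : s₀ ^ 2 ≤ ‖act Q w‖ ^ 2 * ‖w‖ ^ 2 := inner_sq_le _ _
  have c3 : 0 ≤ hs Q := by
    unfold Pool.Agent.Q188.FC.hs
    positivity
  rw [b1, b2, q7, b3, b4, b5]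
  have c4 : ‖w‖ ^ 2 * ‖act Q w‖ ^ 2 ≤ ‖w‖ ^ 2 * (hs Q * ‖w‖ ^ 2) :=
    mul_le_mul_of_nonneg_left c1 (sq_nonneg _)
  nlinarith

theorem mom_m2q2 {Q : Matrix (Fin n) (Fin n) ℝ} (hQ : Q.IsSymm) (w : E n) :
    ∫ z, inner ℝ w z ^ 2 * qp Q z ^ 2 ∂(gam n) ≤ 10 * ‖w‖ ^ 2 * hs Q := by
  obtain ⟨-, -, -, -, -, -, q7⟩ := (Pool.Agent.Q188.FC.gm n).2 Q hQ
  have c1 := Pool.Agent.Q280.FC.act_le Q w
  rw [q7]
  nlinarith

end Pool.Agent.Q183.HD
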