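import Pool.Agent.Q183.HD.D

/-!
# The derivative in the direction of the centre
-/

set_option autoImplicit false

open MeasureTheory Metric Set Filter Topology

namespace Pool.Agent.Q183.HD

open Pool.Agent.Q183.CN
open Pool.Agent.W716.FV (E gam gd)
open Pool.Agent.Q188.FC (PB PL lf NN NNL NI hs qp)
open Pool.Agent.H241R3.FV (act mat det_mat)
open Pool.Agent.Q280.FC (pb_mono pb_const pb_norm pb_mul pb_add pb_sub pb_pow pb_inner pb_apply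
  pb_sum pb_intc cs int_inner_sq qp_cont qp_pb)

variable {n : ℕ}

theorem bern (k : ℕ) {b u : ℝ} (hb : 0 ≤ b) (hu : 0 ≤ u) :
    (b + u) ^ k ≤ b ^ k + k * u * (b + u) ^ (k - 1) := by
  induction k with
  | zero => simp
  | succ k ih =>
    have h1 : (b + u) ^ (k + 1) ≤ (b + u) * (b ^ k + k * u * (b + u) ^ (k - 1)) := by
      rw [pow_succ, mul_comm]
      exact mul_le_mul_of_nonneg_left ih (by positivity)
    have h2 : (k : ℝ) * u * ((b + u) ^ (k - 1) * (b + u)) = k * u * (b + u) ^ k := by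
      cases k with
      | zero => simp
      | succ k => rw [Nat.add_sub_cancel, ← pow_succ]
    have h3 : u * b ^ k ≤ u * (b + u) ^ k :=
      mul_le_mul_of_nonneg_left (pow_le_pow_left₀ hb (by linarith) k) hu
    rw [Nat.add_sub_cancel]
    push_cast
    calc (b + u) ^ (k + 1) ≤ (b + u) * (b ^ k + k * u * (b + u) ^ (k - 1)) := h1
      _ = b ^ (k + 1) + u * b ^ k + k * u * ((b + u) ^ (k - 1) * (b + u)) := by ring
      _ = b ^ (k + 1) + u * b ^ k + k * u * (b + u) ^ k := by rw [h2]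
      _ ≤ _ := by linarith

/-- the error constant -/
noncomputable def Ce (k : ℕ) (L ε : ℝ) : ℝ :=
  L ^ (k - 1) * (k * L + k * ε + 4 * k ^ 2 * L ^ 2 / ε)

theorem Ce_nonneg (k : ℕ) {L ε : ℝ} (hL : 0 ≤ L) (hε : 0 < ε) : 0 ≤ Ce k L ε := by
  unfold Ce
  positivity

/-- scalar estimate: `b = ‖z‖²`, `m = ⟨w,z⟩`, `h = φ(N_p z)`, `η` its derivative, `τ = ‖w‖²` -/
theorem scal (k : ℕ) (hk : 1 ≤ k) {b m h η τ κ q L ε : ℝ} (hb : 0 ≤ b) (hmb : m ^ 2 ≤ τ * b)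
    (hτ : 0 ≤ τ) (hτL : 1 + τ ≤ L) (hh : h ^ 2 ≤ b + m ^ 2) (hκ0 : 0 ≤ κ) (hκ1 : κ ≤ 1)
    (hq0 : 0 ≤ q) (hq1 : q ≤ 1)
    (hη : η ≤ κ * ((1 + τ) * q)) (hε : 0 < ε) :
    (Qk k (b + m ^ 2) h * (2 * m * (1 + τ)) + (b + m ^ 2 - h ^ 2) ^ k * η) -
      (Qk k (b + m ^ 2) m * (2 * m * (1 + τ)) + (b + m ^ 2 - m ^ 2) ^ k * τ) ≤
      (κ * ((1 + τ) * q) - τ + ε) * b ^ k + Ce k L ε * (b ^ (k - 1) * m ^ 2) := by
  set Y := b + m ^ 2 with hY
  have hm2 : 0 ≤ m ^ 2 := sq_nonneg m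
  have hY0 : 0 ≤ Y := by positivity
  have hL1 : 1 ≤ L := by linarith
  have hk0 : (0 : ℝ) < k := by exact_mod_cast hk
  have hmY : m ^ 2 ≤ Y := by rw [hY]; linarith
  -- the power of Y
  have hYk : Y ^ k ≤ b ^ k + k * m ^ 2 * Y ^ (k - 1) := bern k hb hm2
  have hYL : Y ≤ L * b := by
    rw [hY]
    nlinarith
  have hYk1 : Y ^ (k - 1) ≤ L ^ (k - 1) * b ^ (k - 1) := by
    rw [← mul_pow]
    exact pow_le_pow_left₀ hY0 hYL _
  -- the first term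
  have hA0 : 0 ≤ κ * ((1 + τ) * q) := by positivity
  have hAL : κ * ((1 + τ) * q) ≤ L := by
    calc κ * ((1 + τ) * q) ≤ 1 * (L * 1) := by gcongr
      _ = L := by ring
  have t1 : (Y - h ^ 2) ^ k * η ≤ κ * ((1 + τ) * q) * Y ^ k := by
    have h0 : 0 ≤ Y - h ^ 2 := by linarith
    calc (Y - h ^ 2) ^ k * η ≤ (Y - h ^ 2) ^ k * (κ * ((1 + τ) * q)) := by
          gcongr
      _ ≤ Y ^ k * (κ * ((1 + τ) * q)) := by
          gcongr
          linarith [sq_nonneg h]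
      _ = _ := by ring
  -- the last term
  set δ : ℝ := ε / (4 * k * L) with hδ
  have hδ0 : 0 < δ := by positivity
  have t2 : (Qk k Y h - Qk k Y m) * (2 * m * (1 + τ)) ≤
      k * L * Y ^ (k - 1) * (4 * δ * Y + m ^ 2 / δ) := by
    have h1 := Qk_lip k hh hmY
    have h2 : (Qk k Y h - Qk k Y m) * (2 * m * (1 + τ)) ≤
        (k * Y ^ (k - 1) * |h - m|) * (2 * |m| * L) := by
      refine (le_abs_self _).trans ?_
      rw [abs_mul, abs_mul, abs_mul, abs_two, abs_of_nonneg (by linarith : (0 : ℝ) ≤ 1 + τ)]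
      gcongr
    have h3 : |h - m| ^ 2 ≤ 4 * Y := by
      rw [sq_abs]
      nlinarith [sq_nonneg (h + m)]
    have h4 : 2 * |m| * |h - m| ≤ δ * |h - m| ^ 2 + m ^ 2 / δ := by
      have h5 : 0 ≤ (δ * |h - m| - |m|) ^ 2 / δ := by positivity
      have h6 : (δ * |h - m| - |m|) ^ 2 / δ = δ * |h - m| ^ 2 - 2 * |m| * |h - m| + |m| ^ 2 / δ := by
        field_simp
        ring
      rw [sq_abs m] at h6
      linarith
    have h5 : 2 * |m| * |h - m| ≤ 4 * δ * Y + m ^ 2 / δ := by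
      have := mul_le_mul_of_nonneg_left h3 hδ0.le
      linarith
    calc _ ≤ (k * Y ^ (k - 1) * |h - m|) * (2 * |m| * L) := h2
      _ = k * L * Y ^ (k - 1) * (2 * |m| * |h - m|) := by ring
      _ ≤ _ := by gcongr
  have t3 : k * L * Y ^ (k - 1) * (4 * δ * Y + m ^ 2 / δ) =
      ε * Y ^ k + 4 * k ^ 2 * L ^ 2 / ε * (m ^ 2 * Y ^ (k - 1)) := by
    have e1 : Y ^ k = Y ^ (k - 1) * Y := by
      rw [← pow_succ]
      congr 1
      omega
    rw [e1, hδ]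
    field_simp
  have e2 : b + m ^ 2 - m ^ 2 = b := by ring
  have e3 : Y - m ^ 2 = b := by rw [hY]; ring
  rw [e3]
  have t4 : (κ * ((1 + τ) * q) + ε) * Y ^ k ≤
      (κ * ((1 + τ) * q) + ε) * b ^ k + (L + ε) * (k * m ^ 2 * Y ^ (k - 1)) := by
    calc (κ * ((1 + τ) * q) + ε) * Y ^ k ≤
        (κ * ((1 + τ) * q) + ε) * (b ^ k + k * m ^ 2 * Y ^ (k - 1)) := by gcongr
      _ = (κ * ((1 + τ) * q) + ε) * b ^ k +
          (κ * ((1 + τ) * q) + ε) * (k * m ^ 2 * Y ^ (k - 1)) := by ring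
      _ ≤ _ := by gcongr
  have t5 : (L + ε) * (k * m ^ 2 * Y ^ (k - 1)) + 4 * k ^ 2 * L ^ 2 / ε * (m ^ 2 * Y ^ (k - 1)) ≤
      Ce k L ε * (b ^ (k - 1) * m ^ 2) := by
    calc (L + ε) * (k * m ^ 2 * Y ^ (k - 1)) + 4 * k ^ 2 * L ^ 2 / ε * (m ^ 2 * Y ^ (k - 1)) =
        (k * L + k * ε + 4 * k ^ 2 * L ^ 2 / ε) * m ^ 2 * Y ^ (k - 1) := by ring
      _ ≤ (k * L + k * ε + 4 * k ^ 2 * L ^ 2 / ε) * m ^ 2 * (L ^ (k - 1) * b ^ (k - 1)) := by
          gcongr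
      _ = _ := by
          unfold Ce
          ring
  have t6 : (κ * ((1 + τ) * q) + ε) * b ^ k - b ^ k * τ =
      (κ * ((1 + τ) * q) - τ + ε) * b ^ k := by ring
  have t7 : (κ * ((1 + τ) * q) + ε) * Y ^ k = κ * ((1 + τ) * q) * Y ^ k + ε * Y ^ k := by ring
  linarith

/-! ### the functions of `z` -/

theorem Y_eq {p : E n} (hp : ‖p‖ < 1) (z : E n) :
    ‖NN p z‖ ^ 2 = ‖z‖ ^ 2 + (inner ℝ (lf p • p) z) ^ 2 := by
  rw [nn_sq hp, real_inner_smul_left]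

theorem sS_eq (k : ℕ) {p : E n} (hp : ‖p‖ < 1) (φ : E n → ℝ) (z : E n) :
    sS k p φ z = Pk k (‖z‖ ^ 2 + (inner ℝ (lf p • p) z) ^ 2) (φ (NN p z)) -
      Pk k (‖z‖ ^ 2 + (inner ℝ (lf p • p) z) ^ 2) (inner ℝ (lf p • p) z) := by
  unfold sS
  rw [Y_eq hp, real_inner_smul_left]

theorem pl_comp {κ ρ : ℝ} (hκ : 0 ≤ κ) {p : E n} (hp : ‖p‖ < 1) {φ : E n → ℝ}
    (hφ : Ck κ ρ φ) : PL (fun z => φ (NN p z)) := by
  obtain ⟨h1, -, h3, -⟩ := bst hp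
  refine ⟨κ * lf p, 0, by positivity, fun x y => ?_⟩
  rw [pow_zero, mul_one]
  have e2 : NN p x - NN p y = NN p (x - y) := by rw [← h3, ← h3, ← h3, map_sub]
  have h4 := hφ.lip (NN p x) (NN p y)
  rw [e2] at h4
  have h5 := nn_le hp (x - y)
  calc |φ (NN p x) - φ (NN p y)| ≤ κ * ‖NN p (x - y)‖ := h4
    _ ≤ κ * (lf p * ‖x - y‖) := mul_le_mul_of_nonneg_left h5 hκ
    _ = _ := by ring

theorem pl_Y (w : E n) : PL (fun z : E n => ‖z‖ ^ 2 + (inner ℝ w z) ^ 2) :=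
  pl_add pl_nsq (pl_pow (pl_inner w) 2)

theorem pl_sS (k : ℕ) {κ ρ : ℝ} (hκ : 0 ≤ κ) {p : E n} (hp : ‖p‖ < 1) {φ : E n → ℝ}
    (hφ : Ck κ ρ φ) : PL (sS k p φ) := by
  have h1 := pl_sub (pl_Pk k (pl_Y (lf p • p)) (pl_comp hκ hp hφ))
    (pl_Pk k (pl_Y (lf p • p)) (pl_inner (lf p • p)))
  have e : sS k p φ = fun z => Pk k (‖z‖ ^ 2 + (inner ℝ (lf p • p) z) ^ 2) (φ (NN p z)) -
      Pk k (‖z‖ ^ 2 + (inner ℝ (lf p • p) z) ^ 2) (inner ℝ (lf p • p) z) :=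
    funext fun z => sS_eq k hp φ z
  rw [e]
  exact h1

theorem norm_w {p : E n} (hp : ‖p‖ < 1) : ‖lf p • p‖ ^ 2 = (lf p * ‖p‖) ^ 2 ∧
    1 + ‖lf p • p‖ ^ 2 = lf p ^ 2 ∧ ‖NN p (lf p • p)‖ = lf p ^ 2 * ‖p‖ := by
  obtain ⟨h1, h2, -, -, h5, -⟩ := bst hp
  have hl : 0 < lf p := by linarith
  have e1 : ‖lf p • p‖ ^ 2 = (lf p * ‖p‖) ^ 2 := by
    rw [norm_smul, Real.norm_eq_abs, abs_of_pos hl]
  have e2 : 1 + ‖lf p • p‖ ^ 2 = lf p ^ 2 := by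
    rw [e1, mul_pow]
    linarith
  refine ⟨e1, e2, ?_⟩
  have h6 := nn_sq hp (lf p • p)
  rw [real_inner_smul_right, real_inner_self_eq_norm_sq, e1] at h6
  have h7 : ‖NN p (lf p • p)‖ ^ 2 = (lf p ^ 2 * ‖p‖) ^ 2 := by
    rw [h6]
    rw [e1] at e2
    have h8 : (lf p * ‖p‖) ^ 2 + (lf p * (lf p * ‖p‖ ^ 2)) ^ 2 =
        (lf p * ‖p‖) ^ 2 * (1 + (lf p * ‖p‖) ^ 2) := by ring
    rw [h8, e2]
    ring
  exact (pow_left_inj₀ (norm_nonneg _) (by positivity) two_ne_zero).1 h7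

/-- the bound for the derivative -/
noncomputable def bnd (k : ℕ) (κ L ε : ℝ) (p : E n) (z : E n) : ℝ :=
  (lf p ^ 2 * ‖p‖ * (κ - ‖p‖) + ε) * (‖z‖ ^ 2) ^ k +
    Ce k L ε * ((‖z‖ ^ 2) ^ (k - 1) * (inner ℝ (lf p • p) z) ^ 2)

theorem sS_der (k : ℕ) (hk : 1 ≤ k) {κ ρ L ε : ℝ} (hκ0 : 0 ≤ κ) (hκ1 : κ ≤ 1) (hρ1 : ρ ≤ 1)
    {p : E n} (hp : ‖p‖ < 1) (hL : lf p ^ 2 ≤ L) (hε : 0 < ε) {φ : E n → ℝ} (hφ : Ck κ ρ φ)
    {z : E n} (hz : DifferentiableAt ℝ (fun z => φ (NN p z)) z) :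
    ∃ D, HasDerivAt (fun t : ℝ => sS k p φ (z + t • (lf p • p))) D 0 ∧ D ≤ bnd k κ L ε p z := by
  obtain ⟨h1, h2, h3, -, -, -, h7, -⟩ := bst hp
  obtain ⟨w1, w2, w3⟩ := norm_w hp
  set w : E n := lf p • p with hw
  have hlm : HasDerivAt (fun t : ℝ => z + t • w) w 0 := by
    simpa using ((hasDerivAt_id (0 : ℝ)).smul_const w).const_add z
  have dm := hd_inner w w z
  rw [real_inner_self_eq_norm_sq] at dm
  have dn : HasDerivAt (fun t : ℝ => ‖z + t • w‖ ^ 2) (2 * inner ℝ w z) 0 := by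
    have e : (fun t : ℝ => ‖z + t • w‖ ^ 2) =
        fun t => ‖z‖ ^ 2 + 2 * (t * inner ℝ w z) + t ^ 2 * ‖w‖ ^ 2 := by
      funext t
      rw [norm_add_sq_real, inner_smul_right, norm_smul, mul_pow, Real.norm_eq_abs, sq_abs,
        real_inner_comm]
    rw [e]
    have d1 := (((hasDerivAt_id (0 : ℝ)).mul_const (inner ℝ w z : ℝ)).const_mul 2).const_add
      (‖z‖ ^ 2)
    have d2 := (hasDerivAt_pow 2 (0 : ℝ)).mul_const (‖w‖ ^ 2)
    refine (d1.add d2).congr_deriv ?_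
    simp
  have dY : HasDerivAt (fun t : ℝ => ‖z + t • w‖ ^ 2 + (inner ℝ w (z + t • w)) ^ 2)
      (2 * inner ℝ w z * (1 + ‖w‖ ^ 2)) 0 := by
    refine (dn.add (dm.pow 2)).congr_deriv ?_
    simp only [zero_smul, add_zero]
    push_cast
    ring
  -- the function
  have dh : HasDerivAt (fun t : ℝ => φ (NN p (z + t • w)))
      (fderiv ℝ (fun z => φ (NN p z)) z w) 0 := by
    have d3 : HasFDerivAt (fun z => φ (NN p z)) (fderiv ℝ (fun z => φ (NN p z)) z)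
        (z + (0 : ℝ) • w) := by
      rw [zero_smul, add_zero]
      exact hz.hasFDerivAt
    exact HasFDerivAt.comp_hasDerivAt (l := fun z => φ (NN p z)) (f := fun t : ℝ => z + t • w)
      (0 : ℝ) d3 hlm
  set η := fderiv ℝ (fun z => φ (NN p z)) z w with hη
  have hηb : η ≤ κ * (lf p ^ 2 * ‖p‖) := by
    have hlip : LipschitzWith (Real.toNNReal (κ * (lf p ^ 2 * ‖p‖)))
        (fun t : ℝ => φ (NN p (z + t • w))) := by
      refine LipschitzWith.of_dist_le_mul fun s t => ?_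
      rw [Real.dist_eq, Real.dist_eq, Real.coe_toNNReal _ (by positivity)]
      have h4 := hφ.lip (NN p (z + s • w)) (NN p (z + t • w))
      have e2 : NN p (z + s • w) - NN p (z + t • w) = (s - t) • NN p w := by
        rw [← h3, ← h3, ← h3, ← map_sub, ← map_smul]
        congr 1
        rw [sub_smul]
        abel
      rw [e2, norm_smul, w3, Real.norm_eq_abs] at h4
      refine h4.trans (le_of_eq (by ring))
    have h5 := norm_deriv_le_of_lipschitz hlip (x₀ := 0)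
    rw [dh.deriv, Real.coe_toNNReal _ (by positivity)] at h5
    exact (le_abs_self _).trans h5
  have c1 := Pk_comp k dY dh
  have c2 := Pk_comp k dY dm
  have c3 := c1.sub c2
  simp only [zero_smul, add_zero] at c3
  refine ⟨_, c3.congr_of_eventuallyEq (Eventually.of_forall fun t => ?_), ?_⟩
  · exact sS_eq k hp φ (z + t • w)
  · have hb : 0 ≤ ‖z‖ ^ 2 := sq_nonneg _
    have hmb : (inner ℝ w z : ℝ) ^ 2 ≤ ‖w‖ ^ 2 * ‖z‖ ^ 2 := inner_sq_le _ _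
    have hh : φ (NN p z) ^ 2 ≤ ‖z‖ ^ 2 + (inner ℝ w z) ^ 2 := by
      rw [hw, ← Y_eq hp]
      refine sq_le_of ((hφ.le _).trans ?_)
      nlinarith [norm_nonneg (NN p z)]
    have hs := scal k hk (b := ‖z‖ ^ 2) (m := inner ℝ w z) (h := φ (NN p z)) (η := η)
      (τ := ‖w‖ ^ 2) (κ := κ) (q := ‖p‖) (L := L) (ε := ε) hb hmb (sq_nonneg _)
      (by rw [w2]; exact hL) hh hκ0 hκ1 (norm_nonneg _) hp.le (by rw [w2]; exact hηb) hε
    refine hs.trans (le_of_eq ?_)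
    unfold bnd
    rw [w2, w1, ← hw]
    ring

end Pool.Agent.Q183.HD
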