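import Pool.Agent.Q183.HD.E

/-!
# Centres: a priori bound and nondegeneracy
-/

set_option autoImplicit false

open MeasureTheory Metric Set Filter Topology

namespace Pool.Agent.Q183.HD

open Pool.Agent.Q183.CN
open Pool.Agent.W716.FV (E gam gd)
open Pool.Agent.Q188.FC (PB PL lf NN NNL NI hs qp)
open Pool.Agent.H241R3.FV (act mat det_mat)
open Pool.Agent.Q280.FC (pb_mono pb_const pb_norm pb_mul pb_add pb_sub pb_pow pb_inner pb_apply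
  pb_sum pb_intc pb_intm cs int_inner_sq qp_cont qp_pb inner_int)

variable {n : ℕ}

/-- the parameters -/
structure HP (n k : ℕ) (κ ρ κ' ρ' L ε : ℝ) : Prop where
  n0 : 0 < n
  k1 : 1 ≤ k
  k0 : 0 ≤ κ
  r0 : 0 < ρ
  rk : ρ ≤ κ'
  kk : κ < κ'
  kr : κ' < ρ'
  r1 : ρ' < 1
  hL : 1 ≤ L * (1 - ρ' ^ 2)
  e0 : 0 < ε
  e1 : 2 * ε ≤ κ' * (κ' - κ)
  e2 : 4 * ε * (1 + ρ') ≤ 1 - ρ'
  nC : 3 * Ce k L ε * L ≤ ε * n

theorem HP.r0' {k : ℕ} {κ ρ κ' ρ' L ε : ℝ} (h : HP n k κ ρ κ' ρ' L ε) : 0 < ρ' := by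
  have := h.r0
  have := h.rk
  have := h.kr
  linarith

theorem HP.k1' {k : ℕ} {κ ρ κ' ρ' L ε : ℝ} (h : HP n k κ ρ κ' ρ' L ε) : κ ≤ 1 := by
  have := h.kk
  have := h.kr
  have := h.r1
  linarith

theorem HP.rho1 {k : ℕ} {κ ρ κ' ρ' L ε : ℝ} (h : HP n k κ ρ κ' ρ' L ε) : ρ ≤ 1 := by
  have := h.rk
  have := h.kr
  have := h.r1
  linarith

theorem HP.lfL {k : ℕ} {κ ρ κ' ρ' L ε : ℝ} (h : HP n k κ ρ κ' ρ' L ε) {p : E n}
    (hp : ‖p‖ ≤ ρ') : lf p ^ 2 ≤ L := by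
  have h1 := h.r1
  have h0 := h.r0'
  obtain ⟨-, h2, -⟩ := bst (hp.trans_lt h1)
  have h3 : ‖p‖ ^ 2 ≤ ρ' ^ 2 := pow_le_pow_left₀ (norm_nonneg p) hp 2
  have h4 := h.hL
  have h5 : 0 < 1 - ρ' ^ 2 := by nlinarith
  have h6 : lf p ^ 2 * (1 - ρ' ^ 2) ≤ L * (1 - ρ' ^ 2) := by
    refine le_trans ?_ h4
    rw [← h2]
    apply mul_le_mul_of_nonneg_left _ (sq_nonneg _)
    linarith
  exact le_of_mul_le_mul_right h6 h5

theorem HP.L1 {k : ℕ} {κ ρ κ' ρ' L ε : ℝ} (h : HP n k κ ρ κ' ρ' L ε) : 1 ≤ L := by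
  have h1 := h.lfL (p := 0) (by rw [norm_zero]; exact h.r0'.le)
  have h2 := (bst (n := n) (p := 0) (by rw [norm_zero]; norm_num)).1
  nlinarith

theorem stein_le {F B : E n → ℝ} (hF : PL F) (hB : Integrable B (gam n)) (w : E n)
    (hd : ∀ᵐ z ∂(gam n), ∀ d, HasDerivAt (fun t : ℝ => F (z + t • w)) d 0 → d ≤ B z) :
    ∫ z, inner ℝ w z * F z ∂(gam n) ≤ ∫ z, B z ∂(gam n) := by
  obtain ⟨-, -, h3, -, h5, h6, h7⟩ := (Pool.Agent.Q188.FC.pl n).1 F hF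
  have h8 := h7 w
  have e1 : (fun z : E n => (inner ℝ w z : ℝ) * F z) = fun z => F z * inner ℝ z w := by
    funext z
    rw [real_inner_comm, mul_comm]
  rw [e1, h8]
  have hi : Integrable (fun z => fderiv ℝ F z w) (gam n) := by
    refine pb_intm ((ContinuousLinearMap.measurable_apply w).comp h6) ?_
    refine pb_mono (pb_mul h5 (pb_const ‖w‖)) fun x => ?_
    rw [abs_of_nonneg (by positivity : 0 ≤ ‖fderiv ℝ F x‖ * ‖w‖)]
    exact (fderiv ℝ F x).le_opNorm w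
  refine integral_mono_ae hi hB ?_
  filter_upwards [h3, hd] with z hz hdz
  refine hdz _ ?_
  have d2 : HasDerivAt (fun t : ℝ => z + t • w) w 0 := by
    simpa using ((hasDerivAt_id (0 : ℝ)).smul_const w).const_add z
  have d3 : HasFDerivAt F (fderiv ℝ F z) (z + (0 : ℝ) • w) := by
    rw [zero_smul, add_zero]
    exact hz.hasFDerivAt
  exact d3.comp_hasDerivAt (0 : ℝ) d2

theorem mX_inner (k : ℕ) {κ ρ : ℝ} (hκ : 0 ≤ κ) {p : E n} (hp : ‖p‖ < 1) {φ : E n → ℝ}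
    (hφ : Ck κ ρ φ) (v : E n) :
    (inner ℝ (mX k p φ) v : ℝ) = ∫ z, sS k p φ z * inner ℝ v z ∂(gam n) := by
  have h := pl_sS k hκ hp hφ
  have h2 := inner_int (pl_cont h) (pl_pb h) v
  exact h2

theorem int_one (k : ℕ) : ∫ z : E n, (‖z‖ ^ 2) ^ k ∂(gam n) = pr n 0 k := by
  have hprob := Pool.Agent.Q280.FC.gprob n
  have h := bmom (n := n) 0 (g := fun _ => (1 : ℝ)) (pl_const 1) (fun t z => by simp) k
  simpa using h

theorem int_v2 (k : ℕ) (v : E n) :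
    ∫ z : E n, (‖z‖ ^ 2) ^ k * (inner ℝ v z : ℝ) ^ 2 ∂(gam n) = pr n 2 k * ‖v‖ ^ 2 := by
  have h := bmom (n := n) 2 (g := fun z => (inner ℝ v z : ℝ) ^ 2) (pl_pow (pl_inner v) 2)
    (fun t z => by rw [inner_smul_right]; ring) k
  rw [h, int_inner_sq]

theorem int_v2w2 (k : ℕ) (v w : E n) :
    ∫ z : E n, (‖z‖ ^ 2) ^ k * ((inner ℝ w z : ℝ) ^ 2 * (inner ℝ v z : ℝ) ^ 2) ∂(gam n) ≤
      pr n 4 k * (3 * ‖w‖ ^ 2 * ‖v‖ ^ 2) := by
  have h := bmom (n := n) 4 (g := fun z => (inner ℝ w z : ℝ) ^ 2 * (inner ℝ v z : ℝ) ^ 2)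
    (pl_mul (pl_pow (pl_inner w) 2) (pl_pow (pl_inner v) 2))
    (fun t z => by rw [inner_smul_right, inner_smul_right]; ring) k
  rw [h, mom4]
  have h2 := inner_sq_le w v
  refine mul_le_mul_of_nonneg_left ?_ (pr_nonneg _ _ _)
  linarith

theorem pr_pred {k : ℕ} (hk : 1 ≤ k) (n j : ℕ) :
    pr n j k = ((n : ℝ) + j) * pr n (j + 2) (k - 1) := by
  obtain ⟨i, rfl⟩ : ∃ i, k = i + 1 := ⟨k - 1, by omega⟩
  rw [pr_shift, Nat.add_sub_cancel]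

theorem ae_diff {κ ρ : ℝ} (hκ : 0 ≤ κ) {p : E n} (hp : ‖p‖ < 1) {φ : E n → ℝ}
    (hφ : Ck κ ρ φ) : ∀ᵐ z ∂(gam n), DifferentiableAt ℝ (fun z => φ (NN p z)) z :=
  ((Pool.Agent.Q188.FC.pl n).1 _ (pl_comp hκ hp hφ)).2.2.1

/-- a priori bound of the centre -/
theorem U1 {k : ℕ} {κ ρ κ' ρ' L ε : ℝ} (h : HP n k κ ρ κ' ρ' L ε) {p : E n} (hp : ‖p‖ ≤ ρ')
    {φ : E n → ℝ} (hφ : Ck κ ρ φ) (h0 : mX k p φ = 0) : ‖p‖ ≤ κ' := by
  have hp1 : ‖p‖ < 1 := hp.trans_lt h.r1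
  obtain ⟨b1, -⟩ := bst hp1
  obtain ⟨w1, w2, -⟩ := norm_w hp1
  have hL := h.lfL hp
  have hn : (0 : ℝ) < n := by exact_mod_cast h.n0
  have i1 : Integrable (fun z : E n => (‖z‖ ^ 2) ^ k) (gam n) := pl_int (pl_pow pl_nsq k)
  have i2 : Integrable (fun z : E n => (‖z‖ ^ 2) ^ (k - 1) * (inner ℝ (lf p • p) z) ^ 2) (gam n) :=
    pl_int (pl_mul (pl_pow pl_nsq (k - 1)) (pl_pow (pl_inner _) 2))
  have hB : Integrable (bnd k κ L ε p) (gam n) := (i1.const_mul _).add (i2.const_mul _)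
  have hst := stein_le (pl_sS k h.k0 hp1 hφ) hB (lf p • p) (by
    filter_upwards [ae_diff h.k0 hp1 hφ] with z hz d hd
    obtain ⟨D, hD, hDb⟩ := sS_der k h.k1 h.k0 h.k1' h.rho1 hp1 hL h.e0 hφ hz
    rw [hd.unique hD]
    exact hDb)
  have e1 : ∫ z, inner ℝ (lf p • p) z * sS k p φ z ∂(gam n) = 0 := by
    have e := mX_inner k h.k0 hp1 hφ (lf p • p)
    rw [h0, inner_zero_left] at e
    rw [e]
    refine integral_congr_ae (ae_of_all _ fun z => ?_)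
    simp only
    ring
  have e2 : ∫ z, bnd k κ L ε p z ∂(gam n) =
      (lf p ^ 2 * ‖p‖ * (κ - ‖p‖) + ε) * pr n 0 k +
      Ce k L ε * (pr n 2 (k - 1) * ‖lf p • p‖ ^ 2) := by
    unfold bnd
    rw [integral_add (i1.const_mul _) (i2.const_mul _), integral_const_mul, integral_const_mul,
      int_one, int_v2]
  rw [e1, e2, pr_pred h.k1] at hst
  have hpr := pr_pos h.n0 2 (k - 1)
  have hC := Ce_nonneg k (zero_le_one.trans h.L1) h.e0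
  have h5 : Ce k L ε * ‖lf p • p‖ ^ 2 ≤ ε * n := by
    have h6 : ‖lf p • p‖ ^ 2 ≤ L := by linarith
    have h7 := mul_le_mul_of_nonneg_left h6 hC
    have h8 := h.nC
    have h9 : 0 ≤ Ce k L ε * L := mul_nonneg hC (zero_le_one.trans h.L1)
    linarith
  set X := lf p ^ 2 * ‖p‖ * (κ - ‖p‖) with hX
  have h6 : 0 ≤ pr n 2 (k - 1) * (n * (X + 2 * ε)) := by
    refine hst.trans ?_
    have h7 : (X + ε) * (((n : ℝ) + (0 : ℕ)) * pr n (0 + 2) (k - 1)) +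
        Ce k L ε * (pr n 2 (k - 1) * ‖lf p • p‖ ^ 2) =
        pr n 2 (k - 1) * (n * (X + ε) + Ce k L ε * ‖lf p • p‖ ^ 2) := by
      push_cast
      ring
    rw [h7]
    apply mul_le_mul_of_nonneg_left _ hpr.le
    linarith
  have h7 : 0 ≤ X + 2 * ε := by
    by_contra hc
    push Not at hc
    have : pr n 2 (k - 1) * (n * (X + 2 * ε)) < 0 :=
      mul_neg_of_pos_of_neg hpr (mul_neg_of_pos_of_neg hn hc)
    linarith
  by_contra hc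
  push Not at hc
  have h8 := h.e1
  have h9 := h.kk
  have h10 := h.k0
  have h11 : κ' * (κ' - κ) < ‖p‖ * (‖p‖ - κ) := by nlinarith
  have h12 : ‖p‖ * (‖p‖ - κ) ≤ lf p ^ 2 * (‖p‖ * (‖p‖ - κ)) := by
    have h13 : 0 ≤ ‖p‖ * (‖p‖ - κ) := mul_nonneg (norm_nonneg _) (by linarith)
    have h14 : 1 ≤ lf p ^ 2 := by nlinarith
    nlinarith
  have h13 : X = -(lf p ^ 2 * (‖p‖ * (‖p‖ - κ))) := by rw [hX]; ring
  linarith

/-- nondegeneracy -/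
theorem U2 {k : ℕ} {κ ρ κ' ρ' L ε : ℝ} (h : HP n k κ ρ κ' ρ' L ε) {p : E n} (hp : ‖p‖ ≤ ρ')
    {φ : E n → ℝ} (hφ : Ck κ ρ φ) (h0 : mX k p φ = 0) (v : E n) :
    ∫ z, inner ℝ (lf p • p) z * (sS k p φ z * (inner ℝ v z) ^ 2) ∂(gam n) ≤
      1 / 2 * (pr n 2 k * ‖v‖ ^ 2) := by
  have hp1 : ‖p‖ < 1 := hp.trans_lt h.r1
  obtain ⟨b1, b2, -⟩ := bst hp1
  obtain ⟨w1, w2, -⟩ := norm_w hp1
  have hL := h.lfL hp
  have hn : (0 : ℝ) < n := by exact_mod_cast h.n0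
  have hS := pl_sS k h.k0 hp1 hφ
  have i1 : Integrable (fun z : E n => (‖z‖ ^ 2) ^ k * (inner ℝ v z) ^ 2) (gam n) :=
    pl_int (pl_mul (pl_pow pl_nsq k) (pl_pow (pl_inner v) 2))
  have i2 : Integrable (fun z : E n => (‖z‖ ^ 2) ^ (k - 1) * ((inner ℝ (lf p • p) z) ^ 2 *
      (inner ℝ v z) ^ 2)) (gam n) :=
    pl_int (pl_mul (pl_pow pl_nsq (k - 1)) (pl_mul (pl_pow (pl_inner _) 2)
      (pl_pow (pl_inner v) 2)))
  have i3 : Integrable (fun z => sS k p φ z * inner ℝ v z) (gam n) :=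
    pl_int (pl_mul hS (pl_inner v))
  set B : E n → ℝ := fun z => (lf p ^ 2 * ‖p‖ * (κ - ‖p‖) + ε) * ((‖z‖ ^ 2) ^ k *
      (inner ℝ v z) ^ 2) + Ce k L ε * ((‖z‖ ^ 2) ^ (k - 1) * ((inner ℝ (lf p • p) z) ^ 2 *
      (inner ℝ v z) ^ 2)) + 2 * inner ℝ v (lf p • p) * (sS k p φ z * inner ℝ v z) with hBd
  have i12 : Integrable (fun z : E n => (lf p ^ 2 * ‖p‖ * (κ - ‖p‖) + ε) * ((‖z‖ ^ 2) ^ k *
      (inner ℝ v z) ^ 2) + Ce k L ε * ((‖z‖ ^ 2) ^ (k - 1) * ((inner ℝ (lf p • p) z) ^ 2 *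
      (inner ℝ v z) ^ 2))) (gam n) := (i1.const_mul _).add (i2.const_mul _)
  have hB : Integrable B (gam n) := i12.add (i3.const_mul _)
  have hst := stein_le (pl_mul hS (pl_pow (pl_inner v) 2)) hB (lf p • p) (by
    filter_upwards [ae_diff h.k0 hp1 hφ] with z hz d hd
    obtain ⟨D, hD, hDb⟩ := sS_der k h.k1 h.k0 h.k1' h.rho1 hp1 hL h.e0 hφ hz
    have h3 := hD.mul ((hd_inner (lf p • p) v z).pow 2)
    rw [hd.unique h3]
    simp only [zero_smul, add_zero, Pi.pow_apply]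
    have h4 : D * (inner ℝ v z) ^ 2 ≤ bnd k κ L ε p z * (inner ℝ v z) ^ 2 :=
      mul_le_mul_of_nonneg_right hDb (sq_nonneg _)
    rw [hBd]
    simp only
    unfold bnd at h4
    push_cast
    nlinarith)
  have e2 : ∫ z, B z ∂(gam n) = (lf p ^ 2 * ‖p‖ * (κ - ‖p‖) + ε) * (pr n 2 k * ‖v‖ ^ 2) +
      Ce k L ε * ∫ z : E n, (‖z‖ ^ 2) ^ (k - 1) * ((inner ℝ (lf p • p) z) ^ 2 *
      (inner ℝ v z) ^ 2) ∂(gam n) := by
    rw [hBd, integral_add i12 (i3.const_mul _), integral_add (i1.const_mul _) (i2.const_mul _),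
      integral_const_mul, integral_const_mul, integral_const_mul, int_v2,
      ← mX_inner k h.k0 hp1 hφ v, h0, inner_zero_left]
    ring
  have e3 := int_v2w2 (k - 1) v (lf p • p)
  have hpr := pr_pos h.n0 4 (k - 1)
  have hC := Ce_nonneg k (zero_le_one.trans h.L1) h.e0
  have hpp : pr n 2 k = ((n : ℝ) + (2 : ℕ)) * pr n 4 (k - 1) := pr_pred h.k1 n 2
  have h5 : Ce k L ε * (pr n 4 (k - 1) * (3 * ‖lf p • p‖ ^ 2 * ‖v‖ ^ 2)) ≤
      ε * (pr n 2 k * ‖v‖ ^ 2) := by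
    have h6 : ‖lf p • p‖ ^ 2 ≤ L := by linarith
    have h8 := h.nC
    have h9 : Ce k L ε * (3 * ‖lf p • p‖ ^ 2) ≤ ε * (n + 2) := by
      have h7 := mul_le_mul_of_nonneg_left h6 hC
      have := h.e0
      linarith
    have h10 : 0 ≤ pr n 4 (k - 1) * ‖v‖ ^ 2 := by positivity
    have h11 := mul_le_mul_of_nonneg_right h9 h10
    rw [hpp]
    push_cast
    linarith
  have h6 : ∫ z, B z ∂(gam n) ≤
      (lf p ^ 2 * ‖p‖ * (κ - ‖p‖) + 2 * ε) * (pr n 2 k * ‖v‖ ^ 2) := by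
    rw [e2]
    have h7 := mul_le_mul_of_nonneg_left e3 hC
    linarith
  have h7 : lf p ^ 2 * ‖p‖ * (κ - ‖p‖) + 2 * ε ≤ 1 / 2 := by
    have a0 := norm_nonneg p
    have a1 : 0 < 1 + ‖p‖ := by linarith
    have h8 := h.e2
    have h9 := h.k1'
    have h10 : lf p ^ 2 * ‖p‖ * (κ - ‖p‖) ≤ lf p ^ 2 * ‖p‖ * (1 - ‖p‖) := by
      apply mul_le_mul_of_nonneg_left _ (by positivity)
      linarith
    have h11 : (1 + ‖p‖) * (lf p ^ 2 * ‖p‖ * (1 - ‖p‖)) = ‖p‖ := by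
      have : (1 + ‖p‖) * (lf p ^ 2 * ‖p‖ * (1 - ‖p‖)) = lf p ^ 2 * (1 - ‖p‖ ^ 2) * ‖p‖ := by ring
      rw [this, b2, one_mul]
    have h12 : 4 * ε * (1 + ‖p‖) ≤ 1 - ‖p‖ := by
      have := mul_le_mul_of_nonneg_left (by linarith : 1 + ‖p‖ ≤ 1 + ρ')
        (by linarith [h.e0] : 0 ≤ 4 * ε)
      linarith
    have h13 : (1 + ‖p‖) * (lf p ^ 2 * ‖p‖ * (κ - ‖p‖) + 2 * ε) ≤ (1 + ‖p‖) * (1 / 2) := by
      have := mul_le_mul_of_nonneg_left h10 a1.le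
      linarith
    exact le_of_mul_le_mul_left h13 a1
  refine hst.trans (h6.trans ?_)
  exact mul_le_mul_of_nonneg_right h7 (mul_nonneg (pr_nonneg _ _ _) (sq_nonneg _))

end Pool.Agent.Q183.HD
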