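import Pool.Agent.Q183.HD.A

/-!
# The pointwise inequality
-/

set_option autoImplicit false

open MeasureTheory Metric Set Filter Topology

namespace Pool.Agent.Q183.HD

open Pool.Agent.Q183.CN

theorem Pk_neg (k : ℕ) (r x : ℝ) : Pk k r (-x) = -Pk k r x := by
  have h := Pk_hom k (-1) r x
  have e : (-1 : ℝ) ^ (2 * k + 1) = -1 := by
    rw [pow_succ, pow_mul]
    norm_num
  rw [e] at h
  simpa using h

theorem key_sq {s m x e : ℝ} (hs : 0 ≤ s) (he : 0 ≤ e) (hmx : m ≤ x)
    (h : e ^ 2 = s ^ 2 + m ^ 2 - x ^ 2) : (x - m) * s / 2 ≤ s * x - m * e := by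
  rcases le_total m 0 with hm | hm
  · rcases le_or_gt (x ^ 2) (m ^ 2) with hx | hx
    · have h1 : s ≤ e := by
        refine le_of_sq_le_sq ?_ he
        linarith
      have h2 : -m * s ≤ -m * e := mul_le_mul_of_nonneg_left h1 (by linarith)
      have h3 : 0 ≤ (x - m) * s := mul_nonneg (by linarith) hs
      linarith
    · have h1 : -m ≤ x := by
        by_contra hc
        push Not at hc
        have h5 : 0 ≤ (x - m) * (-m - x) := mul_nonneg (by linarith) (by linarith)
        nlinarith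
      have h2 : 0 ≤ -m * e := mul_nonneg (by linarith) he
      have h3 : 0 ≤ (x - -m) * s := mul_nonneg (by linarith) hs
      nlinarith
  · have h1 : e ≤ s := by
      refine le_of_sq_le_sq ?_ hs
      nlinarith
    have h2 : m * e ≤ m * s := mul_le_mul_of_nonneg_left h1 hm
    have h3 : 0 ≤ (x - m) * s := mul_nonneg (by linarith) hs
    linarith

theorem gamma_pos (j : ℕ) {b m x : ℝ} (hb : 0 < b) (hmx : m ≤ x) (hx : x ^ 2 ≤ b + m ^ 2) :
    √b * √(b + m ^ 2 - x ^ 2) ^ (2 * (j + 1) + 1) ≤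
      b ^ (j + 1 + 1) - (2 * (j + 1) + 1) * m *
        (Pk (j + 1) (b + m ^ 2) x - Pk (j + 1) (b + m ^ 2) m) -
      (2 * (j + 1) + 1) / 4 * (b / (b + m ^ 2) ^ (j + 1 + 1)) *
        (Pk (j + 1) (b + m ^ 2) x - Pk (j + 1) (b + m ^ 2) m) ^ 2 := by
  set Y := b + m ^ 2 with hY
  have hY0 : 0 < Y := by rw [hY]; positivity
  set c : ℝ := 2 * (j + 1) + 1 with hc
  have hc0 : 0 < c := by rw [hc]; positivity
  set s := √b with hs
  have hs0 : 0 < s := Real.sqrt_pos.2 hb
  have hs2 : s ^ 2 = b := Real.sq_sqrt hb.le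
  set P := fun x => Pk (j + 1) Y x with hP
  set f : ℝ → ℝ := fun x => b ^ (j + 1 + 1) - c * m * (P x - P m) -
    c / 4 * (b / Y ^ (j + 1 + 1)) * (P x - P m) ^ 2 - s * √(Y - x ^ 2) ^ (2 * (j + 1) + 1) with hf
  have hfm : f m = 0 := by
    rw [hf]
    simp only
    have e1 : Y - m ^ 2 = b := by rw [hY]; ring
    rw [e1, sub_self, ← hs]
    have e2 : s * s ^ (2 * (j + 1) + 1) = (s ^ 2) ^ (j + 1 + 1) := by ring
    rw [e2, hs2]
    ring
  have hmon : MonotoneOn f (Icc m (√Y)) := by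
    have hder : ∀ x ∈ Ioo m (√Y), HasDerivAt f (c * √(Y - x ^ 2) ^ (2 * j + 1) *
        ((s * x - m * √(Y - x ^ 2)) -
          b * (P x - P m) * √(Y - x ^ 2) / (2 * Y ^ (j + 1 + 1)))) x := by
      intro x hx
      have hxY : x ^ 2 < Y := by
        have h1 : m ^ 2 ≤ Y := by rw [hY]; linarith
        have h2 : |m| ≤ √Y := Real.abs_le_sqrt h1
        have h3 : |x| < √Y := by
          rw [abs_lt]
          refine ⟨?_, hx.2⟩
          have := (abs_le.1 h2).1
          linarith [hx.1]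
        have h4 : |x| ^ 2 < √Y ^ 2 := pow_lt_pow_left₀ h3 (abs_nonneg _) two_ne_zero
        rwa [sq_abs, Real.sq_sqrt hY0.le] at h4
      have hpos : 0 < Y - x ^ 2 := by linarith
      set e := √(Y - x ^ 2) with he
      have he0 : 0 < e := Real.sqrt_pos.2 hpos
      have he2 : e ^ 2 = Y - x ^ 2 := Real.sq_sqrt hpos.le
      have d1 : HasDerivAt (fun x : ℝ => Y - x ^ 2) (-(2 * x)) x := by
        refine ((hasDerivAt_pow 2 x).const_sub Y).congr_deriv ?_
        simp
      have d2 : HasDerivAt (fun x : ℝ => √(Y - x ^ 2)) (-(2 * x) / (2 * e)) x :=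
        d1.sqrt hpos.ne'
      have d3 := (d2.pow (2 * (j + 1) + 1)).const_mul s
      have d4 : HasDerivAt (fun x => P x - P m) ((Y - x ^ 2) ^ (j + 1)) x :=
        (Pk_hd (j + 1) Y x).sub_const _
      have d5 := d4.const_mul (c * m)
      have d6 := (d4.pow 2).const_mul (c / 4 * (b / Y ^ (j + 1 + 1)))
      have d7 := ((d5.const_sub (b ^ (j + 1 + 1))).sub d6).sub d3
      refine d7.congr_deriv ?_
      have e1 : (Y - x ^ 2) ^ (j + 1) = e ^ (2 * j + 1) * e := by
        rw [← he2]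
        ring
      have e2 : e ^ (2 * (j + 1) + 1 - 1) = e ^ (2 * j + 1) * e := by
        have : 2 * (j + 1) + 1 - 1 = 2 * j + 1 + 1 := by omega
        rw [this, pow_succ]
      rw [e1]
      simp only [← he]
      rw [e2]
      push_cast
      rw [← hc]
      have hY1 : Y ^ (j + 1 + 1) ≠ 0 := (pow_pos hY0 _).ne'
      field_simp
      ring
    refine monotoneOn_of_deriv_nonneg (convex_Icc _ _) ?_ ?_ ?_
    · refine Continuous.continuousOn ?_
      have h1 : Continuous P := Pk_cont (j + 1) continuous_const continuous_id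
      rw [hf]
      fun_prop
    · rw [interior_Icc]
      exact fun x hx => (hder x hx).differentiableAt.differentiableWithinAt
    · rw [interior_Icc]
      intro x hx
      rw [(hder x hx).deriv]
      have hmY : m ^ 2 ≤ Y := by rw [hY]; linarith
      have hxY : x ^ 2 ≤ Y := by
        have h2 : |m| ≤ √Y := Real.abs_le_sqrt hmY
        have h3 : |x| ≤ √Y := by
          rw [abs_le]
          refine ⟨?_, hx.2.le⟩
          have := (abs_le.1 h2).1
          linarith [hx.1]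
        have h4 : |x| ^ 2 ≤ √Y ^ 2 := pow_le_pow_left₀ (abs_nonneg _) h3 2
        rwa [sq_abs, Real.sq_sqrt hY0.le] at h4
      set e := √(Y - x ^ 2) with he
      have he0 : 0 ≤ e := Real.sqrt_nonneg _
      have he2 : e ^ 2 = Y - x ^ 2 := Real.sq_sqrt (by linarith)
      refine mul_nonneg (by positivity) ?_
      have h1 := key_sq (s := s) (m := m) (x := x) (e := e) hs0.le he0 hx.1.le
        (by rw [he2, hs2, hY])
      have h2 : P x - P m ≤ Y ^ (j + 1) * (x - m) := by
        have h3 := (le_abs_self _).trans (Pk_lip (j + 1) hxY hmY)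
        rwa [abs_of_nonneg (by linarith [hx.1])] at h3
      have h3 : s * e ≤ Y := by
        have h4 : s ^ 2 ≤ Y := by rw [hs2, hY]; linarith [sq_nonneg m]
        have h5 : e ^ 2 ≤ Y := by rw [he2]; linarith [sq_nonneg x]
        nlinarith [sq_nonneg (s - e)]
      have hxm : 0 ≤ x - m := by linarith [hx.1]
      have h4 : b * (P x - P m) * e / (2 * Y ^ (j + 1 + 1)) ≤ (x - m) * s / 2 := by
        rw [div_le_div_iff₀ (by positivity) (by norm_num)]
        calc b * (P x - P m) * e * 2 ≤ b * (Y ^ (j + 1) * (x - m)) * e * 2 := by gcongr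
          _ = (s * e) * (s * (Y ^ (j + 1) * (x - m)) * 2) := by rw [← hs2]; ring
          _ ≤ Y * (s * (Y ^ (j + 1) * (x - m)) * 2) := by gcongr
          _ = (x - m) * s * (2 * Y ^ (j + 1 + 1)) := by ring
      linarith
  have hmY : m ^ 2 ≤ Y := by rw [hY]; linarith
  have hxs : x ≤ √Y := (le_abs_self x).trans (Real.abs_le_sqrt hx)
  have hms : m ≤ √Y := (le_abs_self m).trans (Real.abs_le_sqrt hmY)
  have h := hmon ⟨le_rfl, hms⟩ ⟨hmx, hxs⟩ hmx
  rw [hfm, hf] at h
  simp only at h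
  linarith

theorem gamma_ineq (k : ℕ) (hk : 1 ≤ k) {b m x : ℝ} (hb : 0 < b) (hx : x ^ 2 ≤ b + m ^ 2) :
    (b + m ^ 2 - x ^ 2) ^ k * √((b + m ^ 2 - x ^ 2) * b) ≤
      b ^ (k + 1) - (2 * k + 1) * (m * (Pk k (b + m ^ 2) x - Pk k (b + m ^ 2) m)) -
      (2 * k + 1) / 4 * (b * (Pk k (b + m ^ 2) x - Pk k (b + m ^ 2) m) ^ 2 /
        (b + m ^ 2) ^ (k + 1)) := by
  obtain ⟨j, rfl⟩ : ∃ j, k = j + 1 := ⟨k - 1, by omega⟩
  have hpos : 0 ≤ b + m ^ 2 - x ^ 2 := by linarith
  have e1 : (b + m ^ 2 - x ^ 2) ^ (j + 1) * √((b + m ^ 2 - x ^ 2) * b) =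
      √b * √(b + m ^ 2 - x ^ 2) ^ (2 * (j + 1) + 1) := by
    rw [Real.sqrt_mul hpos]
    have h2 : √(b + m ^ 2 - x ^ 2) ^ 2 = b + m ^ 2 - x ^ 2 := Real.sq_sqrt hpos
    have h3 : (b + m ^ 2 - x ^ 2) ^ (j + 1) = √(b + m ^ 2 - x ^ 2) ^ (2 * (j + 1)) := by
      rw [pow_mul, h2]
    rw [h3]
    ring
  rw [e1]
  rcases le_total m x with h | h
  · refine (gamma_pos j hb h hx).trans (le_of_eq ?_)
    push_cast
    ring
  · have h1 := gamma_pos j (b := b) (m := -m) (x := -x) hb (by linarith) (by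
      rw [neg_sq, neg_sq]
      exact hx)
    rw [neg_sq, neg_sq, Pk_neg, Pk_neg] at h1
    refine h1.trans (le_of_eq ?_)
    push_cast
    ring

end Pool.Agent.Q183.HD
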