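import Pool.Agent.Q183.HD.F
import Pool.Agent.Q183.HD.G

/-!
# The matrix `E[S m z zᵀ]`
-/

set_option autoImplicit false

open MeasureTheory Metric Set Filter Topology

namespace Pool.Agent.Q183.HD

open Pool.Agent.Q183.CN
open Pool.Agent.W716.FV (E gam gd)
open Pool.Agent.Q188.FC (PB PL lf NN NNL NI hs qp)
open Pool.Agent.H241R3.FV (act mat det_mat)
open Pool.Agent.Q280.FC (pb_mono pb_const pb_norm pb_mul pb_add pb_sub pb_pow pb_inner pb_apply
  pb_sum pb_intc pb_intm cs int_inner_sq qp_cont qp_pb inner_int)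

variable {n : ℕ}

theorem sS_hom (k : ℕ) {κ ρ : ℝ} {p : E n} (hp : ‖p‖ < 1) {φ : E n → ℝ} (hφ : Ck κ ρ φ)
    (t : ℝ) (z : E n) : sS k p φ (t • z) = t ^ (2 * k + 1) * sS k p φ z := by
  obtain ⟨-, -, h3, -⟩ := bst hp
  rw [sS_eq k hp, sS_eq k hp]
  have e1 : NN p (t • z) = t • NN p z := by rw [← h3, ← h3, map_smul]
  have e2 : ‖t • z‖ ^ 2 + (inner ℝ (lf p • p) (t • z) : ℝ) ^ 2 =
      t ^ 2 * (‖z‖ ^ 2 + (inner ℝ (lf p • p) z) ^ 2) := by
    rw [norm_smul, inner_smul_right, mul_pow, Real.norm_eq_abs, sq_abs]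
    ring
  rw [e1, hφ.hom, e2, inner_smul_right, Pk_hom, Pk_hom]
  ring

/-- `E[S m z zᵀ]` -/
noncomputable def Mx (k : ℕ) (p : E n) (φ : E n → ℝ) : Matrix (Fin n) (Fin n) ℝ :=
  fun i j => ∫ z, sS k p φ z * inner ℝ (lf p • p) z * (z i * z j) ∂(gam n)

/-- the normalised matrix -/
noncomputable def Ax (k : ℕ) (p : E n) (φ : E n → ℝ) : Matrix (Fin n) (Fin n) ℝ :=
  fun i j => (pr n 2 k)⁻¹ * Mx k p φ i j

theorem Ax_symm (k : ℕ) (p : E n) (φ : E n → ℝ) : (Ax k p φ).IsSymm := by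
  refine Matrix.IsSymm.ext fun i j => ?_
  unfold Ax Mx
  congr 2
  ext z
  ring

theorem pl_apply (i : Fin n) : PL (fun z : E n => z i) := by
  have h := pl_inner (n := n) (EuclideanSpace.single i (1 : ℝ))
  have e : (fun z : E n => (inner ℝ (EuclideanSpace.single i (1 : ℝ)) z : ℝ)) = fun z => z i := by
    funext z
    rw [EuclideanSpace.inner_single_left]
    simp
  rwa [e] at h

theorem Mx_int (k : ℕ) {κ ρ : ℝ} (hκ : 0 ≤ κ) {p : E n} (hp : ‖p‖ < 1) {φ : E n → ℝ}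
    (hφ : Ck κ ρ φ) (i j : Fin n) :
    Integrable (fun z => sS k p φ z * inner ℝ (lf p • p) z * (z i * z j)) (gam n) :=
  pl_int (pl_mul (pl_mul (pl_sS k hκ hp hφ) (pl_inner _)) (pl_mul (pl_apply i) (pl_apply j)))

theorem Mx_pair (k : ℕ) {κ ρ : ℝ} (hκ : 0 ≤ κ) {p : E n} (hp : ‖p‖ < 1) {φ : E n → ℝ}
    (hφ : Ck κ ρ φ) (Q : Matrix (Fin n) (Fin n) ℝ) :
    ∑ i, ∑ j, Q i j * Mx k p φ i j =
      ∫ z, sS k p φ z * inner ℝ (lf p • p) z * ∑ i, ∑ j, Q i j * (z i * z j) ∂(gam n) := by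
  have e : ∀ z : E n, sS k p φ z * inner ℝ (lf p • p) z * ∑ i, ∑ j, Q i j * (z i * z j) =
      ∑ i, ∑ j, Q i j * (sS k p φ z * inner ℝ (lf p • p) z * (z i * z j)) := by
    intro z
    rw [Finset.mul_sum]
    refine Finset.sum_congr rfl fun i _ => ?_
    rw [Finset.mul_sum]
    refine Finset.sum_congr rfl fun j _ => ?_
    ring
  simp only [e]
  rw [integral_finsetSum]
  · refine Finset.sum_congr rfl fun i _ => ?_
    rw [integral_finsetSum]
    · refine Finset.sum_congr rfl fun j _ => ?_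
      rw [integral_const_mul]
      rfl
    · exact fun j _ => (Mx_int k hκ hp hφ i j).const_mul _
  · exact fun i _ => integrable_finsetSum _ fun j _ => (Mx_int k hκ hp hφ i j).const_mul _

theorem Sm_zero (k : ℕ) {κ ρ : ℝ} (hκ : 0 ≤ κ) {p : E n} (hp : ‖p‖ < 1) {φ : E n → ℝ}
    (hφ : Ck κ ρ φ) (h0 : mX k p φ = 0) :
    ∫ z, sS k p φ z * inner ℝ (lf p • p) z ∂(gam n) = 0 := by
  rw [← mX_inner k hκ hp hφ, h0, inner_zero_left]

theorem Ax_trace (k : ℕ) {κ ρ : ℝ} (hκ : 0 ≤ κ) {p : E n} (hp : ‖p‖ < 1) {φ : E n → ℝ}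
    (hφ : Ck κ ρ φ) (h0 : mX k p φ = 0) : (Ax k p φ).trace = 0 := by
  have h1 := Mx_pair k hκ hp hφ (1 : Matrix (Fin n) (Fin n) ℝ)
  have e1 : ∑ i, ∑ j, (1 : Matrix (Fin n) (Fin n) ℝ) i j * Mx k p φ i j =
      ∑ i, Mx k p φ i i := by
    refine Finset.sum_congr rfl fun i _ => ?_
    simp [Matrix.one_apply]
  have e2 : ∀ z : E n, sS k p φ z * inner ℝ (lf p • p) z *
      ∑ i, ∑ j, (1 : Matrix (Fin n) (Fin n) ℝ) i j * (z i * z j) =
      ‖z‖ ^ 2 * (sS k p φ z * inner ℝ (lf p • p) z) := by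
    intro z
    rw [Pool.Agent.Q149.FC.SA.norm_sq_sum]
    have : ∑ i, ∑ j, (1 : Matrix (Fin n) (Fin n) ℝ) i j * (z i * z j) = ∑ i, z i ^ 2 := by
      refine Finset.sum_congr rfl fun i _ => ?_
      simp [Matrix.one_apply, sq]
    rw [this]
    ring
  rw [e1] at h1
  simp only [e2] at h1
  have h2 := (hom_mom (2 * k + 2) (g := fun z => sS k p φ z * inner ℝ (lf p • p) z)
    (pl_mul (pl_sS k hκ hp hφ) (pl_inner _)) (fun t z => by
      rw [sS_hom k hp hφ, inner_smul_right]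
      ring)).2.2
  rw [h2, Sm_zero k hκ hp hφ h0, mul_zero] at h1
  have e3 : (Ax k p φ).trace = (pr n 2 k)⁻¹ * ∑ i, Mx k p φ i i := by
    unfold Matrix.trace
    rw [Finset.mul_sum]
    rfl
  rw [e3, h1, mul_zero]

theorem Ax_pair {k : ℕ} (hn : 0 < n) {κ ρ : ℝ} (hκ : 0 ≤ κ) {p : E n} (hp : ‖p‖ < 1)
    {φ : E n → ℝ} (hφ : Ck κ ρ φ) (Q : Matrix (Fin n) (Fin n) ℝ) :
    pr n 2 k * ∑ i, ∑ j, Q i j * Ax k p φ i j =
      ∫ z, sS k p φ z * inner ℝ (lf p • p) z * ∑ i, ∑ j, Q i j * (z i * z j) ∂(gam n) := by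
  have h := pr_pos hn 2 k
  rw [← Mx_pair k hκ hp hφ, Finset.mul_sum]
  refine Finset.sum_congr rfl fun i _ => ?_
  rw [Finset.mul_sum]
  refine Finset.sum_congr rfl fun j _ => ?_
  unfold Ax
  field_simp

/-- the quadratic form -/
theorem Ax_quad {k : ℕ} {κ ρ κ' ρ' L ε : ℝ} (h : HP n k κ ρ κ' ρ' L ε) {p : E n} (hp : ‖p‖ ≤ ρ')
    {φ : E n → ℝ} (hφ : Ck κ ρ φ) (h0 : mX k p φ = 0) (v : E n) :
    ∑ i, ∑ j, v i * Ax k p φ i j * v j ≤ 1 / 2 * ‖v‖ ^ 2 := by
  have hp1 : ‖p‖ < 1 := hp.trans_lt h.r1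
  have h1 := Ax_pair (k := k) h.n0 h.k0 hp1 hφ (fun i j => v i * v j)
  have h2 := U2 h hp hφ h0 v
  have e2 : ∀ z : E n, sS k p φ z * inner ℝ (lf p • p) z * ∑ i, ∑ j, v i * v j * (z i * z j) =
      inner ℝ (lf p • p) z * (sS k p φ z * (inner ℝ v z) ^ 2) := by
    intro z
    have e3 : ∑ i, ∑ j, v i * v j * (z i * z j) = (inner ℝ v z : ℝ) ^ 2 := by
      rw [sq, Pool.Agent.Q149.FC.GM.inner_sum, Finset.sum_mul_sum]
      refine Finset.sum_congr rfl fun i _ => Finset.sum_congr rfl fun j _ => ?_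
      ring
    rw [e3]
    ring
  simp only [e2] at h1
  rw [← h1] at h2
  have e4 : ∑ i, ∑ j, v i * v j * Ax k p φ i j = ∑ i, ∑ j, v i * Ax k p φ i j * v j := by
    refine Finset.sum_congr rfl fun i _ => Finset.sum_congr rfl fun j _ => ?_
    ring
  rw [e4] at h2
  have h3 := pr_pos h.n0 2 k
  have h4 : pr n 2 k * ∑ i, ∑ j, v i * Ax k p φ i j * v j ≤ pr n 2 k * (1 / 2 * ‖v‖ ^ 2) := by
    linarith
  exact le_of_mul_le_mul_left h4 h3

/-! ### determinants -/

theorem exp_le' {t : ℝ} (ht : t ≤ 1 / 2) : Real.exp (-(t + t ^ 2)) ≤ 1 - t := by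
  have key : 1 ≤ (1 - t) * Real.exp (t + t ^ 2) := by
    rcases le_total t 0 with h | h
    · have h3 := Real.add_one_le_exp (t + t ^ 2)
      have h4 : (1 - t) * (t + t ^ 2 + 1) ≤ (1 - t) * Real.exp (t + t ^ 2) :=
        mul_le_mul_of_nonneg_left h3 (by linarith)
      have h5 : (1 - t) * (t + t ^ 2 + 1) = 1 - t ^ 3 := by ring
      have h6 : t ^ 3 ≤ 0 := by
        have : t ^ 3 = t * t ^ 2 := by ring
        rw [this]
        exact mul_nonpos_of_nonpos_of_nonneg h (sq_nonneg t)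
      linarith
    · have h3 := Real.quadratic_le_exp_of_nonneg (x := t + t ^ 2) (by positivity)
      have h4 : (1 - t) * (1 + (t + t ^ 2) + (t + t ^ 2) ^ 2 / 2) ≤ (1 - t) * Real.exp (t + t ^ 2) :=
        mul_le_mul_of_nonneg_left h3 (by linarith)
      have h5 : (1 - t) * (1 + (t + t ^ 2) + (t + t ^ 2) ^ 2 / 2) =
          1 + t ^ 2 * (1 - t - t ^ 2 - t ^ 3) / 2 := by ring
      have h6 : 0 ≤ 1 - t - t ^ 2 - t ^ 3 := by nlinarith
      have h7 : 0 ≤ t ^ 2 * (1 - t - t ^ 2 - t ^ 3) / 2 := by positivity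
      linarith
  rw [Real.exp_neg, inv_le_iff_one_le_mul₀ (Real.exp_pos _)]
  exact key

theorem det_low' (X : Matrix (Fin n) (Fin n) ℝ) (hX : X.IsSymm)
    (hq : ∀ v : E n, ∑ i, ∑ j, v i * X i j * v j ≤ 1 / 2 * ‖v‖ ^ 2) :
    Real.exp (-(X.trace + hs X)) ≤ (1 - X).det := by
  have hA : X.IsHermitian := by
    rw [Matrix.IsHermitian, Matrix.conjTranspose_eq_transpose_of_trivial]
    exact hX
  set l := hA.eigenvalues with hl
  have hdet : (1 - X).det = ∏ i, (1 - l i) := by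
    have h1 := Matrix.eval_charpoly X (1 : ℝ)
    rw [hA.charpoly_eq, Polynomial.eval_prod] at h1
    have h2 : (Matrix.scalar (Fin n)) (1 : ℝ) = 1 := map_one _
    rw [h2] at h1
    rw [← h1]
    refine Finset.prod_congr rfl fun i _ => ?_
    simp [hl]
  have htr : X.trace = ∑ i, l i := by
    have := hA.trace_eq_sum_eigenvalues
    simpa [hl] using this
  have hsum : hs X = ∑ i, l i ^ 2 := by
    have h1 : hs X = (X * X).trace := by
      unfold Pool.Agent.Q188.FC.hs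
      rw [Matrix.trace]
      refine Finset.sum_congr rfl fun i _ => ?_
      rw [Matrix.diag_apply, Matrix.mul_apply]
      refine Finset.sum_congr rfl fun j _ => ?_
      rw [sq, ← Matrix.IsSymm.apply hX i j]
    rw [h1]
    have h2 := hA.spectral_theorem
    have h3 : X * X = Unitary.conjStarAlgAut ℝ _ hA.eigenvectorUnitary
        (Matrix.diagonal (RCLike.ofReal ∘ hA.eigenvalues) * Matrix.diagonal (RCLike.ofReal ∘ hA.eigenvalues)) := by
      rw [map_mul, ← h2]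
    rw [h3, Unitary.conjStarAlgAut_apply, Matrix.trace_mul_comm, ← mul_assoc]
    have h4 : (star hA.eigenvectorUnitary : Matrix (Fin n) (Fin n) ℝ) * (hA.eigenvectorUnitary : Matrix (Fin n) (Fin n) ℝ) = 1 := by
      exact Unitary.coe_star_mul_self hA.eigenvectorUnitary
    rw [h4, one_mul, Matrix.diagonal_mul_diagonal, Matrix.trace_diagonal]
    refine Finset.sum_congr rfl fun i _ => ?_
    simp [hl, sq]
  have hli : ∀ i, l i ≤ 1 / 2 := by
    intro i
    have h1 := hA.eigenvalues_eq i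
    have h2 := hq (hA.eigenvectorBasis i)
    have h3 : ‖hA.eigenvectorBasis i‖ = 1 := hA.eigenvectorBasis.orthonormal.1 i
    rw [h3] at h2
    have h4 : l i = ∑ a, ∑ b, (hA.eigenvectorBasis i) a * X a b * (hA.eigenvectorBasis i) b := by
      rw [hl, h1]
      simp only [dotProduct, Matrix.mulVec, Finset.mul_sum]
      rw [RCLike.re_to_real]
      refine Finset.sum_congr rfl fun a _ => Finset.sum_congr rfl fun b _ => ?_
      simp
      ring
    rw [h4]
    linarith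
  rw [hdet, htr, hsum]
  have e : -(∑ i, l i + ∑ i, l i ^ 2) = ∑ i, -(l i + l i ^ 2) := by
    rw [Finset.sum_neg_distrib, Finset.sum_add_distrib]
  rw [e, Real.exp_sum]
  exact Finset.prod_le_prod (fun i _ => (Real.exp_pos _).le) fun i _ => exp_le' (hli i)

/-- the determinant of the derivative in `p` -/
theorem det_LX (k : ℕ) (hn : 0 < n) {κ ρ r : ℝ} (hκ : 0 ≤ κ) (hr0 : 0 ≤ r) (hr : r < 1)
    (hρ : ρ ≤ 1) {p : E n} (hp : ‖p‖ ≤ r) {φ : E n → ℝ} (hφ : Ck κ ρ φ) :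
    |(LX k p φ).det| = (lf p * kn n * pr n 2 k) ^ n * (lf p ^ 2 * |(1 - Ax k p φ).det|) := by
  have hp1 : ‖p‖ < 1 := hp.trans_lt hr
  obtain ⟨hg1, -, hNL, hdet, -⟩ := bst hp1
  have hbd := ck_bd hρ hφ
  set M := Ax k p φ with hM
  set N := mat (NNL p) with hN
  have hNd : N.det = lf p := by rw [hN, ← det_mat, hdet]
  have hNap : ∀ i j, (NN p (EuclideanSpace.single j 1)) i = N i j := by
    intro i j
    rw [hN, ← hNL]
    rfl
  have hS := pl_sS k hκ hp1 hφ
  have hcp := pr_pos hn 2 k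
  have hq : ∀ u v : E n, ∫ z, ((‖z‖ ^ 2) ^ k - sS k p φ z * (lf p * inner ℝ p z)) *
      (inner ℝ u z * inner ℝ v z) ∂(gam n) =
      pr n 2 k * (inner ℝ u v - ∑ i, ∑ j, u i * M i j * v j) := by
    intro u v
    have h1 := Ax_pair (k := k) hn hκ hp1 hφ (fun i j => u i * v j)
    have e1 : ∑ i, ∑ j, u i * v j * Ax k p φ i j = ∑ i, ∑ j, u i * M i j * v j := by
      refine Finset.sum_congr rfl fun i _ => Finset.sum_congr rfl fun j _ => ?_
      rw [hM]
      ring
    rw [e1] at h1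
    have e2 : ∀ z : E n, ∑ i, ∑ j, u i * v j * (z i * z j) = inner ℝ u z * inner ℝ v z := by
      intro z
      rw [Pool.Agent.Q149.FC.GM.inner_sum, Pool.Agent.Q149.FC.GM.inner_sum, Finset.sum_mul_sum]
      refine Finset.sum_congr rfl fun i _ => Finset.sum_congr rfl fun j _ => ?_
      ring
    simp only [e2] at h1
    have i1 : Integrable (fun z : E n => (‖z‖ ^ 2) ^ k * ((inner ℝ u z : ℝ) * inner ℝ v z))
        (gam n) := pl_int (pl_mul (pl_pow pl_nsq k) (pl_mul (pl_inner u) (pl_inner v)))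
    have i2 : Integrable (fun z : E n => sS k p φ z * inner ℝ (lf p • p) z *
        (inner ℝ u z * inner ℝ v z)) (gam n) :=
      pl_int (pl_mul (pl_mul hS (pl_inner _)) (pl_mul (pl_inner u) (pl_inner v)))
    rw [mul_sub, h1]
    have h2 := (Pool.Agent.W933.FVGM.main n).2.2.2.1 u v
    have h3 : ∫ z : E n, (‖z‖ ^ 2) ^ k * ((inner ℝ u z : ℝ) * inner ℝ v z) ∂(gam n) =
        pr n 2 k * inner ℝ u v := by
      have h4 := bmom (n := n) 2 (g := fun z => (inner ℝ u z : ℝ) * inner ℝ v z)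
        (pl_mul (pl_inner u) (pl_inner v))
        (fun t z => by rw [inner_smul_right, inner_smul_right]; ring) k
      rw [h4, ← h2]
      congr 1
      refine integral_congr_ae (ae_of_all _ fun z => ?_)
      simp only
      rw [real_inner_comm u z, real_inner_comm v z]
    rw [← h3, ← integral_sub i1 i2]
    refine integral_congr_ae (ae_of_all _ fun z => ?_)
    simp only
    rw [real_inner_smul_left]
    ring
  have hin : ∀ (u v : E n), (inner ℝ u v : ℝ) = ∑ k, u k * v k := by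
    intro u v
    simp [PiLp.inner_apply, mul_comm]
  have hm : mat (LX k p φ) = (-(lf p * kn n * pr n 2 k)) • (N.transpose * (1 - M) * N) := by
    ext i j
    have e1 : mat (LX k p φ) i j = (inner ℝ (LX k p φ (EuclideanSpace.single j 1))
        (EuclideanSpace.single i 1) : ℝ) := by
      rw [hin]
      simp [mat, PiLp.single_apply]
    rw [e1, LX_hat k hr0 hr hp hbd, hq, hin]
    simp only [hNap]
    have e2 : (N.transpose * (1 - M) * N) i j =
        ∑ k, N k j * N k i - ∑ k, ∑ l, N k j * M k l * N l i := by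
      rw [Matrix.mul_sub, Matrix.mul_one, Matrix.sub_mul, Matrix.sub_apply, Matrix.mul_apply,
        Matrix.mul_apply]
      congr 1
      · refine Finset.sum_congr rfl fun k _ => ?_
        rw [Matrix.transpose_apply]
        ring
      · refine Finset.sum_congr rfl fun l _ => ?_
        rw [Matrix.mul_apply, Finset.sum_mul]
        refine Finset.sum_congr rfl fun l' _ => ?_
        rw [Matrix.transpose_apply]
        have := (Ax_symm k p φ).apply l l'
        rw [hM, this]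
        ring
    rw [Matrix.smul_apply, e2, smul_eq_mul]
    ring
  have hpos : 0 < lf p * kn n * pr n 2 k := by
    have := kn_pos n
    positivity
  rw [det_mat, hm, Matrix.det_smul, Matrix.det_mul, Matrix.det_mul, Matrix.det_transpose, hNd,
    abs_mul, abs_mul, abs_mul, abs_pow, abs_neg, Fintype.card_fin,
    abs_of_pos hpos, abs_of_nonneg (zero_le_one.trans hg1)]
  ring

end Pool.Agent.Q183.HD
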