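import Pool.Agent.Q183.HD.H

/-!
# The Jacobian of the centre map
-/

set_option autoImplicit false

open MeasureTheory Metric Set Filter Topology

namespace Pool.Agent.Q183.HD

open Pool.Agent.Q183.CN
open Pool.Agent.W716.FV (E gam gd)
open Pool.Agent.Q188.FC (PB PL lf NN NNL NI hs qp)
open Pool.Agent.H241R3.FV (act mat det_mat)
open Pool.Agent.Q280.FC (pb_mono pb_const pb_norm pb_mul pb_add pb_sub pb_pow pb_inner pb_apply
  pb_sum pb_intc pb_intm cs int_inner_sq qp_cont qp_pb inner_int)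
open Pool.Agent.Q299.FC.DT (dot_eq quad_act apply_mat act_eq)

variable {n : ℕ}

/-- the parameters, continued -/
structure HJ (n k : ℕ) (κ ρ κ' ρ' L ε : ℝ) : Prop extends HP n k κ ρ κ' ρ' L ε where
  c1 : 80 * L ≤ 2 * k + 1
  f1 : pr n 6 k ≤ 2 * pr n 2 k
  f2 : (k + 1) * L ^ k * (78 * L ^ 2) * pr n 8 (k - 1) ≤ pr n 2 k

/-- the integrand of the defect -/
noncomputable def vv (k : ℕ) (p : E n) (φ : E n → ℝ) (z : E n) : ℝ :=
  ‖z‖ ^ 2 * sS k p φ z ^ 2 / (‖z‖ ^ 2 + (inner ℝ (lf p • p) z) ^ 2) ^ (k + 1)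

theorem vv_nonneg (k : ℕ) (p : E n) (φ : E n → ℝ) (z : E n) : 0 ≤ vv k p φ z := by
  unfold vv
  positivity

theorem sS_abs (k : ℕ) {κ ρ : ℝ} (hρ : ρ ≤ 1) {p : E n} (hp : ‖p‖ < 1) {φ : E n → ℝ}
    (hφ : Ck κ ρ φ) (z : E n) :
    sS k p φ z ^ 2 ≤ 4 * (‖z‖ ^ 2 + (inner ℝ (lf p • p) z) ^ 2) ^ (2 * k + 1) := by
  have hb : 0 ≤ ‖z‖ ^ 2 := sq_nonneg _
  have hh : φ (NN p z) ^ 2 ≤ ‖z‖ ^ 2 + (inner ℝ (lf p • p) z) ^ 2 := by
    rw [← Y_eq hp]
    refine sq_le_of ((hφ.le _).trans ?_)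
    nlinarith [norm_nonneg (NN p z)]
  have hm : (inner ℝ (lf p • p) z : ℝ) ^ 2 ≤ ‖z‖ ^ 2 + (inner ℝ (lf p • p) z) ^ 2 := by linarith
  rw [sS_eq k hp]
  have h1 := Pk_lip k hh hm
  set Y := ‖z‖ ^ 2 + (inner ℝ (lf p • p) z : ℝ) ^ 2 with hY
  set x := φ (NN p z) with hx
  set m : ℝ := inner ℝ (lf p • p) z with hm'
  have hY0 : 0 ≤ Y := by positivity
  have h2 : |x - m| ^ 2 ≤ 4 * Y := by
    rw [sq_abs]
    nlinarith [sq_nonneg (x + m)]
  rw [← sq_abs]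
  calc |Pk k Y x - Pk k Y m| ^ 2 ≤ (Y ^ k * |x - m|) ^ 2 :=
        pow_le_pow_left₀ (abs_nonneg _) h1 2
    _ = (Y ^ k) ^ 2 * |x - m| ^ 2 := by ring
    _ ≤ (Y ^ k) ^ 2 * (4 * Y) := by gcongr
    _ = _ := by ring

theorem vv_int (k : ℕ) {κ ρ : ℝ} (hκ : 0 ≤ κ) (hρ : ρ ≤ 1) {p : E n} (hp : ‖p‖ < 1) {φ : E n → ℝ}
    (hφ : Ck κ ρ φ) : Integrable (vv k p φ) (gam n) := by
  have hS := pl_sS k hκ hp hφ
  have hSc := pl_cont hS
  have hYpl := pl_Y (lf p • p)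
  refine pb_intm ?_ ?_
  · unfold vv
    exact ((by fun_prop : Measurable fun z : E n => ‖z‖ ^ 2).mul
      (hSc.measurable.pow_const 2)).div (by fun_prop)
  · refine pb_mono (pb_mul (pb_const (4 : ℝ)) (pb_mul (pl_pb pl_nsq)
      (pb_pow (pl_pb hYpl) k))) fun z => ?_
    have h1 := sS_abs k hρ hp hφ z
    rw [abs_of_nonneg (vv_nonneg k p φ z), abs_of_nonneg (by positivity)]
    unfold vv
    set Y := ‖z‖ ^ 2 + (inner ℝ (lf p • p) z : ℝ) ^ 2 with hY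
    have hY0 : 0 ≤ Y := by positivity
    rcases eq_or_lt_of_le hY0 with h0 | h0
    · rw [← h0, zero_pow (Nat.succ_ne_zero k), div_zero]
      positivity
    · rw [div_le_iff₀ (by positivity)]
      calc ‖z‖ ^ 2 * sS k p φ z ^ 2 ≤ ‖z‖ ^ 2 * (4 * Y ^ (2 * k + 1)) := by gcongr
        _ = _ := by ring

/-- pointwise bound -/
theorem amgm (k : ℕ) (hk : 1 ≤ k) {b m S q B L : ℝ} (hb : 0 ≤ b) (hB : 0 < B) (hL : 0 ≤ L)
    (hmb : b + m ^ 2 ≤ L * b) :
    S * m * q ≤ B / 2 * (b * S ^ 2 / (b + m ^ 2) ^ (k + 1)) +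
      1 / (2 * B) * (b ^ k * (m ^ 2 * q ^ 2) +
        (k + 1) * L ^ k * (b ^ (k - 1) * (m ^ 4 * q ^ 2))) := by
  rcases eq_or_lt_of_le hb with h0 | h0
  · have hm : m = 0 := by
      rw [← h0] at hmb
      have : m ^ 2 ≤ 0 := by linarith
      have := le_antisymm this (sq_nonneg m)
      exact pow_eq_zero_iff two_ne_zero |>.1 this
    rw [hm]
    have : 0 ≤ B / 2 * (b * S ^ 2 / (b + (0 : ℝ) ^ 2) ^ (k + 1)) := by positivity
    simp only [mul_zero, zero_mul]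
    have h2 : (0 : ℝ) ^ 2 = 0 := by norm_num
    have h4 : (0 : ℝ) ^ 4 = 0 := by norm_num
    rw [h2] at this ⊢
    rw [h4]
    simp only [zero_mul, mul_zero, add_zero] at this ⊢
    exact this
  · set Y := b + m ^ 2 with hY
    have hY0 : 0 < Y := by positivity
    set X := b / Y ^ (k + 1) with hX
    have hX0 : 0 < X := by positivity
    have h1 : S * m * q ≤ B / 2 * (X * S ^ 2) + 1 / (2 * B) * (m ^ 2 * q ^ 2 / X) := by
      have e : B / 2 * (X * S ^ 2) + 1 / (2 * B) * (m ^ 2 * q ^ 2 / X) - S * m * q =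
          (B * X * S - m * q) ^ 2 / (2 * B * X) := by
        field_simp
        ring
      have : 0 ≤ (B * X * S - m * q) ^ 2 / (2 * B * X) := by positivity
      linarith
    have h2 : X⁻¹ ≤ b ^ k + (k + 1) * L ^ k * (b ^ (k - 1) * m ^ 2) := by
      rw [hX, inv_div, div_le_iff₀ h0]
      have h3 := bern (k + 1) hb (sq_nonneg m)
      rw [← hY, Nat.add_sub_cancel] at h3
      have h4 : Y ^ k ≤ L ^ k * b ^ k := by
        rw [← mul_pow]
        exact pow_le_pow_left₀ hY0.le hmb k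
      have h5 : b ^ (k - 1) * b = b ^ k := by
        rw [← pow_succ]
        congr 1
        omega
      push_cast at h3
      calc Y ^ (k + 1) ≤ b ^ (k + 1) + (k + 1) * m ^ 2 * Y ^ k := h3
        _ ≤ b ^ (k + 1) + (k + 1) * m ^ 2 * (L ^ k * b ^ k) := by gcongr
        _ = b ^ (k + 1) + (k + 1) * m ^ 2 * (L ^ k * (b ^ (k - 1) * b)) := by rw [h5]
        _ = _ := by ring
    have h6 : m ^ 2 * q ^ 2 / X ≤ b ^ k * (m ^ 2 * q ^ 2) +
        (k + 1) * L ^ k * (b ^ (k - 1) * (m ^ 4 * q ^ 2)) := by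
      rw [div_eq_mul_inv]
      have h7 := mul_le_mul_of_nonneg_left h2 (by positivity : 0 ≤ m ^ 2 * q ^ 2)
      refine h7.trans (le_of_eq (by ring))
    have h8 : b * S ^ 2 / Y ^ (k + 1) = X * S ^ 2 := by
      rw [hX]
      ring
    rw [h8]
    have h9 : 1 / (2 * B) * (m ^ 2 * q ^ 2 / X) ≤ 1 / (2 * B) * (b ^ k * (m ^ 2 * q ^ 2) +
        (k + 1) * L ^ k * (b ^ (k - 1) * (m ^ 4 * q ^ 2))) :=
      mul_le_mul_of_nonneg_left h6 (by positivity)
    linarith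

theorem Yle {k : ℕ} {κ ρ κ' ρ' L ε : ℝ} (h : HP n k κ ρ κ' ρ' L ε) {p : E n}
    (hp : ‖p‖ ≤ ρ') (z : E n) :
    ‖z‖ ^ 2 + (inner ℝ (lf p • p) z : ℝ) ^ 2 ≤ L * ‖z‖ ^ 2 := by
  have hp1 : ‖p‖ < 1 := hp.trans_lt h.r1
  obtain ⟨w1, w2, -⟩ := norm_w hp1
  have hL := h.lfL hp
  have h1 := inner_sq_le (lf p • p) z
  have h2 : 0 ≤ ‖z‖ ^ 2 := sq_nonneg _
  nlinarith

/-- bound of the Hilbert-Schmidt norm by the defect -/
theorem hs_le {k : ℕ} {κ ρ κ' ρ' L ε : ℝ} (h : HJ n k κ ρ κ' ρ' L ε) {p : E n} (hp : ‖p‖ ≤ ρ')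
    {φ : E n → ℝ} (hφ : Ck κ ρ φ) (h0 : mX k p φ = 0) :
    pr n 2 k * hs (Ax k p φ) ≤ 20 * L * ∫ z, vv k p φ z ∂(gam n) := by
  have hp1 : ‖p‖ < 1 := hp.trans_lt h.r1
  obtain ⟨w1, w2, -⟩ := norm_w hp1
  have hL := h.lfL hp
  have hL1 := h.L1
  have hS := pl_sS k h.k0 hp1 hφ
  have hcp := pr_pos h.n0 2 k
  set Q := Ax k p φ with hQ
  have hQs : Q.IsSymm := Ax_symm k p φ
  have htr : Q.trace = 0 := Ax_trace k h.k0 hp1 hφ h0
  set w : E n := lf p • p with hw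
  have h1 := Ax_pair (k := k) h.n0 h.k0 hp1 hφ Q
  have e1 : ∑ i, ∑ j, Q i j * Ax k p φ i j = hs Q := by
    unfold Pool.Agent.Q188.FC.hs
    refine Finset.sum_congr rfl fun i _ => Finset.sum_congr rfl fun j _ => ?_
    rw [← hQ, sq]
  have e2 : ∀ z : E n, ∑ i, ∑ j, Q i j * (z i * z j) = qp Q z := by
    intro z
    rw [quad_eq, htr, add_zero]
  have hqhom : ∀ (t : ℝ) (z : E n), qp Q (t • z) = t ^ 2 * qp Q z := by
    intro t z
    rw [← e2, ← e2, Finset.mul_sum]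
    refine Finset.sum_congr rfl fun i _ => ?_
    rw [Finset.mul_sum]
    refine Finset.sum_congr rfl fun j _ => ?_
    simp only [PiLp.smul_apply, smul_eq_mul]
    ring
  rw [e1] at h1
  simp only [e2] at h1
  obtain ⟨q1, -⟩ := (Pool.Agent.Q188.FC.gm n).2 Q hQs
  set B : ℝ := 20 * L with hB
  have hB0 : 0 < B := by rw [hB]; linarith
  have i0 : Integrable (fun z => sS k p φ z * inner ℝ w z * qp Q z) (gam n) :=
    pl_int (pl_mul (pl_mul hS (pl_inner w)) q1)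
  have iv := vv_int k h.k0 h.rho1 hp1 hφ
  have i1 : Integrable (fun z : E n => (‖z‖ ^ 2) ^ k * ((inner ℝ w z) ^ 2 * qp Q z ^ 2)) (gam n) :=
    pl_int (pl_mul (pl_pow pl_nsq k) (pl_mul (pl_pow (pl_inner w) 2) (pl_pow q1 2)))
  have i2 : Integrable (fun z : E n => (‖z‖ ^ 2) ^ (k - 1) * ((inner ℝ w z) ^ 4 * qp Q z ^ 2))
      (gam n) :=
    pl_int (pl_mul (pl_pow pl_nsq (k - 1)) (pl_mul (pl_pow (pl_inner w) 4) (pl_pow q1 2)))
  have i12 : Integrable (fun z : E n => (‖z‖ ^ 2) ^ k * ((inner ℝ w z) ^ 2 * qp Q z ^ 2) +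
      (k + 1) * L ^ k * ((‖z‖ ^ 2) ^ (k - 1) * ((inner ℝ w z) ^ 4 * qp Q z ^ 2))) (gam n) :=
    i1.add (i2.const_mul _)
  have h2 : ∫ z, sS k p φ z * inner ℝ w z * qp Q z ∂(gam n) ≤
      B / 2 * ∫ z, vv k p φ z ∂(gam n) + 1 / (2 * B) *
      (∫ z : E n, (‖z‖ ^ 2) ^ k * ((inner ℝ w z) ^ 2 * qp Q z ^ 2) ∂(gam n) +
      (k + 1) * L ^ k *
        ∫ z : E n, (‖z‖ ^ 2) ^ (k - 1) * ((inner ℝ w z) ^ 4 * qp Q z ^ 2) ∂(gam n)) := by
    rw [← integral_const_mul, ← integral_const_mul ((k + 1) * L ^ k : ℝ),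
      ← integral_add i1 (i2.const_mul _), ← integral_const_mul (1 / (2 * B)),
      ← integral_add (iv.const_mul _) (i12.const_mul _)]
    refine integral_mono i0 ((iv.const_mul _).add (i12.const_mul _)) fun z => ?_
    have h3 := amgm k h.k1 (b := ‖z‖ ^ 2) (m := inner ℝ w z) (S := sS k p φ z) (q := qp Q z)
      (B := B) (L := L) (sq_nonneg _) hB0 (by linarith) (Yle h.toHP hp z)
    exact h3
  have h3 := bmom (n := n) 6 (g := fun z => (inner ℝ w z : ℝ) ^ 2 * qp Q z ^ 2)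
    (pl_mul (pl_pow (pl_inner w) 2) (pl_pow q1 2))
    (fun t z => by rw [inner_smul_right, hqhom]; ring) k
  have h4 := bmom (n := n) 8 (g := fun z => (inner ℝ w z : ℝ) ^ 4 * qp Q z ^ 2)
    (pl_mul (pl_pow (pl_inner w) 4) (pl_pow q1 2))
    (fun t z => by rw [inner_smul_right, hqhom]; ring) (k - 1)
  have h5 := mom_m2q2 hQs w
  have h6 := mom_m4q2 hQs w
  have hhs : 0 ≤ hs Q := by
    unfold Pool.Agent.Q188.FC.hs
    positivity
  have hw0 : 0 ≤ ‖w‖ ^ 2 := sq_nonneg _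
  have hwL : ‖w‖ ^ 2 ≤ L - 1 := by linarith
  rw [h3, h4] at h2
  have h7 : pr n 6 k * ∫ z, (inner ℝ w z : ℝ) ^ 2 * qp Q z ^ 2 ∂(gam n) ≤
      pr n 2 k * (20 * (L - 1) * hs Q) := by
    have a1 := h.f1
    have a2 : 0 ≤ 10 * ‖w‖ ^ 2 * hs Q := by positivity
    calc pr n 6 k * ∫ z, (inner ℝ w z : ℝ) ^ 2 * qp Q z ^ 2 ∂(gam n) ≤
        pr n 6 k * (10 * ‖w‖ ^ 2 * hs Q) := mul_le_mul_of_nonneg_left h5 (pr_nonneg _ _ _)
      _ ≤ (2 * pr n 2 k) * (10 * ‖w‖ ^ 2 * hs Q) := mul_le_mul_of_nonneg_right a1 a2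
      _ = pr n 2 k * (20 * ‖w‖ ^ 2 * hs Q) := by ring
      _ ≤ _ := by gcongr
  have h8 : (k + 1) * L ^ k *
      (pr n 8 (k - 1) * ∫ z, (inner ℝ w z : ℝ) ^ 4 * qp Q z ^ 2 ∂(gam n)) ≤
      pr n 2 k * hs Q := by
    have a1 := h.f2
    have a3 := pr_nonneg n 8 (k - 1)
    have a4 : (‖w‖ ^ 2) ^ 2 ≤ L ^ 2 := pow_le_pow_left₀ hw0 (by linarith) 2
    calc (k + 1) * L ^ k * (pr n 8 (k - 1) * ∫ z, (inner ℝ w z : ℝ) ^ 4 * qp Q z ^ 2 ∂(gam n)) ≤
        (k + 1) * L ^ k * (pr n 8 (k - 1) * (78 * L ^ 2 * hs Q)) := by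
          gcongr
          refine h6.trans ?_
          gcongr
      _ = ((k + 1) * L ^ k * (78 * L ^ 2) * pr n 8 (k - 1)) * hs Q := by ring
      _ ≤ _ := mul_le_mul_of_nonneg_right a1 hhs
  have h9 : pr n 2 k * (20 * (L - 1) * hs Q) + pr n 2 k * hs Q ≤ pr n 2 k * (B * hs Q) := by
    rw [hB]
    have : 0 ≤ pr n 2 k * hs Q := by positivity
    nlinarith
  rw [h1]
  have h10 : 1 / (2 * B) * (pr n 6 k * ∫ z, (inner ℝ w z : ℝ) ^ 2 * qp Q z ^ 2 ∂(gam n) +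
      (k + 1) * L ^ k *
      (pr n 8 (k - 1) * ∫ z, (inner ℝ w z : ℝ) ^ 4 * qp Q z ^ 2 ∂(gam n))) ≤
      1 / 2 * (pr n 2 k * hs Q) := by
    have h11 : 1 / (2 * B) * (pr n 2 k * (B * hs Q)) = 1 / 2 * (pr n 2 k * hs Q) := by
      field_simp
    rw [← h11]
    apply mul_le_mul_of_nonneg_left _ (by positivity)
    linarith
  rw [← h1] at h2 ⊢
  linarith

/-- the numerator integral -/
theorem num_le {k : ℕ} {κ ρ κ' ρ' L ε : ℝ} (h : HP n k κ ρ κ' ρ' L ε) {p : E n} (hp : ‖p‖ ≤ ρ')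
    {φ : E n → ℝ} (hφ : Ck κ ρ φ) (h0 : mX k p φ = 0) :
    Integrable (fun z => ak k φ (NN p z) * √((‖NN p z‖ ^ 2 - φ (NN p z) ^ 2) * ‖z‖ ^ 2)) (gam n) ∧
    ∫ z, ak k φ (NN p z) * √((‖NN p z‖ ^ 2 - φ (NN p z) ^ 2) * ‖z‖ ^ 2) ∂(gam n) ≤
      n * pr n 2 k - (2 * k + 1) / 4 * ∫ z, vv k p φ z ∂(gam n) := by
  have hp1 : ‖p‖ < 1 := hp.trans_lt h.r1
  have hS := pl_sS k h.k0 hp1 hφ
  have iv := vv_int k h.k0 h.rho1 hp1 hφ
  have hc := pl_cont (pl_comp h.k0 hp1 hφ)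
  have hcN : Continuous fun z => NN p z := by
    have h3 := (bst hp1).2.2.1
    have e : (fun z => NN p z) = fun z => NNL p z := by
      funext z
      rw [h3]
    rw [e]
    exact (NNL p).continuous
  set w : E n := lf p • p with hw
  have i1 : Integrable (fun z : E n => (‖z‖ ^ 2) ^ (k + 1)) (gam n) := pl_int (pl_pow pl_nsq _)
  have i2 : Integrable (fun z : E n => inner ℝ w z * sS k p φ z) (gam n) :=
    pl_int (pl_mul (pl_inner w) hS)
  have hpt : ∀ z : E n, ak k φ (NN p z) * √((‖NN p z‖ ^ 2 - φ (NN p z) ^ 2) * ‖z‖ ^ 2) ≤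
      (‖z‖ ^ 2) ^ (k + 1) - (2 * k + 1) * (inner ℝ w z * sS k p φ z) -
        (2 * k + 1) / 4 * vv k p φ z := by
    intro z
    have hb : 0 ≤ ‖z‖ ^ 2 := sq_nonneg _
    have hh : φ (NN p z) ^ 2 ≤ ‖z‖ ^ 2 + (inner ℝ w z) ^ 2 := by
      rw [hw, ← Y_eq hp1]
      refine sq_le_of ((hφ.le _).trans ?_)
      have := h.rho1
      nlinarith [norm_nonneg (NN p z)]
    rcases eq_or_lt_of_le hb with hb0 | hb0
    · have hz : z = 0 := by
        have : ‖z‖ = 0 := by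
          exact pow_eq_zero_iff two_ne_zero |>.1 hb0.symm
        exact norm_eq_zero.1 this
      rw [hz]
      unfold vv
      simp
    · have hg := gamma_ineq k h.k1 (b := ‖z‖ ^ 2) (m := inner ℝ w z) (x := φ (NN p z)) hb0 hh
      unfold ak vv
      rw [Y_eq hp1, sS_eq k hp1, ← hw]
      exact hg
  have iR : Integrable (fun z => (‖z‖ ^ 2) ^ (k + 1) - (2 * k + 1) * (inner ℝ w z * sS k p φ z) -
        (2 * k + 1) / 4 * vv k p φ z) (gam n) :=
    (i1.sub (i2.const_mul _)).sub (iv.const_mul _)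
  have hnn : ∀ z : E n, 0 ≤ ak k φ (NN p z) * √((‖NN p z‖ ^ 2 - φ (NN p z) ^ 2) * ‖z‖ ^ 2) :=
    fun z => mul_nonneg (ak_bd k (ck_bd h.rho1 hφ) _).1 (Real.sqrt_nonneg _)
  have iL : Integrable (fun z => ak k φ (NN p z) *
      √((‖NN p z‖ ^ 2 - φ (NN p z) ^ 2) * ‖z‖ ^ 2)) (gam n) := by
    refine iR.mono' ?_ (ae_of_all _ fun z => ?_)
    · refine Continuous.aestronglyMeasurable ?_
      unfold ak
      have c1 : Continuous fun z => ‖NN p z‖ ^ 2 - φ (NN p z) ^ 2 :=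
        (hcN.norm.pow 2).sub (hc.pow 2)
      exact (c1.pow k).mul (Real.continuous_sqrt.comp (c1.mul (continuous_norm.pow 2)))
    · rw [Real.norm_of_nonneg (hnn z)]
      exact hpt z
  refine ⟨iL, (integral_mono iL iR hpt).trans (le_of_eq ?_)⟩
  have i12 : Integrable (fun z : E n => (‖z‖ ^ 2) ^ (k + 1) -
      (2 * k + 1) * (inner ℝ w z * sS k p φ z)) (gam n) := i1.sub (i2.const_mul _)
  have e1 : ∫ z, inner ℝ w z * sS k p φ z ∂(gam n) = 0 := by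
    rw [← Sm_zero k h.k0 hp1 hφ h0]
    refine integral_congr_ae (ae_of_all _ fun z => ?_)
    simp only
    ring
  rw [integral_sub i12 (iv.const_mul _), integral_sub i1 (i2.const_mul _), integral_const_mul,
    integral_const_mul, e1, int_one, pr_shift]
  push_cast
  ring

/-- the numerator -/
theorem det_TX {k : ℕ} {κ ρ κ' ρ' L ε : ℝ} (h : HP n k κ ρ κ' ρ' L ε) {p : E n} (hp : ‖p‖ ≤ ρ')
    {φ : E n → ℝ} (hφ : Ck κ ρ φ) (h0 : mX k p φ = 0)
    {G : Matrix (Fin n) (Fin n) ℝ} (hG : G.PosDef) {D : E n → E n →L[ℝ] ℝ} (hD : Measurable D)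
    (hDb : ∀ᵐ y ∂(volume : Measure (E n)), ∀ v : E n,
      (D y v) ^ 2 ≤ (‖y‖ ^ 2 - φ y ^ 2) * ∑ i, ∑ j, v i * G i j * v j)
    {T : E n →L[ℝ] E n} (hT : ∀ v, T v = ∫ y, ((ak k φ y • D y) v * W p y) • y) :
    |T.det| ≤ (lf p * kn n * pr n 2 k) ^ n * (lf p *
      (Real.exp (-((2 * k + 1) / 4 * (∫ z, vv k p φ z ∂(gam n)) / pr n 2 k)) * √G.det)) := by
  have hρ0 := h.r0'.le
  have hρ := h.r1
  have hp1 : ‖p‖ < 1 := hp.trans_lt hρ
  obtain ⟨hg1, -, hNL, hdet, -, -, hpN, -⟩ := bst hp1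
  have hl0 : 0 < lf p := by linarith
  have hbd := ck_bd h.rho1 hφ
  have hn : 0 < n := h.n0
  have hn' : (0 : ℝ) < n := by exact_mod_cast hn
  have hcp := pr_pos hn 2 k
  set D' : E n → E n →L[ℝ] ℝ := fun y => ak k φ y • D y with hD'
  set g : E n → E n → E n := fun v z => (D' (NN p z) v) • z with hg
  have hDi : ∀ v, Integrable (fun y => (D' y v * W p y) • y) :=
    fun v => DX_int k hρ0 hρ hp hbd hD hDb v
  have hgi : ∀ v, Integrable (g v) (gam n) := fun v => (T_hat hp1 (hDi v)).1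
  have hTv : ∀ v, T v = (lf p * kn n) • NNL p (∫ z, g v z ∂(gam n)) := by
    intro v
    rw [hT, (T_hat hp1 (hDi v)).2, hNL]
  set e : Fin n → E n := fun j => EuclideanSpace.single j (1 : ℝ) with he
  set M : Matrix (Fin n) (Fin n) ℝ := fun i j => (∫ z, g (e j) z ∂(gam n)) i with hM
  have hmT : mat T = (lf p * kn n) • (mat (NNL p) * M) := by
    ext i j
    have h5 : mat T i j = (T (e j)) i := rfl
    rw [h5, hTv (e j), PiLp.smul_apply, apply_mat, Matrix.smul_apply, Matrix.mul_apply]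
  have hdT : T.det = (lf p * kn n) ^ n * (lf p * M.det) := by
    rw [det_mat, hmT, Matrix.det_smul, Matrix.det_mul, ← det_mat, hdet, Fintype.card_fin]
  -- the constant
  obtain ⟨iN, hN⟩ := num_le h hp hφ h0
  set I := ∫ z, ak k φ (NN p z) * √((‖NN p z‖ ^ 2 - φ (NN p z) ^ 2) * ‖z‖ ^ 2) ∂(gam n) with hI
  have hI0 : 0 ≤ I := integral_nonneg fun z => mul_nonneg (ak_bd k hbd _).1 (Real.sqrt_nonneg _)
  set V := ∫ z, vv k p φ z ∂(gam n) with hV
  have hMd : |M.det| ≤ (I / n) ^ n * √G.det := by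
    refine Pool.Agent.H241R3.FV.TMat.taskMat n hn M G hG (I / n) (by positivity) fun A hA => ?_
    have h6 : ∀ i j, M i j = ∫ z, (g (e j) z) i ∂(gam n) := by
      intro i j
      have := ContinuousLinearMap.integral_comp_comm
        (EuclideanSpace.proj i : EuclideanSpace ℝ (Fin n) →L[ℝ] ℝ) (hgi (e j))
      simpa [hM] using this.symm
    have h7 : ∀ i j, Integrable (fun z => (g (e j) z) i * A j i) (gam n) := by
      intro i j
      exact ((EuclideanSpace.proj i : EuclideanSpace ℝ (Fin n) →L[ℝ] ℝ).integrable_comp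
        (hgi (e j))).mul_const _
    have h7s : Integrable (fun z => ∑ i, ∑ j, (g (e j) z) i * A j i) (gam n) :=
      integrable_finsetSum _ fun i _ => integrable_finsetSum _ fun j _ => h7 i j
    have h8 : ∀ z, ∑ i, ∑ j, (g (e j) z) i * A j i = D' (NN p z) (act A z) := by
      intro z
      rw [act_eq, map_sum, Finset.sum_comm]
      refine Finset.sum_congr rfl fun j _ => ?_
      rw [map_smul, smul_eq_mul, Finset.sum_mul]
      refine Finset.sum_congr rfl fun i _ => ?_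
      have h9 : (g (e j) z) i = D' (NN p z) (e j) * z i := by
        simp [hg]
      rw [h9]
      simp only [he]
      ring
    have h5 : (M * A).trace = ∫ z, D' (NN p z) (act A z) ∂(gam n) := by
      have e1 : (M * A).trace = ∑ i, ∑ j, ∫ z, (g (e j) z) i * A j i ∂(gam n) := by
        rw [Matrix.trace]
        refine Finset.sum_congr rfl fun i _ => ?_
        rw [Matrix.diag_apply, Matrix.mul_apply]
        refine Finset.sum_congr rfl fun j _ => ?_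
        rw [h6, integral_mul_const]
      rw [e1]
      have e2 : ∀ i, ∑ j, ∫ z, (g (e j) z) i * A j i ∂(gam n) =
          ∫ z, ∑ j, (g (e j) z) i * A j i ∂(gam n) :=
        fun i => (integral_finsetSum _ fun j _ => h7 i j).symm
      rw [Finset.sum_congr rfl fun i _ => e2 i,
        ← integral_finsetSum _ fun i _ => integrable_finsetSum _ fun j _ => h7 i j]
      exact integral_congr_ae (Filter.Eventually.of_forall h8)
    have h5i : Integrable (fun z => D' (NN p z) (act A z)) (gam n) :=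
      h7s.congr (Filter.Eventually.of_forall h8)
    have hval : (n : ℝ) * (I / n) = I := by
      field_simp
    rw [h5, hval, hI]
    refine integral_mono_ae h5i iN ?_
    filter_upwards [ae_nn hp1 hDb] with z hz
    have hv := hz (act A z)
    rw [quad_act G A hA] at hv
    show ak k φ (NN p z) * D (NN p z) (act A z) ≤ _
    apply mul_le_mul_of_nonneg_left _ (ak_bd k hbd _).1
    refine Real.le_sqrt_of_sq_le ?_
    exact hv
  -- the estimate of the constant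
  set a : ℝ := (2 * k + 1) / 4 * V / pr n 2 k with ha
  have hIn : I / n ≤ pr n 2 k * Real.exp (-(a / n)) := by
    have h1 := Real.add_one_le_exp (-(a / n))
    have h2 : I / n ≤ pr n 2 k * (-(a / n) + 1) := by
      rw [div_le_iff₀ hn']
      refine hN.trans (le_of_eq ?_)
      rw [ha]
      field_simp
      ring
    exact h2.trans (mul_le_mul_of_nonneg_left h1 hcp.le)
  have hpow : (I / n) ^ n ≤ pr n 2 k ^ n * Real.exp (-a) := by
    calc (I / n) ^ n ≤ (pr n 2 k * Real.exp (-(a / n))) ^ n :=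
          pow_le_pow_left₀ (by positivity) hIn n
      _ = _ := by
        rw [mul_pow, ← Real.exp_nat_mul]
        congr 2
        field_simp
  have hkn := kn_pos n
  rw [hdT, abs_mul, abs_mul, abs_of_pos hl0, abs_of_pos (pow_pos (mul_pos hl0 hkn) n)]
  have h11 : |M.det| ≤ pr n 2 k ^ n * Real.exp (-a) * √G.det :=
    hMd.trans (mul_le_mul_of_nonneg_right hpow (Real.sqrt_nonneg _))
  calc (lf p * kn n) ^ n * (lf p * |M.det|) ≤
      (lf p * kn n) ^ n * (lf p * (pr n 2 k ^ n * Real.exp (-a) * √G.det)) := by gcongr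
    _ = _ := by
      rw [mul_pow (lf p * kn n) (pr n 2 k) n]
      ring

/-- the Jacobian is at most one -/
theorem jac {k : ℕ} {κ ρ κ' ρ' L ε : ℝ} (h : HJ n k κ ρ κ' ρ' L ε) {p : E n} (hp : ‖p‖ ≤ ρ')
    {φ : E n → ℝ} (hφ : Ck κ ρ φ) (h0 : XX k p φ = 0)
    {G : Matrix (Fin n) (Fin n) ℝ} (hG : G.PosDef) {D : E n → E n →L[ℝ] ℝ} (hD : Measurable D)
    (hDb : ∀ᵐ y ∂(volume : Measure (E n)), ∀ v : E n,
      (D y v) ^ 2 ≤ (‖y‖ ^ 2 - φ y ^ 2) * ∑ i, ∑ j, v i * G i j * v j)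
    {T : E n →L[ℝ] E n} (hT : ∀ v, T v = ∫ y, ((ak k φ y • D y) v * W p y) • y) :
    (LX k p φ).det ≠ 0 ∧ |T.det| ≤ (lf p)⁻¹ * |(LX k p φ).det| * √G.det := by
  have hp1 : ‖p‖ < 1 := hp.trans_lt h.r1
  obtain ⟨hg1, -⟩ := bst hp1
  have hl0 : 0 < lf p := by linarith
  have hbd := ck_bd h.rho1 hφ
  have hm := (XX_zero k h.r0'.le h.r1 hp hbd).1 h0
  have hL := det_LX k h.n0 h.k0 h.r0'.le h.r1 h.rho1 hp hφ
  have hTd := det_TX h.toHP hp hφ hm hG hD hDb hT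
  have hhs := hs_le h hp hφ hm
  have hlow := det_low' (Ax k p φ) (Ax_symm k p φ) (Ax_quad h.toHP hp hφ hm)
  rw [Ax_trace k h.k0 hp1 hφ hm, zero_add] at hlow
  have hcp := pr_pos h.n0 2 k
  set V := ∫ z, vv k p φ z ∂(gam n) with hV
  have hV0 : 0 ≤ V := integral_nonneg fun z => vv_nonneg k p φ z
  have hx : Real.exp (-((2 * k + 1) / 4 * V / pr n 2 k)) ≤ (1 - Ax k p φ).det := by
    refine le_trans ?_ hlow
    apply Real.exp_le_exp.2
    apply neg_le_neg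
    rw [le_div_iff₀ hcp]
    have h1 := h.c1
    have h2 : 20 * L * V ≤ (2 * k + 1) / 4 * V := by
      apply mul_le_mul_of_nonneg_right _ hV0
      linarith
    linarith
  have hx0 : 0 < (1 - Ax k p φ).det := (Real.exp_pos _).trans_le hx
  rw [abs_of_pos hx0] at hL
  have hkp : 0 < (lf p * kn n * pr n 2 k) ^ n :=
    pow_pos (mul_pos (mul_pos hl0 (kn_pos n)) hcp) n
  constructor
  · intro h5
    rw [h5, abs_zero] at hL
    have : 0 < (lf p * kn n * pr n 2 k) ^ n * (lf p ^ 2 * (1 - Ax k p φ).det) := by positivity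
    linarith
  · calc |T.det| ≤ (lf p * kn n * pr n 2 k) ^ n * (lf p *
          (Real.exp (-((2 * k + 1) / 4 * V / pr n 2 k)) * √G.det)) := hTd
      _ ≤ (lf p * kn n * pr n 2 k) ^ n * (lf p * ((1 - Ax k p φ).det * √G.det)) := by gcongr
      _ = (lf p)⁻¹ * |(LX k p φ).det| * √G.det := by
          rw [hL]
          field_simp

end Pool.Agent.Q183.HD
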