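import Pool.Agent.Q183.HD.I

/-!
# The centre: existence near a centre, uniqueness, Lipschitz dependence
-/

set_option autoImplicit false

open MeasureTheory Metric Set Filter Topology
open scoped NNReal

namespace Pool.Agent.Q183.HD

open Pool.Agent.Q183.CN
open Pool.Agent.W716.FV (E gam gd)
open Pool.Agent.Q188.FC (PB PL lf NN NNL NI hs qp)

variable {n : ℕ}

/-- uniform constant -/
noncomputable def c0 (n k : ℕ) : ℝ := kn n * pr n 2 k / 2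

theorem c0_pos {n : ℕ} (hn : 0 < n) (k : ℕ) : 0 < c0 n k := by
  have h1 := kn_pos n
  have h2 := pr_pos hn 2 k
  unfold c0
  positivity

theorem LX_mono {k : ℕ} {κ ρ κ' ρ' L ε : ℝ} (h : HP n k κ ρ κ' ρ' L ε) {p : E n} (hp : ‖p‖ ≤ ρ')
    {φ : E n → ℝ} (hφ : Ck κ ρ φ) (h0 : XX k p φ = 0) (a : E n) :
    (inner ℝ (LX k p φ a) a : ℝ) ≤ -c0 n k * ‖a‖ ^ 2 := by
  have hp1 : ‖p‖ < 1 := hp.trans_lt h.r1
  obtain ⟨b1, -⟩ := bst hp1
  have hbd := ck_bd h.rho1 hφ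
  have hm := (XX_zero k h.r0'.le h.r1 hp hbd).1 h0
  rw [LX_hat k h.r0'.le h.r1 hp hbd]
  have hU := U2 h hp hφ hm (NN p a)
  have hS := pl_sS k h.k0 hp1 hφ
  have hkn := kn_pos n
  have hcp := pr_pos h.n0 2 k
  set v := NN p a with hv
  have i1 : Integrable (fun z : E n => (‖z‖ ^ 2) ^ k * (inner ℝ v z) ^ 2) (gam n) :=
    pl_int (pl_mul (pl_pow pl_nsq k) (pl_pow (pl_inner v) 2))
  have i2 : Integrable (fun z => inner ℝ (lf p • p) z * (sS k p φ z * (inner ℝ v z) ^ 2)) (gam n) :=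
    pl_int (pl_mul (pl_inner _) (pl_mul hS (pl_pow (pl_inner v) 2)))
  have e1 : ∫ z, ((‖z‖ ^ 2) ^ k - sS k p φ z * (lf p * inner ℝ p z)) *
      (inner ℝ v z * inner ℝ v z) ∂(gam n) = pr n 2 k * ‖v‖ ^ 2 -
      ∫ z, inner ℝ (lf p • p) z * (sS k p φ z * (inner ℝ v z) ^ 2) ∂(gam n) := by
    rw [← int_v2, ← integral_sub i1 i2]
    refine integral_congr_ae (ae_of_all _ fun z => ?_)
    simp only
    rw [real_inner_smul_left]
    ring
  rw [e1]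
  have h2 : ‖a‖ ^ 2 ≤ ‖v‖ ^ 2 := by
    rw [hv, nn_sq hp1]
    have := sq_nonneg (lf p * (inner ℝ p a : ℝ))
    linarith
  have h3 : 1 / 2 * (pr n 2 k * ‖a‖ ^ 2) ≤ pr n 2 k * ‖v‖ ^ 2 -
      ∫ z, inner ℝ (lf p • p) z * (sS k p φ z * (inner ℝ v z) ^ 2) ∂(gam n) := by
    have h4 := mul_le_mul_of_nonneg_left h2 hcp.le
    linarith
  set I := pr n 2 k * ‖v‖ ^ 2 -
      ∫ z, inner ℝ (lf p • p) z * (sS k p φ z * (inner ℝ v z) ^ 2) ∂(gam n) with hI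
  have h5 : 0 ≤ I := le_trans (by positivity) h3
  have h6 : kn n * (1 / 2 * (pr n 2 k * ‖a‖ ^ 2)) ≤ kn n * I := mul_le_mul_of_nonneg_left h3 hkn.le
  have h7 : 1 * (kn n * I) ≤ lf p * (kn n * I) :=
    mul_le_mul_of_nonneg_right b1 (mul_nonneg hkn.le h5)
  unfold c0
  nlinarith

theorem LX_low {k : ℕ} {κ ρ κ' ρ' L ε : ℝ} (h : HP n k κ ρ κ' ρ' L ε) {p : E n} (hp : ‖p‖ ≤ ρ')
    {φ : E n → ℝ} (hφ : Ck κ ρ φ) (h0 : XX k p φ = 0) (a : E n) :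
    c0 n k * ‖a‖ ≤ ‖LX k p φ a‖ := by
  have h1 := LX_mono h hp hφ h0 a
  have h2 := abs_real_inner_le_norm (LX k p φ a) a
  have h3 : c0 n k * ‖a‖ ^ 2 ≤ ‖LX k p φ a‖ * ‖a‖ := by
    have := neg_abs_le (inner ℝ (LX k p φ a) a : ℝ)
    linarith
  rcases eq_or_lt_of_le (norm_nonneg a) with h4 | h4
  · rw [← h4, mul_zero]
    exact norm_nonneg _
  · have h5 : c0 n k * ‖a‖ * ‖a‖ ≤ ‖LX k p φ a‖ * ‖a‖ := by
      rw [mul_assoc, ← sq]
      exact h3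
    exact le_of_mul_le_mul_right h5 h4

theorem LX_ne {k : ℕ} {κ ρ κ' ρ' L ε : ℝ} (h : HP n k κ ρ κ' ρ' L ε) {p : E n} (hp : ‖p‖ ≤ ρ')
    {φ : E n → ℝ} (hφ : Ck κ ρ φ) (h0 : XX k p φ = 0) : (LX k p φ).det ≠ 0 := by
  have hp1 : ‖p‖ < 1 := hp.trans_lt h.r1
  obtain ⟨hg1, -⟩ := bst hp1
  have hl0 : 0 < lf p := by linarith
  have hbd := ck_bd h.rho1 hφ
  have hm := (XX_zero k h.r0'.le h.r1 hp hbd).1 h0
  have hL := det_LX k h.n0 h.k0 h.r0'.le h.r1 h.rho1 hp hφ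
  have hlow := det_low' (Ax k p φ) (Ax_symm k p φ) (Ax_quad h hp hφ hm)
  have hx0 : 0 < (1 - Ax k p φ).det := (Real.exp_pos _).trans_le hlow
  have hcp := pr_pos h.n0 2 k
  have hkn := kn_pos n
  intro h5
  rw [h5, abs_zero, abs_of_pos hx0] at hL
  have : 0 < (lf p * kn n * pr n 2 k) ^ n * (lf p ^ 2 * (1 - Ax k p φ).det) := by positivity
  linarith

/-- existence of centres near centres -/
theorem loc_ex {k : ℕ} {κ ρ κ' ρ' L ε : ℝ} (h : HP n k κ ρ κ' ρ' L ε) :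
    ∃ C δ₁ : ℝ, 0 < C ∧ 0 < δ₁ ∧
    ∀ (p₀ : E n) (φ₀ φ : E n → ℝ) (δ : ℝ), ‖p₀‖ ≤ ρ' → Ck κ ρ φ₀ → Ck κ ρ φ → 0 ≤ δ → δ ≤ δ₁ →
      (∀ y, |φ y - φ₀ y| ≤ δ * ‖y‖) → XX k p₀ φ₀ = 0 →
      ∃ p, ‖p - p₀‖ ≤ C * δ ∧ ‖p‖ ≤ ρ' ∧ XX k p φ = 0 := by
  obtain ⟨K, hK, hst⟩ := strict (n := n) k h.r0'.le h.r1
  obtain ⟨K₁, hK₁, hl⟩ := XX_lip (n := n) k h.r0'.le h.r1
  have hc := c0_pos h.n0 k
  set c := c0 n k with hcd
  set C : ℝ := 1 + 2 * K₁ / c with hC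
  have hC0 : 0 < C := by positivity
  have hC1 : 1 ≤ C := by
    rw [hC]
    have : 0 ≤ 2 * K₁ / c := by positivity
    linarith
  have hgap : 0 < ρ' - κ' := by have := h.kr; linarith
  set δ₁ : ℝ := min ((ρ' - κ') / C) (c / (2 * (K + 1) * C)) with hδ₁
  have hδ₁0 : 0 < δ₁ := by
    rw [hδ₁]
    exact lt_min (by positivity) (by positivity)
  refine ⟨C, δ₁, hC0, hδ₁0, ?_⟩
  intro p₀ φ₀ φ δ hp₀ hφ₀ hφ hδ0 hδ hff h0
  have hU := U1 h hp₀ hφ₀ ((XX_zero k h.r0'.le h.r1 hp₀ (ck_bd h.rho1 hφ₀)).1 h0)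
  have a1 : C * δ ≤ ρ' - κ' := by
    have := hδ.trans (min_le_left _ _)
    rw [le_div_iff₀ hC0] at this
    linarith
  have a2 : K * (C * δ) ≤ c / 2 := by
    have := hδ.trans (min_le_right _ _)
    rw [le_div_iff₀ (by positivity)] at this
    have : 0 ≤ C * δ := by positivity
    nlinarith
  have hball : ∀ x ∈ closedBall p₀ (C * δ), ‖x - p₀‖ ≤ C * δ ∧ ‖x‖ ≤ ρ' := by
    intro x hx
    rw [mem_closedBall, dist_eq_norm] at hx
    refine ⟨hx, ?_⟩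
    have : x = p₀ + (x - p₀) := by abel
    rw [this]
    exact (norm_add_le _ _).trans (by linarith)
  set L' := LX k p₀ φ₀ with hL'
  have hL0 : L'.det ≠ 0 := LX_ne h hp₀ hφ₀ h0
  set Le : E n ≃L[ℝ] E n := L'.toContinuousLinearEquivOfDetNeZero hL0 with hLe
  have hLe1 : ∀ v, Le v = L' v := fun v => rfl
  have hsy : ∀ v, L' (Le.symm v) = v := fun v => by rw [← hLe1, Le.apply_symm_apply]
  have hff' : ∀ y, |φ y - φ₀ y| ≤ C * δ * ‖y‖ := by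
    intro y
    refine (hff y).trans (mul_le_mul_of_nonneg_right ?_ (norm_nonneg y))
    nlinarith
  have happ : ApproximatesLinearOn (fun p => XX k p φ) L' (closedBall p₀ (C * δ))
      ⟨K * (C * δ), by positivity⟩ := by
    intro x hx y hy
    obtain ⟨x1, x2⟩ := hball x hx
    obtain ⟨y1, y2⟩ := hball y hy
    exact hst p₀ x y φ₀ φ (C * δ) hp₀ x2 y2 (ck_bd h.rho1 hφ₀) (ck_bd h.rho1 hφ) (by positivity)
      hff' x1 y1
  let fs : L'.NonlinearRightInverse :=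
    { toFun := fun y => Le.symm y
      nnnorm := ⟨c⁻¹, by positivity⟩
      bound' := fun y => by
        have h3 := LX_low h hp₀ hφ₀ h0 (Le.symm y)
        rw [← hL', hsy, ← hcd] at h3
        show ‖Le.symm y‖ ≤ c⁻¹ * ‖y‖
        rw [← div_eq_inv_mul, le_div_iff₀ hc]
        linarith
      right_inv' := hsy }
  have hsurj := happ.surjOn_closedBall_of_nonlinearRightInverse fs (ε := C * δ) (b := p₀)
    (by positivity) le_rfl
  have hz : (0 : E n) ∈ closedBall (XX k p₀ φ) ((((fs.nnnorm : ℝ≥0) : ℝ)⁻¹ -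
      ((⟨K * (C * δ), by positivity⟩ : ℝ≥0) : ℝ)) * (C * δ)) := by
    have e1 : ((fs.nnnorm : ℝ≥0) : ℝ)⁻¹ = c := by
      show (c⁻¹)⁻¹ = c
      exact inv_inv c
    rw [e1, mem_closedBall, dist_eq_norm, zero_sub, norm_neg]
    show ‖XX k p₀ φ‖ ≤ (c - K * (C * δ)) * (C * δ)
    have h3 := hl p₀ φ φ₀ δ hp₀ (ck_bd h.rho1 hφ) (ck_bd h.rho1 hφ₀) hδ0 hff
    rw [h0, sub_zero] at h3
    have h4 : K₁ ≤ c / 2 * C := by
      rw [hC]
      have : c / 2 * (1 + 2 * K₁ / c) = c / 2 + K₁ := by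
        field_simp
      linarith
    calc ‖XX k p₀ φ‖ ≤ K₁ * δ := h3
      _ ≤ (c / 2 * C) * δ := mul_le_mul_of_nonneg_right h4 hδ0
      _ = c / 2 * (C * δ) := by ring
      _ ≤ (c - K * (C * δ)) * (C * δ) := by
        apply mul_le_mul_of_nonneg_right _ (by positivity)
        linarith
  obtain ⟨p, hp, hpz⟩ := hsurj hz
  obtain ⟨p1, p2⟩ := hball p hp
  exact ⟨p, p1, p2, hpz⟩

/-- centres of one function are separated -/
theorem sep {k : ℕ} {κ ρ κ' ρ' L ε : ℝ} (h : HP n k κ ρ κ' ρ' L ε) :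
    ∃ s : ℝ, 0 < s ∧ ∀ (p p' : E n) (φ : E n → ℝ), ‖p‖ ≤ ρ' → ‖p'‖ ≤ ρ' → Ck κ ρ φ →
      XX k p φ = 0 → XX k p' φ = 0 → ‖p - p'‖ < s → p = p' := by
  obtain ⟨K, hK, hst⟩ := strict (n := n) k h.r0'.le h.r1
  have hc := c0_pos h.n0 k
  refine ⟨c0 n k / (K + 1), by positivity, ?_⟩
  intro p p' φ hp hp' hφ h0 h0' hs
  by_contra hne
  have hpos : 0 < ‖p - p'‖ := norm_pos_iff.2 (sub_ne_zero.2 hne)
  have h1 := hst p' p p' φ φ ‖p - p'‖ hp' hp hp' (ck_bd h.rho1 hφ) (ck_bd h.rho1 hφ)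
    (norm_nonneg _) (fun y => by rw [sub_self, abs_zero]; positivity) le_rfl
    (by rw [sub_self, norm_zero]; exact norm_nonneg _)
  rw [h0, h0', sub_zero, zero_sub, norm_neg] at h1
  have h2 := LX_low h hp' hφ h0' (p - p')
  have h3 : c0 n k * ‖p - p'‖ ≤ K * ‖p - p'‖ * ‖p - p'‖ := h2.trans h1
  have h4 : c0 n k ≤ K * ‖p - p'‖ := le_of_mul_le_mul_right h3 hpos
  rw [lt_div_iff₀ (by positivity)] at hs
  nlinarith

theorem ck_smul {κ ρ : ℝ} {φ : E n → ℝ} (hφ : Ck κ ρ φ) {t : ℝ} (h0 : 0 ≤ t) (h1 : t ≤ 1) :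
    Ck κ ρ (fun y => t * φ y) := by
  refine ⟨fun x y => ?_, fun s x => ?_, fun x => ?_⟩
  · rw [← mul_sub, abs_mul, abs_of_nonneg h0]
    have h2 := hφ.lip x y
    have h3 := abs_nonneg (φ x - φ y)
    nlinarith
  · rw [hφ.hom]
    ring
  · rw [abs_mul, abs_of_nonneg h0]
    have h2 := hφ.le x
    have h3 := abs_nonneg (φ x)
    nlinarith

/-- uniqueness of the centre -/
theorem uniq {k : ℕ} {κ ρ κ' ρ' L ε : ℝ} (h : HP n k κ ρ κ' ρ' L ε) {p p' : E n}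
    {φ : E n → ℝ} (hp : ‖p‖ ≤ ρ') (hp' : ‖p'‖ ≤ ρ') (hφ : Ck κ ρ φ)
    (h0 : XX k p φ = 0) (h0' : XX k p' φ = 0) : p = p' := by
  obtain ⟨s, hs, hsep⟩ := sep h
  obtain ⟨C, δ₁, hC, hδ₁, hloc⟩ := loc_ex h
  by_contra hne
  set η : ℝ := min δ₁ (s / (4 * C)) with hη
  have hη0 : 0 < η := lt_min hδ₁ (by positivity)
  obtain ⟨N, hN⟩ := exists_nat_one_div_lt hη0
  set M : ℕ := N + 1 with hM
  have hM0 : (0 : ℝ) < M := by rw [hM]; positivity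
  have hMη : 1 / (M : ℝ) < η := by
    rw [hM]
    push_cast
    exact hN
  have key : ∀ j : ℕ, j ≤ M → ∃ q q' : E n, ‖q‖ ≤ ρ' ∧ ‖q'‖ ≤ ρ' ∧ q ≠ q' ∧
      XX k q (fun y => (1 - j / (M : ℝ)) * φ y) = 0 ∧
      XX k q' (fun y => (1 - j / (M : ℝ)) * φ y) = 0 := by
    intro j
    induction j with
    | zero =>
      intro _
      refine ⟨p, p', hp, hp', hne, ?_, ?_⟩
      · simpa using h0
      · simpa using h0'
    | succ j ih =>
      intro hj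
      obtain ⟨q, q', hq, hq', hqq, z1, z2⟩ := ih (by omega)
      have hj1 : (j : ℝ) + 1 ≤ M := by exact_mod_cast hj
      have t0 : 0 ≤ 1 - (j : ℝ) / M := by
        rw [sub_nonneg, div_le_one hM0]
        linarith
      have t1 : 1 - (j : ℝ) / M ≤ 1 := by
        have : 0 ≤ (j : ℝ) / M := by positivity
        linarith
      have t0' : 0 ≤ 1 - ((j + 1 : ℕ) : ℝ) / M := by
        rw [sub_nonneg, div_le_one hM0]
        push_cast
        exact hj1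
      have t1' : 1 - ((j + 1 : ℕ) : ℝ) / M ≤ 1 := by
        have : 0 ≤ ((j + 1 : ℕ) : ℝ) / M := by positivity
        linarith
      have hc1 := ck_smul hφ t0 t1
      have hc2 := ck_smul hφ t0' t1'
      have hdiff : ∀ y, |(1 - ((j + 1 : ℕ) : ℝ) / M) * φ y - (1 - (j : ℝ) / M) * φ y| ≤
          1 / M * ‖y‖ := by
        intro y
        have e : (1 - ((j + 1 : ℕ) : ℝ) / M) * φ y - (1 - (j : ℝ) / M) * φ y =
            -(1 / M * φ y) := by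
          push_cast
          ring
        rw [e, abs_neg, abs_mul, abs_of_pos (by positivity : 0 < 1 / (M : ℝ))]
        apply mul_le_mul_of_nonneg_left _ (by positivity)
        exact (ck_bd h.rho1 hφ).2 y
      have hd1 : 1 / (M : ℝ) ≤ δ₁ := hMη.le.trans (min_le_left _ _)
      have hd2 : C * (1 / (M : ℝ)) < s / 2 := by
        have h3 : 1 / (M : ℝ) < s / (4 * C) := hMη.trans_le (min_le_right _ _)
        have h4 := mul_lt_mul_of_pos_left h3 hC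
        have h5 : C * (s / (4 * C)) = s / 4 := by field_simp
        rw [h5] at h4
        linarith
      obtain ⟨r, r1, r2, r3⟩ := hloc q _ _ (1 / M) hq hc1 hc2 (by positivity) hd1 hdiff z1
      obtain ⟨r', r1', r2', r3'⟩ := hloc q' _ _ (1 / M) hq' hc1 hc2 (by positivity) hd1 hdiff z2
      refine ⟨r, r', r2, r2', ?_, r3, r3'⟩
      intro hrr
      apply hqq
      refine hsep q q' _ hq hq' hc1 z1 z2 ?_
      have e : q - q' = (q - r) + (r' - q') := by rw [hrr]; abel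
      rw [e]
      have h6 := norm_add_le (q - r) (r' - q')
      rw [norm_sub_rev q r] at h6
      linarith
  obtain ⟨q, q', hq, hq', hqq, z1, z2⟩ := key M le_rfl
  have e1 : (1 : ℝ) - (M : ℝ) / M = 0 := by
    rw [div_self hM0.ne', sub_self]
  rw [e1] at z1 z2
  have e2 : (fun y => 0 * φ y) = fun y : E n => (inner ℝ (0 : E n) y : ℝ) := by
    funext y
    rw [zero_mul, inner_zero_left]
  rw [e2] at z1 z2
  have hzero : ∀ r : E n, ‖r‖ ≤ ρ' → XX k r (fun y : E n => (inner ℝ (0 : E n) y : ℝ)) = 0 →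
      r = 0 := by
    intro r hr hz
    by_contra hc
    have := XX_lin_pos k h.r0'.le h.r1 (a := 0) hr (by simp) (fun h => hc h.symm)
    rw [hz, inner_zero_left] at this
    exact lt_irrefl _ this
  exact hqq ((hzero q hq z1).trans (hzero q' hq' z2).symm)

/-- the centre depends on the function in a Lipschitz way -/
theorem zero_lip {k : ℕ} {κ ρ κ' ρ' L ε : ℝ} (h : HP n k κ ρ κ' ρ' L ε) :
    ∃ K δ₁ : ℝ, 0 < K ∧ 0 < δ₁ ∧
    ∀ (p p' : E n) (φ φ' : E n → ℝ) (δ : ℝ), ‖p‖ ≤ ρ' → ‖p'‖ ≤ ρ' → Ck κ ρ φ → Ck κ ρ φ' →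
      0 ≤ δ → δ ≤ δ₁ → (∀ y, |φ y - φ' y| ≤ δ * ‖y‖) → XX k p φ = 0 → XX k p' φ' = 0 →
      ‖p - p'‖ ≤ K * δ := by
  obtain ⟨C, δ₁, hC, hδ₁, hloc⟩ := loc_ex h
  refine ⟨C, δ₁, hC, hδ₁, ?_⟩
  intro p p' φ φ' δ hp hp' hφ hφ' hδ0 hδ hff h0 h0'
  obtain ⟨q, q1, q2, q3⟩ := hloc p' φ' φ δ hp' hφ' hφ hδ0 hδ hff h0'
  rw [uniq h hp q2 hφ h0 q3]
  exact q1

end Pool.Agent.Q183.HD
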