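import Pool.Agent.Q183.HD.M

/-!
# The distance functions, all radii
-/

set_option autoImplicit false

open MeasureTheory Metric Set Filter Topology InnerProductGeometry

namespace Pool.Agent.Q183.HD

open Pool.Agent.Q183.CN

open Pool.Agent.H241R3.FV (Sph RChart gnorm)
open Pool.Agent.H241R3.FV.TDiff (clamp clamp_cont clamp_mem clamp_eq clamp_eventually gnorm_le
  gnorm_smul gnorm_nonneg)
open Pool.Agent.W716.FV (E dir)
open Pool.Agent.W753.FV.BC (cont_uncurry ae_diff' gnorm_sq deriv_bound)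
open Pool.Agent.Q188.FC
open Pool.Agent.Q183.CF (UE FE UE_zero UE_ne abs_UE_le UE_hom UE_sq_le)

variable {n : ℕ} {M : Type} [MetricSpace M]

/-- Lipschitz constant of the homogeneous extensions -/
def UL (κ : ℝ) (e : Sph n → M → ℝ) : Prop :=
  ∀ (q : M) (G G' : E n), |UE e q G - UE e q G'| ≤ κ * ‖G - G'‖

theorem arc_cos {ρ k t : ℝ} (hk : k ^ 2 + ρ ^ 2 = 1) (hρ0 : 0 ≤ ρ) (hρ1 : ρ ≤ 1)
    (h0 : 0 ≤ t) (h1 : t ≤ Real.pi) :
    Real.arccos (k ^ 2 + ρ ^ 2 * Real.cos t) ≤ ρ * t := by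
  have hpi := Real.pi_pos
  have h2 : ρ * Real.sin (t / 2) ≤ Real.sin (ρ * (t / 2)) := by
    have hc := strictConcaveOn_sin_Icc.concaveOn.2 (x := t / 2) (y := 0)
      ⟨by linarith, by linarith⟩ ⟨le_rfl, hpi.le⟩ hρ0 (sub_nonneg.2 hρ1) (by ring)
    simpa using hc
  have h3 : 0 ≤ Real.sin (t / 2) := Real.sin_nonneg_of_nonneg_of_le_pi (by linarith) (by linarith)
  have h4 : Real.cos t = 1 - 2 * Real.sin (t / 2) ^ 2 := by
    have h5 := Real.cos_two_mul (t / 2)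
    have h6 := Real.sin_sq_add_cos_sq (t / 2)
    have h7 : 2 * (t / 2) = t := by ring
    rw [h7] at h5
    linarith
  have h5 : Real.cos (ρ * t) = 1 - 2 * Real.sin (ρ * (t / 2)) ^ 2 := by
    have h5 := Real.cos_two_mul (ρ * (t / 2))
    have h6 := Real.sin_sq_add_cos_sq (ρ * (t / 2))
    have h7 : 2 * (ρ * (t / 2)) = ρ * t := by ring
    rw [h7] at h5
    linarith
  have h6 : (ρ * Real.sin (t / 2)) ^ 2 ≤ Real.sin (ρ * (t / 2)) ^ 2 :=
    pow_le_pow_left₀ (by positivity) h2 2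
  have h7 : Real.cos (ρ * t) ≤ k ^ 2 + ρ ^ 2 * Real.cos t := by
    rw [h4, h5]
    nlinarith
  calc Real.arccos (k ^ 2 + ρ ^ 2 * Real.cos t) ≤ Real.arccos (Real.cos (ρ * t)) :=
        Real.arccos_le_arccos h7
    _ = ρ * t := Real.arccos_cos (by positivity) (by nlinarith)

/-- the comparison of angles -/
theorem tilt {ρ κ α β : ℝ} (hρ0 : 0 < ρ) (hρ1 : ρ < 1) (hκ0 : 0 < κ)
    (hκ : κ ^ 2 = 2 * ρ ^ 2 - ρ ^ 4)
    (hα : Real.arccos ρ ≤ α) (hα' : α ≤ Real.pi - Real.arccos ρ)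
    (hβ : Real.arccos ρ ≤ β) (hβ' : β ≤ Real.pi - Real.arccos ρ) :
    |Real.arccos (Real.cos α / κ) - Real.arccos (Real.cos β / κ)| ≤ ρ⁻¹ * |α - β| := by
  have h0 := Real.arccos_nonneg ρ
  have hmem : ∀ ξ ∈ uIcc β α, |Real.cos ξ| ≤ ρ := by
    intro ξ hξ
    have h1 : Real.arccos ρ ≤ ξ ∧ ξ ≤ Real.pi - Real.arccos ρ := by
      rcases le_total β α with h | h
      · rw [uIcc_of_le h] at hξ
        exact ⟨hβ.trans hξ.1, hξ.2.trans hα'⟩
      · rw [uIcc_of_ge h] at hξ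
        exact ⟨hα.trans hξ.1, hξ.2.trans hβ'⟩
    rw [abs_le]
    constructor
    · have h4 := Real.cos_le_cos_of_nonneg_of_le_pi (h0.trans h1.1)
        (show Real.pi - Real.arccos ρ ≤ Real.pi by linarith) h1.2
      rw [Real.cos_pi_sub, Real.cos_arccos (by linarith) hρ1.le] at h4
      exact h4
    · have h4 := Real.cos_le_cos_of_nonneg_of_le_pi h0
        (show ξ ≤ Real.pi by linarith [h1.2]) h1.1
      rw [Real.cos_arccos (by linarith) hρ1.le] at h4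
      exact h4
  have hρκ : ρ < κ := by
    have h1 : ρ ^ 2 < κ ^ 2 := by
      rw [hκ]
      have : ρ ^ 2 * ρ ^ 2 < ρ ^ 2 * 1 := by
        apply mul_lt_mul_of_pos_left _ (by positivity)
        nlinarith
      nlinarith
    exact lt_of_pow_lt_pow_left₀ 2 hκ0.le h1
  refine seg_est (g := fun x => Real.arccos (Real.cos x / κ))
    (g' := fun x => -(1 / √(1 - (Real.cos x / κ) ^ 2)) * (-Real.sin x / κ)) (fun ξ hξ => ?_)
    (fun ξ hξ => ?_)
  · have h1 := abs_le.1 (hmem ξ hξ)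
    have h2 : Real.cos ξ / κ ≠ -1 := by
      rw [Ne, div_eq_iff hκ0.ne']
      intro h
      linarith [h1.1]
    have h3 : Real.cos ξ / κ ≠ 1 := by
      rw [Ne, div_eq_iff hκ0.ne']
      intro h
      linarith [h1.2]
    have h4 : HasDerivAt (Real.arccos ∘ fun x => Real.cos x / κ)
        (-(1 / √(1 - (Real.cos ξ / κ) ^ 2)) * (-Real.sin ξ / κ)) ξ :=
      HasDerivAt.comp (h₂ := Real.arccos) (h := fun x => Real.cos x / κ) ξ
        (Real.hasDerivAt_arccos h2 h3) ((Real.hasDerivAt_cos ξ).div_const κ)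
    exact h4
  · have h1 := hmem ξ hξ
    have hc2 : Real.cos ξ ^ 2 ≤ ρ ^ 2 := by
      rw [← sq_abs]
      exact pow_le_pow_left₀ (abs_nonneg _) h1 2
    have hsc := Real.sin_sq_add_cos_sq ξ
    have h2 : 1 - (Real.cos ξ / κ) ^ 2 = (κ ^ 2 - Real.cos ξ ^ 2) / κ ^ 2 := by
      field_simp
    have h3 : 0 < κ ^ 2 - Real.cos ξ ^ 2 := by nlinarith
    have h4 : √(1 - (Real.cos ξ / κ) ^ 2) = √(κ ^ 2 - Real.cos ξ ^ 2) / κ := by
      rw [h2, Real.sqrt_div h3.le, Real.sqrt_sq hκ0.le]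
    have h5 : 0 < √(κ ^ 2 - Real.cos ξ ^ 2) := Real.sqrt_pos.2 h3
    have h6 : -(1 / √(1 - (Real.cos ξ / κ) ^ 2)) * (-Real.sin ξ / κ) =
        Real.sin ξ / √(κ ^ 2 - Real.cos ξ ^ 2) := by
      rw [h4]
      field_simp
    rw [h6, abs_div, abs_of_pos h5, div_le_iff₀ h5]
    have h7 : ρ * |Real.sin ξ| ≤ √(κ ^ 2 - Real.cos ξ ^ 2) := by
      refine Real.le_sqrt_of_sq_le ?_
      rw [mul_pow, sq_abs, hκ]
      have h8 : 0 ≤ (1 - ρ ^ 2) * (ρ ^ 2 - Real.cos ξ ^ 2) :=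
        mul_nonneg (by nlinarith) (by linarith)
      nlinarith
    have h8 : ρ⁻¹ * √(κ ^ 2 - Real.cos ξ ^ 2) = √(κ ^ 2 - Real.cos ξ ^ 2) / ρ := by
      rw [div_eq_inv_mul]
    rw [h8, le_div_iff₀ hρ0]
    linarith

theorem cone_ineq {a b A B c κ : ℝ} (ha : 0 ≤ a) (hb : 0 ≤ b) (hA : A ^ 2 ≤ 1)
    (hB : B ^ 2 ≤ 1) (hc : c ≤ A * B + √(1 - A ^ 2) * √(1 - B ^ 2)) :
    (a * (κ * A) - b * (κ * B)) ^ 2 ≤ κ ^ 2 * (a ^ 2 + b ^ 2 - 2 * (a * b * c)) := by
  have h1 : √(1 - A ^ 2) ^ 2 = 1 - A ^ 2 := Real.sq_sqrt (by linarith)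
  have h2 : √(1 - B ^ 2) ^ 2 = 1 - B ^ 2 := Real.sq_sqrt (by linarith)
  have h3 : 0 ≤ (a * √(1 - A ^ 2) - b * √(1 - B ^ 2)) ^ 2 := sq_nonneg _
  have h4 : a * b * c ≤ a * b * (A * B + √(1 - A ^ 2) * √(1 - B ^ 2)) :=
    mul_le_mul_of_nonneg_left hc (mul_nonneg ha hb)
  have h5 : (a * A - b * B) ^ 2 ≤ a ^ 2 + b ^ 2 - 2 * (a * b * c) := by nlinarith
  have h6 := mul_le_mul_of_nonneg_left h5 (sq_nonneg κ)
  calc (a * (κ * A) - b * (κ * B)) ^ 2 = κ ^ 2 * (a * A - b * B) ^ 2 := by ring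
    _ ≤ _ := h6

/-- the Lipschitz constant -/
theorem ul_of {ρ κ : ℝ} (hρ0 : 0 < ρ) (hρ1 : ρ < 1) (hκ0 : 0 < κ)
    (hκ : κ ^ 2 = 2 * ρ ^ 2 - ρ ^ 4) {e : Sph n → M → ℝ}
    (hr : ∀ x q, Real.arccos ρ ≤ e x q ∧ e x q ≤ Real.pi - Real.arccos ρ)
    (hx : ∀ x x' q, |e x q - e x' q| ≤ ρ * angle (x : E n) (x' : E n)) : UL κ e := by
  have h0 := Real.arccos_nonneg ρ
  have hcos : ∀ x q, |Real.cos (e x q)| ≤ ρ := by
    intro x q
    have h1 := hr x q
    rw [abs_le]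
    constructor
    · have h4 := Real.cos_le_cos_of_nonneg_of_le_pi (h0.trans h1.1)
        (show Real.pi - Real.arccos ρ ≤ Real.pi by linarith) h1.2
      rw [Real.cos_pi_sub, Real.cos_arccos (by linarith) hρ1.le] at h4
      exact h4
    · have h4 := Real.cos_le_cos_of_nonneg_of_le_pi h0
        (show e x q ≤ Real.pi by linarith [h1.2]) h1.1
      rw [Real.cos_arccos (by linarith) hρ1.le] at h4
      exact h4
  have hρκ : ρ ≤ κ := by
    refine le_of_sq_le_sq ?_ hκ0.le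
    rw [hκ]
    have : ρ ^ 2 * ρ ^ 2 ≤ ρ ^ 2 * 1 := by
      apply mul_le_mul_of_nonneg_left _ (by positivity)
      nlinarith
    nlinarith
  have hle : ∀ (q : M) (G : E n), |UE e q G| ≤ κ * ‖G‖ := by
    intro q G
    by_cases h : G = 0
    · rw [h, UE_zero]
      simp
    · rw [UE_ne e q G h, abs_mul, abs_norm, mul_comm]
      exact mul_le_mul_of_nonneg_right ((hcos _ _).trans hρκ) (norm_nonneg _)
  intro q G G'
  by_cases h : G = 0
  · subst h
    rw [UE_zero, zero_sub, zero_sub, abs_neg, norm_neg]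
    exact hle q G'
  by_cases h' : G' = 0
  · subst h'
    rw [UE_zero, sub_zero, sub_zero]
    exact hle q G
  rw [UE_ne e q G h, UE_ne e q G' h']
  set u := dir G h with hu
  set v := dir G' h' with hv
  have e1 := CM.norm_dir G h
  have e2 := CM.norm_dir G' h'
  have n1 := CM.dir_norm G h
  have n2 := CM.dir_norm G' h'
  rw [← hu] at e1 n1
  rw [← hv] at e2 n2
  set θ := angle (u : E n) (v : E n) with hθ
  have hθ0 : 0 ≤ θ := angle_nonneg _ _
  have hθ1 : θ ≤ Real.pi := angle_le_pi _ _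
  have hin : (inner ℝ (u : E n) (v : E n) : ℝ) = Real.cos θ := by
    have := cos_angle_mul_norm_mul_norm (u : E n) (v : E n)
    rw [n1, n2, mul_one, mul_one] at this
    exact this.symm
  set A := Real.cos (e u q) / κ with hA
  set B := Real.cos (e v q) / κ with hB
  have hAκ : Real.cos (e u q) = κ * A := by
    rw [hA]
    field_simp
  have hBκ : Real.cos (e v q) = κ * B := by
    rw [hB]
    field_simp
  have hA1 : |A| ≤ 1 := by
    rw [hA, abs_div, abs_of_pos hκ0, div_le_one hκ0]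
    exact (hcos _ _).trans hρκ
  have hB1 : |B| ≤ 1 := by
    rw [hB, abs_div, abs_of_pos hκ0, div_le_one hκ0]
    exact (hcos _ _).trans hρκ
  have hA2 : A ^ 2 ≤ 1 := by
    rw [← sq_abs]
    exact pow_le_one₀ (abs_nonneg _) hA1
  have hB2 : B ^ 2 ≤ 1 := by
    rw [← sq_abs]
    exact pow_le_one₀ (abs_nonneg _) hB1
  have ht := tilt hρ0 hρ1 hκ0 hκ (hr u q).1 (hr u q).2 (hr v q).1 (hr v q).2
  rw [← hA, ← hB] at ht
  have ht2 : |Real.arccos A - Real.arccos B| ≤ θ := by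
    refine ht.trans ?_
    have h5 := mul_le_mul_of_nonneg_left (hx u v q) (by positivity : 0 ≤ ρ⁻¹)
    rw [← hθ, ← mul_assoc, inv_mul_cancel₀ hρ0.ne', one_mul] at h5
    exact h5
  have hcθ : Real.cos θ ≤ A * B + √(1 - A ^ 2) * √(1 - B ^ 2) := by
    have h5 : Real.cos θ ≤ Real.cos |Real.arccos A - Real.arccos B| :=
      Real.cos_le_cos_of_nonneg_of_le_pi (abs_nonneg _) hθ1 ht2
    rw [Real.cos_abs, Real.cos_sub, Real.cos_arccos (abs_le.1 hA1).1 (abs_le.1 hA1).2,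
      Real.cos_arccos (abs_le.1 hB1).1 (abs_le.1 hB1).2, Real.sin_arccos, Real.sin_arccos] at h5
    exact h5
  have hfin := cone_ineq (κ := κ) (norm_nonneg G) (norm_nonneg G') hA2 hB2 hcθ
  have hn : ‖G - G'‖ ^ 2 = ‖G‖ ^ 2 + ‖G'‖ ^ 2 - 2 * (‖G‖ * ‖G'‖ * Real.cos θ) := by
    have h6 : (inner ℝ G G' : ℝ) = ‖G‖ * ‖G'‖ * Real.cos θ := by
      rw [← hin]
      have h7 : (inner ℝ G G' : ℝ) = inner ℝ (‖G‖ • (u : E n)) (‖G'‖ • (v : E n)) := by
        rw [e1, e2]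
      rw [h7, real_inner_smul_left, real_inner_smul_right]
      ring
    rw [norm_sub_sq_real, h6]
    ring
  rw [hAκ, hBκ]
  apply abs_le_of_sq_le_sq _ (by positivity)
  rw [mul_pow, hn]
  exact hfin

theorem FE_Ck {κ ρ : ℝ} {bd : Sph n → M} {e : Sph n → M → ℝ}
    (he : CM.Dk ρ bd e) (hl : UL κ e) (q : M) : Ck κ ρ (FE e q) := by
  refine ⟨fun x y => ?_, fun t x => ?_, fun x => ?_⟩
  · have h1 := hl q x y
    have h2 := hl q (-x) (-y)
    have h3 : ‖-x - -y‖ = ‖x - y‖ := by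
      rw [← norm_neg]
      congr 1
      abel
    rw [h3] at h2
    unfold FE
    rw [abs_le] at h1 h2 ⊢
    constructor <;> linarith [h1.1, h1.2, h2.1, h2.2]
  · unfold FE
    rcases le_total 0 t with ht | ht
    · have h1 := UE_hom e q t x ht
      have h2 := UE_hom e q t (-x) ht
      rw [smul_neg] at h2
      rw [h1, h2]
      ring
    · have h1 := UE_hom e q (-t) x (by linarith)
      have h2 := UE_hom e q (-t) (-x) (by linarith)
      rw [neg_smul] at h1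
      rw [neg_smul, smul_neg, neg_neg] at h2
      rw [h1, h2]
      ring
  · have h1 := CM.UE_le he q x
    have h2 := CM.UE_le he q (-x)
    rw [norm_neg] at h2
    unfold FE
    rw [abs_le] at h1 h2 ⊢
    constructor <;> linarith [h1.1, h1.2, h2.1, h2.2]

theorem UE_chart {κ ρ : ℝ} (hκ1 : κ ≤ 1) {bd : Sph n → M}
    {e : Sph n → M → ℝ} (he : CM.Dk ρ bd e) (hl : UL κ e) (C : RChart n M) :
    ∀ᵐ c ∂(volume : Measure (E n)), c ∈ C.U → ∃ D : E n → E n →L[ℝ] ℝ, Measurable D ∧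
      ∀ᵐ G ∂(volume : Measure (E n)), HasFDerivAt (fun c' => UE e (C.map c') G) (D G) c ∧
        ∀ v : E n, (D G v) ^ 2 ≤
          (‖G‖ ^ 2 - UE e (C.map c) G ^ 2) * ∑ i, ∑ j, v i * C.G c i j * v j := by
  have hloc := Pool.Agent.H241R3.FV.TLoc.taskLoc n M C
  have hx : ∀ x x' : E n, ∀ p, |UE e (C.map p) x - UE e (C.map p) x'| ≤ ‖x - x'‖ := by
    intro x x' p
    refine (hl (C.map p) x x').trans ?_
    have := mul_le_mul_of_nonneg_right hκ1 (norm_nonneg (x - x'))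
    rwa [one_mul] at this
  have hloc1 : ∀ p ∈ C.U, ∃ ρ K : ℝ, 0 < ρ ∧ 0 ≤ K ∧ ∀ x, ∀ y ∈ closedBall p ρ,
      ∀ z ∈ closedBall p ρ, |UE e (C.map y) x - UE e (C.map z) x| ≤ ‖x‖ * K * ‖y - z‖ := by
    intro p hp
    obtain ⟨r, hr, hrU, h⟩ := hloc p hp 1 one_pos
    obtain ⟨c, hc, hc'⟩ := gnorm_le (C.G p)
    have hsub : closedBall p (r / 2) ⊆ ball p r := closedBall_subset_ball (by linarith)
    refine ⟨r / 2, c + 1, by positivity, by positivity, fun x y hy z hz => ?_⟩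
    have h1 := h y (hsub hy) z (hsub hz)
    have h2 := hc' (y - z)
    have h3 : dist (C.map y) (C.map z) ≤ (c + 1) * ‖y - z‖ := by linarith
    calc |UE e (C.map y) x - UE e (C.map z) x| ≤ ‖x‖ * dist (C.map y) (C.map z) :=
          CM.UE_q he _ _ _
      _ ≤ ‖x‖ * ((c + 1) * ‖y - z‖) := mul_le_mul_of_nonneg_left h3 (norm_nonneg _)
      _ = _ := by ring
  filter_upwards [ae_diff' (F := fun x p => UE e (C.map p) x) hx hloc1] with p hp hpU
  have hd := hp hpU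
  obtain ⟨ρ, K, hρ, hK0, hK⟩ := hloc1 p hpU
  have hcont := cont_uncurry (F := fun x p => UE e (C.map p) x) hx hρ hK
  have hm0 : Measurable fun a : E n × E n =>
      fderiv ℝ (fun q => UE e (C.map (clamp p ρ q)) a.1) a.2 :=
    measurable_fderiv_with_param ℝ hcont
  have hm1 : Measurable fun x : E n => fderiv ℝ (fun c' => UE e (C.map c') x) p := by
    have h1 : Measurable fun x : E n => fderiv ℝ (fun q => UE e (C.map (clamp p ρ q)) x) p :=
      hm0.comp (measurable_id.prodMk measurable_const)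
    have h2 : (fun x : E n => fderiv ℝ (fun q => UE e (C.map (clamp p ρ q)) x) p) =
        fun x : E n => fderiv ℝ (fun c' => UE e (C.map c') x) p := by
      funext x
      exact (clamp_eventually p hρ (mem_ball_self hρ) (fun c' => UE e (C.map c') x)).fderiv_eq
    rwa [h2] at h1
  refine ⟨fun x => fderiv ℝ (fun c' => UE e (C.map c') x) p, hm1, ?_⟩
  filter_upwards [hd] with x hx1
  refine ⟨hx1.hasFDerivAt, fun v => ?_⟩
  have hnn : 0 ≤ ‖x‖ ^ 2 - UE e (C.map p) x ^ 2 := sub_nonneg.2 (UE_sq_le _ _ _)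
  have hbd := deriv_bound hx1 v (A := C.G p) (s := √(‖x‖ ^ 2 - UE e (C.map p) x ^ 2))
    (K := ‖x‖) (Real.sqrt_nonneg _) (norm_nonneg _) (by
      intro ε hε
      obtain ⟨r, hr, hrU, h⟩ := hloc p hpU ε hε
      refine ⟨r, hr, fun y hy => ⟨dist (C.map y) (C.map p), dist_nonneg,
        h y hy p (mem_ball_self hr), CM.UE_q2 he _ _ _⟩⟩)
  have h2 := pow_le_pow_left₀ (abs_nonneg _) hbd 2
  rw [sq_abs, mul_pow, Real.sq_sqrt hnn, gnorm_sq (C.pos_G p hpU)] at h2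
  exact h2

theorem FE_chart {κ ρ : ℝ} (hκ1 : κ ≤ 1) {bd : Sph n → M}
    {e : Sph n → M → ℝ} (he : CM.Dk ρ bd e) (hl : UL κ e) (C : RChart n M) :
    CM.LF κ ρ C.U (fun c => FE e (C.map c)) ∧
    ∀ᵐ c ∂(volume : Measure (E n)), c ∈ C.U →
      ∃ D, GoodD (fun c' => FE e (C.map c')) c (C.G c) D := by
  refine ⟨⟨fun c => FE_Ck he hl _, fun c₀ hc₀ => ?_⟩, ?_⟩
  · obtain ⟨r, hr, hb, hl⟩ := Pool.Agent.H241R3.FV.TLoc.taskLoc n M C c₀ hc₀ 1 one_pos
    obtain ⟨K, hK, hKg⟩ := Pool.Agent.H241R3.FV.TDiff.gnorm_le (C.G c₀)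
    refine ⟨r, K + 1, hr, by positivity, hb, fun c hc c' hc' y => ?_⟩
    refine (CM.FE_q he _ _ y).trans ?_
    have h2 := hl c hc c' hc'
    have h3 := hKg (c - c')
    gcongr
    linarith
  · filter_upwards [UE_chart hκ1 he hl C] with c hc hcU
    obtain ⟨D, hDm, hD⟩ := hc hcU
    refine ⟨fun y => (1 / 2 : ℝ) • (D y - D (-y)), ?_, ?_⟩
    · exact ((hDm.sub (hDm.comp measurable_neg))).const_smul (1 / 2 : ℝ)
    · have hD' : ∀ᵐ y ∂(volume : Measure (E n)), HasFDerivAt (fun c' => UE e (C.map c') (-y))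
          (D (-y)) c ∧ ∀ v : E n, (D (-y) v) ^ 2 ≤
          (‖-y‖ ^ 2 - UE e (C.map c) (-y) ^ 2) * ∑ i, ∑ j, v i * C.G c i j * v j :=
        (Measure.measurePreserving_neg (volume : Measure (E n))).quasiMeasurePreserving.ae hD
      filter_upwards [hD, hD'] with y hy hy'
      constructor
      · have h2 := (hy.1.sub hy'.1).const_smul (1 / 2 : ℝ)
        refine h2.congr_of_eventuallyEq (Eventually.of_forall fun c' => ?_)
        show FE e (C.map c') y = (1 / 2 : ℝ) • (UE e (C.map c') y - UE e (C.map c') (-y))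
        unfold FE
        rw [smul_eq_mul]
        ring
      · intro v
        have h2 := hy.2 v
        have h3 := hy'.2 v
        rw [norm_neg] at h3
        have hg : 0 ≤ ∑ i, ∑ j, v i * C.G c i j * v j := by
          rw [← Pool.Agent.W753.FV.BC.gnorm_sq (C.pos_G c hcU) v]
          positivity
        have u1 := UE_sq_le e (C.map c) y
        have u2 := UE_sq_le e (C.map c) (-y)
        rw [norm_neg] at u2
        have h4 := Pool.Agent.Q53.FC.PC.elem _ _ _ _ _ _ hg u1 u2 h2 h3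
        have h5 : ((1 / 2 : ℝ) • (D y - D (-y))) v = (D y v - D (-y) v) / 2 := by
          rw [smul_apply, sub_apply, smul_eq_mul]
          ring
        rw [h5]
        exact h4


/-! ### the extended distance functions -/

theorem inner_cos (x x' : Sph n) :
    (inner ℝ (x : E n) (x' : E n) : ℝ) = Real.cos (angle (x : E n) (x' : E n)) := by
  have := cos_angle_mul_norm_mul_norm (x : E n) (x' : E n)
  rw [sph_norm, sph_norm, mul_one, mul_one] at this
  exact this.symm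

theorem arc_diff {ρ k : ℝ} (hk : k ^ 2 + ρ ^ 2 = 1) (x x' p : Sph n) :
    |Real.arccos (ρ * inner ℝ (x : E n) (p : E n)) -
      Real.arccos (ρ * inner ℝ (x' : E n) (p : E n))| ≤
      Real.arccos (k ^ 2 + ρ ^ 2 * inner ℝ (x : E n) x') := by
  have h := tri hk p x x'
  rwa [real_inner_comm (x : E n) (p : E n), real_inner_comm (x' : E n) (p : E n)] at h

theorem ek_x (hn : 0 < n) {ρ k : ℝ} (hk : k ^ 2 + ρ ^ 2 = 1) (bd : Sph n → M)
    (x x' : Sph n) (q : M) : |ek ρ bd x q - ek ρ bd x' q| ≤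
      Real.arccos (k ^ 2 + ρ ^ 2 * inner ℝ (x : E n) x') := by
  have hne := Pool.Agent.H241R3.FV.TExt.sph_nonempty hn
  refine (ek_le ρ bd x x' q q).trans ?_
  refine iInf_sub_le (ei_bdd _ _ _ _) (ei_bdd _ _ _ _) fun p => ?_
  have h1 : Real.arccos (ρ * inner ℝ (x : E n) (p : E n)) + dist q (bd p) -
      (Real.arccos (ρ * inner ℝ (x' : E n) (p : E n)) + dist q (bd p)) =
      Real.arccos (ρ * inner ℝ (x : E n) (p : E n)) -
      Real.arccos (ρ * inner ℝ (x' : E n) (p : E n)) := by ring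
  rw [h1]
  exact arc_diff hk x x' p

theorem ek_range {ρ : ℝ} (hρ0 : 0 ≤ ρ) (bd : Sph n → M) (x : Sph n) (q : M) :
    Real.arccos ρ ≤ ek ρ bd x q ∧ ek ρ bd x q ≤ Real.pi - Real.arccos ρ := by
  have h0 : Real.arccos ρ ≤ Real.pi - Real.arccos ρ := by
    have := Real.arccos_le_pi_div_two.2 hρ0
    linarith
  exact ⟨le_max_left _ _, max_le h0 (min_le_left _ _)⟩

theorem ek_dk (hn : 0 < n) {ρ k : ℝ} (hρ0 : 0 < ρ) (hk0 : 0 < k) (hk : k ^ 2 + ρ ^ 2 = 1)
    {bd : Sph n → M} (hns : ∀ v w : Sph n,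
      Real.arccos (k ^ 2 + ρ ^ 2 * inner ℝ (v : E n) (w : E n)) ≤ dist (bd v) (bd w)) :
    CM.Dk ρ bd (ek ρ bd) := by
  have hd := CN.ek_dk hn hρ0 hk0 hk hns
  have hρ1 : ρ < 1 := by nlinarith
  refine ⟨hd.q, fun x x' q => ?_, hd.b, hd.c⟩
  have h1 := ek_x hn hk bd x x' q
  have hc : ‖(x : E n) - x'‖ ≤ 2 := by
    have := norm_sub_le (x : E n) (x' : E n)
    rw [sph_norm, sph_norm] at this
    linarith
  set r := ρ * ‖(x : E n) - x'‖ / 2 with hr
  have hr0 : 0 ≤ r := by positivity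
  have hr1 : r ≤ 1 := by
    rw [hr]
    nlinarith [norm_nonneg ((x : E n) - x')]
  have h2 : k ^ 2 + ρ ^ 2 * inner ℝ (x : E n) x' = Real.cos (2 * Real.arcsin r) := by
    rw [Real.cos_two_mul, Real.cos_sq', Real.sin_arcsin (by linarith) hr1]
    have h3 : ‖(x : E n) - x'‖ ^ 2 = 2 - 2 * inner ℝ (x : E n) x' := by
      rw [norm_sub_sq_real, sph_norm, sph_norm]
      ring
    rw [hr]
    nlinarith
  have h3 : Real.arccos (k ^ 2 + ρ ^ 2 * inner ℝ (x : E n) x') = 2 * Real.arcsin r := by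
    rw [h2]
    refine Real.arccos_cos ?_ ?_
    · have := Real.arcsin_nonneg.2 hr0
      linarith
    · have := Real.arcsin_le_pi_div_two r
      linarith
  rw [h3] at h1
  have h4 := CM.cos_diff hr0 hr1 h1
  rw [hr] at h4
  linarith

theorem ek_ul (hn : 0 < n) {ρ k κ : ℝ} (hρ0 : 0 < ρ) (hk0 : 0 < k) (hk : k ^ 2 + ρ ^ 2 = 1)
    (hκ0 : 0 < κ) (hκ : κ ^ 2 = 2 * ρ ^ 2 - ρ ^ 4) (bd : Sph n → M) : UL κ (ek ρ bd) := by
  have hρ1 : ρ < 1 := by nlinarith
  refine ul_of hρ0 hρ1 hκ0 hκ (fun x q => ek_range hρ0.le bd x q) fun x x' q => ?_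
  refine (ek_x hn hk bd x x' q).trans ?_
  rw [inner_cos]
  exact arc_cos hk hρ0.le hρ1.le (angle_nonneg _ _) (angle_le_pi _ _)

end Pool.Agent.Q183.HD
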