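import Pool.Agent.Q183.HD.N

/-!
# The covering theorem and the lower bound for the volume, high dimensions
-/

set_option autoImplicit false

open MeasureTheory Metric Set Filter Topology InnerProductGeometry

namespace Pool.Agent.Q183.HD

open Pool.Agent.Q183.CN
open Pool.Agent.H241R3.FV (Sph Triang coneOf Fill RChart)
open Pool.Agent.W716.FV (E gam gd)
open Pool.Agent.Q188.FC
open Pool.Agent.Q53.FC.CC (mv_lin NI_smul NI_sub norm_NI)
open Pool.Agent.Q183.CF (FE)

/-- interpolation between two maps which point to the same side -/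
theorem blend {M : Type} [MetricSpace M] {n : ℕ} {f g : M → E n} {A B F G μ : ℝ} (hA : 0 ≤ A)
    (hB : 0 ≤ B) (hμ : 0 < μ) (hf : ∀ q q', ‖f q - f q'‖ ≤ A * dist q q')
    (hg : ∀ q q', ‖g q - g q'‖ ≤ B * dist q q') (hF : ∀ q, ‖f q‖ ≤ F) (hG : ∀ q, ‖g q‖ ≤ G) :
    ∃ (m : M → E n) (K : ℝ), 0 ≤ K ∧ (∀ q q', ‖m q - m q'‖ ≤ dist q q' * K) ∧
      (∀ q, μ ≤ inner ℝ (f q) (g q) → m q = g q) ∧ (∀ q, m q = 0 → f q = 0) := by
  by_cases hM : Nonempty M
  swap
  · exact ⟨g, 0, le_rfl, fun q => (hM ⟨q⟩).elim, fun q => (hM ⟨q⟩).elim, fun q => (hM ⟨q⟩).elim⟩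
  obtain ⟨q0⟩ := hM
  have hF0 : 0 ≤ F := (norm_nonneg _).trans (hF q0)
  have hG0 : 0 ≤ G := (norm_nonneg _).trans (hG q0)
  set s : M → ℝ := fun q => inner ℝ (f q) (g q) / μ with hs
  set χ : M → ℝ := fun q => max 0 (min 1 (s q)) with hχ
  have hχ0 : ∀ q, 0 ≤ χ q := fun q => le_max_left _ _
  have hχ1 : ∀ q, χ q ≤ 1 := fun q => max_le zero_le_one (min_le_left _ _)
  have hsl : ∀ q q', |s q - s q'| ≤ (A * G + F * B) / μ * dist q q' := by
    intro q q'
    have e : s q - s q' = ((inner ℝ (f q - f q') (g q) : ℝ) + inner ℝ (f q') (g q - g q')) / μ := by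
      rw [hs]
      simp only
      rw [inner_sub_left, inner_sub_right]
      ring
    rw [e, abs_div, abs_of_pos hμ, div_mul_eq_mul_div]
    apply div_le_div_of_nonneg_right _ hμ.le
    have h1 := abs_real_inner_le_norm (f q - f q') (g q)
    have h2 := abs_real_inner_le_norm (f q') (g q - g q')
    have h3 : ‖f q - f q'‖ * ‖g q‖ ≤ A * dist q q' * G := by
      have := hf q q'
      have := hG q
      gcongr
    have h4 : ‖f q'‖ * ‖g q - g q'‖ ≤ F * (B * dist q q') := by
      have := hg q q'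
      have := hF q'
      gcongr
    refine (abs_add_le _ _).trans ?_
    linarith
  have hχl : ∀ q q', |χ q - χ q'| ≤ (A * G + F * B) / μ * dist q q' := by
    intro q q'
    refine le_trans ?_ (hsl q q')
    rw [hχ]
    refine (abs_max_sub_max_le_max _ _ _ _).trans ?_
    rw [sub_self, abs_zero]
    refine max_le (abs_nonneg _) ?_
    refine (abs_min_sub_min_le_max _ _ _ _).trans ?_
    rw [sub_self, abs_zero]
    exact max_le (abs_nonneg _) le_rfl
  refine ⟨fun q => (1 - χ q) • f q + χ q • g q, A + B + (A * G + F * B) / μ * (F + G),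
    by positivity, fun q q' => ?_, fun q hq => ?_, fun q hq => ?_⟩
  · have e : (1 - χ q) • f q + χ q • g q - ((1 - χ q') • f q' + χ q' • g q') =
        ((1 - χ q) • (f q - f q') + χ q • (g q - g q')) + (χ q - χ q') • (g q' - f q') := by
      module
    rw [e]
    have h1 : ‖(1 - χ q) • (f q - f q')‖ ≤ A * dist q q' := by
      rw [norm_smul, Real.norm_of_nonneg (sub_nonneg.2 (hχ1 q))]
      have h2 := hf q q'
      have h3 := hχ0 q
      have h4 := norm_nonneg (f q - f q')
      nlinarith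
    have h2 : ‖χ q • (g q - g q')‖ ≤ B * dist q q' := by
      rw [norm_smul, Real.norm_of_nonneg (hχ0 q)]
      have h2 := hg q q'
      have h3 := hχ1 q
      have h4 := norm_nonneg (g q - g q')
      nlinarith
    have h3 : ‖(χ q - χ q') • (g q' - f q')‖ ≤
        (A * G + F * B) / μ * dist q q' * (F + G) := by
      rw [norm_smul, Real.norm_eq_abs]
      have h4 := hχl q q'
      have h5 : ‖g q' - f q'‖ ≤ F + G := (norm_sub_le _ _).trans (by
        have := hF q'
        have := hG q'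
        linarith)
      have : 0 ≤ (A * G + F * B) / μ * dist q q' := by positivity
      gcongr
    refine (norm_add_le _ _).trans ?_
    have h4 := norm_add_le ((1 - χ q) • (f q - f q')) (χ q • (g q - g q'))
    linarith
  · have h1 : χ q = 1 := by
      rw [hχ]
      simp only
      have h2 : 1 ≤ s q := by
        rw [hs]
        simp only
        rw [le_div_iff₀ hμ]
        linarith
      rw [min_eq_left h2]
      exact max_eq_right zero_le_one
    simp only
    rw [h1]
    simp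
  · simp only at hq
    rcases eq_or_lt_of_le (hχ0 q) with h0 | h0
    · rw [← h0] at hq
      simpa using hq
    · exfalso
      have hpos : 0 < (inner ℝ (f q) (g q) : ℝ) := by
        by_contra hc
        push Not at hc
        have h1 : s q ≤ 0 := div_nonpos_of_nonpos_of_nonneg hc hμ.le
        have h2 : χ q ≤ 0 := max_le le_rfl ((min_le_right _ _).trans h1)
        linarith
      have h1 : (inner ℝ ((1 - χ q) • f q + χ q • g q) (g q) : ℝ) = 0 := by
        rw [hq, inner_zero_left]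
      rw [inner_add_left, real_inner_smul_left, real_inner_smul_left,
        real_inner_self_eq_norm_sq] at h1
      have h2 : 0 ≤ (1 - χ q) * (inner ℝ (f q) (g q) : ℝ) :=
        mul_nonneg (sub_nonneg.2 (hχ1 q)) hpos.le
      have h3 : g q ≠ 0 := by
        intro h4
        rw [h4, inner_zero_right] at hpos
        exact lt_irrefl _ hpos
      have h4 : 0 < χ q * ‖g q‖ ^ 2 := by
        have := norm_pos_iff.2 h3
        positivity
      linarith

theorem cover {d k : ℕ} {κ ρ κ' ρ' Lm eps : ℝ} (h : HP (d + 1) k κ ρ κ' ρ' Lm eps) {M : Type}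
    [MetricSpace M] {S : Fill d M} {e : Sph (d + 1) → M → ℝ} (he : CM.Dk ρ S.bd e) (hl : UL κ e)
    (hns : ∀ v w : Sph (d + 1), 2 * ρ / Real.pi * angle (v : E (d + 1)) (w : E (d + 1)) ≤
      dist (S.bd v) (S.bd w))
    (hT : (CompactSpace M ∧ S.Triangulated) ∨ S.NoRetraction) {p : E (d + 1)} (hp : ‖p‖ < ρ) :
    ∃ q, XX k p (FE e q) = 0 := by
  have hρ0 := h.r0
  have hρ1 : ρ < 1 := lt_of_le_of_lt h.rr' h.r1
  have hp1 : ‖p‖ < 1 := hp.trans hρ1
  obtain ⟨b1, -, -, -, -, -, -, b9, b10⟩ := bst hp1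
  have hl0 : 0 < lf p := by linarith
  have hk := kn_pos (d + 1)
  obtain ⟨K, hK, hKl⟩ := HH_lip (n := d + 1) h.r0.le hρ1
  obtain ⟨K', hK', hKl'⟩ := XX_lip (n := d + 1) k h.r0.le hρ1
  have hC : ∀ q, Ck κ ρ (FE e q) := fun q => FE_Ck he hl q
  have hBd : ∀ q, Bd (FE e q) := fun q => ck_bd hρ1.le (hC q)
  have hz : Bd (fun _ : E (d + 1) => (0 : ℝ)) :=
    ⟨continuous_const, fun y => by rw [abs_zero]; exact norm_nonneg y⟩
  -- the map of degree one
  set g : M → E (d + 1) := fun q => (lf p * kn (d + 1))⁻¹ • NI p (NI p (HH p (FE e q))) with hg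
  set f : M → E (d + 1) := fun q => XX k p (FE e q) with hf
  set B : ℝ := (lf p * kn (d + 1))⁻¹ * (2 * (2 * K)) with hBdef
  have hB0 : 0 ≤ B := by positivity
  have hnn : ∀ v : E (d + 1), ‖(lf p * kn (d + 1))⁻¹ • NI p (NI p v)‖ ≤
      (lf p * kn (d + 1))⁻¹ * (2 * (2 * ‖v‖)) := by
    intro v
    rw [norm_smul, Real.norm_eq_abs, abs_of_pos (by positivity)]
    have e3 := norm_NI p (NI p v) hp1.le b1
    have e4 := norm_NI p v hp1.le b1
    refine mul_le_mul_of_nonneg_left ?_ (by positivity)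
    linarith
  have hgl : ∀ q q', ‖g q - g q'‖ ≤ B * dist q q' := by
    intro q q'
    have e1 : ‖HH p (FE e q) - HH p (FE e q')‖ ≤ K * dist q q' :=
      hKl p _ _ (dist q q') hp.le (hBd q) (hBd q') dist_nonneg (CM.FE_q he q q')
    have e2 : g q - g q' = (lf p * kn (d + 1))⁻¹ •
        NI p (NI p (HH p (FE e q) - HH p (FE e q'))) := by
      rw [hg]
      simp only
      rw [NI_sub, NI_sub, smul_sub]
    rw [e2]
    refine (hnn _).trans ?_
    calc (lf p * kn (d + 1))⁻¹ * (2 * (2 * ‖HH p (FE e q) - HH p (FE e q')‖)) ≤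
        (lf p * kn (d + 1))⁻¹ * (2 * (2 * (K * dist q q'))) := by
          refine mul_le_mul_of_nonneg_left ?_ (by positivity)
          linarith
      _ = _ := by rw [hBdef]; ring
  have hfl : ∀ q q', ‖f q - f q'‖ ≤ K' * dist q q' := fun q q' =>
    hKl' p _ _ (dist q q') hp.le (hBd q) (hBd q') dist_nonneg (CM.FE_q he q q')
  have hfb : ∀ q, ‖f q‖ ≤ K' * 1 + ‖XX k p (fun _ : E (d + 1) => (0 : ℝ))‖ := by
    intro q
    have e1 := hKl' p (FE e q) (fun _ => 0) 1 hp.le (hBd q) hz zero_le_one (fun y => by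
      rw [sub_zero, one_mul]
      exact (hBd q).2 y)
    have e2 : f q = (XX k p (FE e q) - XX k p (fun _ : E (d + 1) => (0 : ℝ))) +
        XX k p (fun _ : E (d + 1) => (0 : ℝ)) := by
      rw [hf]
      simp
    rw [e2]
    exact (norm_add_le _ _).trans (by linarith)
  have hgb : ∀ q, ‖g q‖ ≤ (lf p * kn (d + 1))⁻¹ * (2 * (2 *
      (K * 1 + ‖HH p (fun _ : E (d + 1) => (0 : ℝ))‖))) := by
    intro q
    refine (hnn _).trans ?_
    refine mul_le_mul_of_nonneg_left ?_ (by positivity)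
    have e1 := hKl p (FE e q) (fun _ => 0) 1 hp.le (hBd q) hz zero_le_one (fun y => by
      rw [sub_zero, one_mul]
      exact (hBd q).2 y)
    have e2 : HH p (FE e q) = (HH p (FE e q) - HH p (fun _ : E (d + 1) => (0 : ℝ))) +
        HH p (fun _ : E (d + 1) => (0 : ℝ)) := by
      simp
    have e3 : ‖HH p (FE e q)‖ ≤ K * 1 + ‖HH p (fun _ : E (d + 1) => (0 : ℝ))‖ := by
      rw [e2]
      exact (norm_add_le _ _).trans (by linarith)
    linarith
  -- the boundary
  have hrx : ∀ x : Sph (d + 1), ‖ρ • (x : E (d + 1))‖ = ρ := by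
    intro x
    rw [norm_smul, sph_norm, mul_one, Real.norm_of_nonneg h.r0.le]
  have hgbd : ∀ x, g (S.bd x) = ρ • (x : E (d + 1)) - p := by
    intro x
    have e1 : FE e (S.bd x) = fun y => (inner ℝ (ρ • (x : E (d + 1))) y : ℝ) :=
      funext fun y => CM.FE_bd he x y
    rw [hg]
    simp only
    rw [e1, HH_lin h.r0.le hρ1 hp.le ((hrx x).le.trans hρ1.le), NI_smul, b9, NI_smul, b9,
      smul_smul, inv_mul_cancel₀ (by positivity), one_smul]
  have hfbd : ∀ x, f (S.bd x) = XX k p (fun y => (inner ℝ (ρ • (x : E (d + 1))) y : ℝ)) := by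
    intro x
    have e1 : FE e (S.bd x) = fun y => (inner ℝ (ρ • (x : E (d + 1))) y : ℝ) :=
      funext fun y => CM.FE_bd he x y
    rw [hf]
    simp only
    rw [e1]
  set Θ : Sph (d + 1) → ℝ := fun x =>
    inner ℝ (XX k p (fun y => (inner ℝ (ρ • (x : E (d + 1))) y : ℝ))) (ρ • (x : E (d + 1)) - p)
    with hΘ
  have hΘpos : ∀ x, 0 < Θ x := by
    intro x
    refine XX_lin_pos k h.r0.le hρ1 hp.le ((hrx x).le.trans hρ1.le) ?_
    intro h0
    have := hrx x
    rw [h0] at this
    linarith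
  have hΘc : Continuous Θ := by
    have h1 : Continuous fun x : Sph (d + 1) =>
        XX k p (fun y => (inner ℝ (ρ • (x : E (d + 1))) y : ℝ)) := by
      have hL : LipschitzWith (Real.toNNReal (K' * ρ)) fun x : Sph (d + 1) =>
          XX k p (fun y => (inner ℝ (ρ • (x : E (d + 1))) y : ℝ)) := by
        refine LipschitzWith.of_dist_le_mul fun x x' => ?_
        rw [dist_eq_norm, Real.coe_toNNReal _ (by positivity)]
        have h2 := hKl' p (fun y => (inner ℝ (ρ • (x : E (d + 1))) y : ℝ))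
          (fun y => (inner ℝ (ρ • (x' : E (d + 1))) y : ℝ)) (ρ * dist x x') hp.le
          (lin_bd' ((hrx x).le.trans hρ1.le)) (lin_bd' ((hrx x').le.trans hρ1.le))
          (by positivity) (fun y => by
            rw [← inner_sub_left, ← smul_sub]
            have h3 := abs_real_inner_le_norm (ρ • ((x : E (d + 1)) - x')) y
            rw [norm_smul, Real.norm_of_nonneg h.r0.le] at h3
            have h4 : dist x x' = ‖(x : E (d + 1)) - x'‖ := by
              rw [← dist_eq_norm]
              rfl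
            rw [h4]
            exact h3)
        refine h2.trans (le_of_eq (by ring))
      exact hL.continuous
    exact h1.inner (by fun_prop)
  have hne := Pool.Agent.H241R3.FV.TExt.sph_nonempty (Nat.succ_pos d)
  obtain ⟨x₀, -, hx₀⟩ := (isCompact_univ (X := Sph (d + 1))).exists_isMinOn univ_nonempty
    hΘc.continuousOn
  obtain ⟨m, Km, hKm, hml, hmg, hmz⟩ := blend hK' hB0 (hΘpos x₀) hfl hgl hfb hgb
  have hbdry : ∀ x, m (S.bd x) + p = ρ • (x : E (d + 1)) := by
    intro x
    have h1 : Θ x₀ ≤ inner ℝ (f (S.bd x)) (g (S.bd x)) := by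
      rw [hfbd, hgbd]
      exact hx₀ (mem_univ x)
    rw [hmg _ h1, hgbd]
    abel
  have hlip : ∀ q q', ‖(m q + p) - (m q' + p)‖ ≤ dist q q' * Km := by
    intro q q'
    have : (m q + p) - (m q' + p) = m q - m q' := by abel
    rw [this]
    exact hml q q'
  have hcont : Continuous fun q => m q + p := by
    have hL : LipschitzWith (Real.toNNReal Km) fun q => m q + p := by
      refine LipschitzWith.of_dist_le_mul fun q q' => ?_
      rw [dist_eq_norm, Real.coe_toNNReal _ hKm, mul_comm]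
      exact hlip q q'
    exact hL.continuous
  have hpi : ρ ≤ Real.pi / 2 := by
    have := Real.pi_gt_three
    linarith
  have hsub : ball (0 : E (d + 1)) ρ ⊆ range fun q => m q + p := by
    rcases hT with ⟨hT1, hT⟩ | hT
    · refine coverT (c := 2 * ρ / Real.pi) ?_ ?_ hns hT h.r0 hcont hlip hbdry
      · have := Real.pi_pos
        positivity
      · rw [div_le_one Real.pi_pos]
        linarith
    · exact Pool.Agent.H241R3.FV.TCover.taskCover (d + 1) (Nat.succ_pos d) M S.bd hT _ ρ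
        h.r0 hcont hbdry
  obtain ⟨q, hq⟩ := hsub (mem_ball_zero_iff.2 hp)
  refine ⟨q, hmz q ?_⟩
  have h6 : m q + p = p := hq
  simpa using h6

/-- the lower bound for the volume -/
theorem main_lf {d k : ℕ} {κ ρ κ' ρ' Lm eps : ℝ} (h : HJ (d + 1) k κ ρ κ' ρ' Lm eps) {M : Type}
    [MetricSpace M] (S : Fill d M) {e : Sph (d + 1) → M → ℝ} (he : CM.Dk ρ S.bd e) (hl : UL κ e)
    (hns : ∀ v w : Sph (d + 1), 2 * ρ / Real.pi * angle (v : E (d + 1)) (w : E (d + 1)) ≤
      dist (S.bd v) (S.bd w))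
    (hT : (CompactSpace M ∧ S.Triangulated) ∨ S.NoRetraction) :
    ∫⁻ p in ball (0 : E (d + 1)) ρ, ENNReal.ofReal (lf p) ≤ S.vol := by
  classical
  have := S.countable
  have hκ1 : κ ≤ 1 := h.k1'
  have hrr := h.toHP.rr'
  have hρ1 : ρ < 1 := lt_of_le_of_lt h.toHP.rr' h.r1
  -- the centres in the charts
  set φ : S.ι → E (d + 1) → E (d + 1) → ℝ := fun i c => FE e ((S.chart i).map c) with hφ
  set s : S.ι → Set (E (d + 1)) := fun i =>
    {c | c ∈ (S.chart i).D ∧ ∃ p : E (d + 1), ‖p‖ < ρ ∧ XX k p (φ i c) = 0} with hs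
  set f : S.ι → E (d + 1) → E (d + 1) := fun i c =>
    if h : ∃ p : E (d + 1), ‖p‖ < ρ ∧ XX k p (φ i c) = 0 then h.choose else 0 with hf
  have hfs : ∀ i, ∀ c ∈ s i, ‖f i c‖ < ρ ∧ XX k (f i c) (φ i c) = 0 := by
    intro i c hc
    have h := hc.2
    rw [hf]
    simp only
    rw [dif_pos h]
    exact h.choose_spec
  have hcov : ball (0 : E (d + 1)) ρ ⊆ ⋃ i, f i '' s i := by
    intro p hp
    rw [mem_ball_zero_iff] at hp
    obtain ⟨q, hq⟩ := cover h.toHP he hl hns hT hp
    rcases S.cover q with ⟨x, rfl⟩ | ⟨i, c, hc, rfl⟩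
    · exfalso
      have e1 : FE e (S.bd x) = fun y => (inner ℝ (ρ • (x : E (d + 1))) y : ℝ) :=
        funext fun y => CM.FE_bd he x y
      have e3 : ‖ρ • (x : E (d + 1))‖ = ρ := by
        rw [norm_smul, sph_norm, mul_one, Real.norm_of_nonneg h.r0.le]
      rw [e1] at hq
      have hpos := XX_lin_pos k h.r0.le hρ1 hp.le (e3.le.trans hρ1.le) (by
        intro h0
        rw [← h0, e3] at hp
        exact lt_irrefl _ hp)
      rw [hq, inner_zero_left] at hpos
      exact lt_irrefl _ hpos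
    · have hcs : c ∈ s i := ⟨hc, p, hp, hq⟩
      obtain ⟨g1, g2⟩ := hfs i c hcs
      refine mem_iUnion.2 ⟨i, c, hcs, ?_⟩
      exact uniq h.toHP (g1.le.trans hrr) (hp.le.trans hrr) (FE_Ck he hl _) g2 hq
  have hchart : ∀ i, ∫⁻ p in f i '' s i, ENNReal.ofReal (lf p) ≤
      ∫⁻ c in (S.chart i).D, ENNReal.ofReal √((S.chart i).G c).det := by
    intro i
    obtain ⟨q1, q2⟩ := FE_chart hκ1 he hl (S.chart i)
    exact chart_area h q1 (S.chart i).pos_G q2 (S.chart i).meas_D (S.chart i).D_sub rfl (hfs i)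
  calc ∫⁻ p in ball (0 : E (d + 1)) ρ, ENNReal.ofReal (lf p)
      ≤ ∫⁻ p in ⋃ i, f i '' s i, ENNReal.ofReal (lf p) := lintegral_mono_set hcov
    _ ≤ ∑' i, ∫⁻ p in f i '' s i, ENNReal.ofReal (lf p) := lintegral_iUnion_le _ _
    _ ≤ ∑' i, ∫⁻ c in (S.chart i).D, ENNReal.ofReal √((S.chart i).G c).det :=
        ENNReal.tsum_le_tsum hchart
    _ = S.vol := rfl

end Pool.Agent.Q183.HD
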