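import Pool.Agent.Q183.HD.O
import Pool.Agent.Q183.CM.L

/-!
# Balls of radius less than `π/2` are minimal fillings in high dimensions
-/

set_option autoImplicit false

open Real MeasureTheory Set Filter Topology InnerProductGeometry

namespace Pool.Agent.Q183.HD

open Pool.Agent.Q183.CN
open Pool.Agent.H241R3.FV (Sph Fill sig om)
open Pool.Agent.W716.FV (E)

theorem pr_two {n i : ℕ} (h : 10 * i ≤ n) (hn : 0 < n) (j : ℕ) :
    pr n (j + 4) i ≤ 2 * pr n j i := by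
  have e1 : pr n j (i + 1 + 1) = ((n : ℝ) + j) * (((n : ℝ) + j + 2) * pr n (j + 4) i) := by
    rw [pr_shift, pr_shift]
    push_cast
    ring
  have e2 : pr n j (i + 1 + 1) = pr n j i * ((n : ℝ) + j + 2 * i) * ((n : ℝ) + j + 2 * (i + 1)) := by
    rw [pr_succ, pr_succ]
    push_cast
    ring
  have hn' : (0 : ℝ) < n := by exact_mod_cast hn
  have hi : 10 * (i : ℝ) ≤ n := by exact_mod_cast h
  have hj : (0 : ℝ) ≤ j := Nat.cast_nonneg j
  have hi0 : (0 : ℝ) ≤ i := Nat.cast_nonneg i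
  have h1 : (n : ℝ) + j + 2 * i ≤ 6 / 5 * ((n : ℝ) + j) := by linarith
  have h2 : (n : ℝ) + j + 2 * (i + 1) ≤ 6 / 5 * ((n : ℝ) + j + 2) := by linarith
  have hp := pr_nonneg n j i
  have h3 : ((n : ℝ) + j) * (((n : ℝ) + j + 2) * pr n (j + 4) i) ≤
      ((n : ℝ) + j) * (((n : ℝ) + j + 2) * (2 * pr n j i)) := by
    rw [← e1, e2]
    calc pr n j i * ((n : ℝ) + j + 2 * i) * ((n : ℝ) + j + 2 * (i + 1)) ≤
        pr n j i * (6 / 5 * ((n : ℝ) + j)) * (6 / 5 * ((n : ℝ) + j + 2)) := by gcongr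
      _ = 36 / 25 * (pr n j i * (((n : ℝ) + j) * ((n : ℝ) + j + 2))) := by ring
      _ ≤ 2 * (pr n j i * (((n : ℝ) + j) * ((n : ℝ) + j + 2))) := by
          apply mul_le_mul_of_nonneg_right (by norm_num)
          positivity
      _ = _ := by ring
  have h4 := le_of_mul_le_mul_left h3 (by positivity)
  exact le_of_mul_le_mul_left h4 (by positivity)

theorem par_exists {ρ : ℝ} (hρ0 : 0 < ρ) (hρ1 : ρ < 1) :
    ∃ (k : ℕ) (κ κ' ρ' Lm eps : ℝ) (n₀ : ℕ), 0 < κ ∧ κ ^ 2 = 2 * ρ ^ 2 - ρ ^ 4 ∧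
      ∀ n : ℕ, n₀ ≤ n → HJ n k κ ρ κ' ρ' Lm eps := by
  have hpos : 0 < 2 * ρ ^ 2 - ρ ^ 4 := by
    have : 2 * ρ ^ 2 - ρ ^ 4 = ρ ^ 2 * (2 - ρ ^ 2) := by ring
    rw [this]
    have : ρ ^ 2 < 1 := by nlinarith
    have : 0 < ρ ^ 2 := by positivity
    nlinarith
  set κ := √(2 * ρ ^ 2 - ρ ^ 4) with hκ
  have hκ0 : 0 < κ := Real.sqrt_pos.2 hpos
  have hκ2 : κ ^ 2 = 2 * ρ ^ 2 - ρ ^ 4 := Real.sq_sqrt hpos.le
  have hκ1 : κ < 1 := by
    have h1 : κ ^ 2 < 1 ^ 2 := by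
      rw [hκ2]
      have : 0 < (1 - ρ ^ 2) ^ 2 := by
        have : 0 < 1 - ρ ^ 2 := by nlinarith
        positivity
      nlinarith
    exact lt_of_pow_lt_pow_left₀ 2 zero_le_one h1
  have hρκ : ρ ≤ κ := by
    refine le_of_sq_le_sq ?_ hκ0.le
    rw [hκ2]
    have : ρ ^ 2 * ρ ^ 2 ≤ ρ ^ 2 * 1 := by
      apply mul_le_mul_of_nonneg_left _ (by positivity)
      nlinarith
    nlinarith
  set κ' : ℝ := κ + (1 - κ) / 3 with hκ'
  set ρ' : ℝ := κ + 2 * (1 - κ) / 3 with hρ'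
  have a1 : κ < κ' := by rw [hκ']; linarith
  have a2 : κ' < ρ' := by rw [hκ', hρ']; linarith
  have a3 : ρ' < 1 := by rw [hρ']; linarith
  have a0 : 0 < ρ' := by linarith
  have a4 : 0 < 1 - ρ' ^ 2 := by nlinarith
  set L : ℝ := (1 - ρ' ^ 2)⁻¹ with hL
  have hL0 : 0 < L := by positivity
  obtain ⟨k0, hk0⟩ := exists_nat_ge (80 * L)
  set k : ℕ := k0 + 1 with hk
  have hkL : 80 * L ≤ 2 * (k : ℝ) + 1 := by
    rw [hk]
    push_cast
    have : (0 : ℝ) ≤ k0 := Nat.cast_nonneg k0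
    linarith
  set eps : ℝ := min (κ' * (κ' - κ) / 2) ((1 - ρ') / (4 * (1 + ρ'))) with heps
  have hκ'0 : 0 < κ' := by linarith
  have he0 : 0 < eps := by
    rw [heps]
    refine lt_min ?_ ?_
    · have : 0 < κ' - κ := by linarith
      positivity
    · have : 0 < 1 - ρ' := by linarith
      positivity
  have he1 : 2 * eps ≤ κ' * (κ' - κ) := by
    have := min_le_left (κ' * (κ' - κ) / 2) ((1 - ρ') / (4 * (1 + ρ')))
    linarith
  have he2 : 4 * eps * (1 + ρ') ≤ 1 - ρ' := by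
    have := min_le_right (κ' * (κ' - κ) / 2) ((1 - ρ') / (4 * (1 + ρ')))
    rw [le_div_iff₀ (by positivity), ← heps] at this
    linarith
  obtain ⟨n1, hn1⟩ := exists_nat_ge (3 * Ce k L eps * L / eps)
  obtain ⟨n2, hn2⟩ := exists_nat_ge (2 * ((k + 1) * L ^ k * (78 * L ^ 2)))
  refine ⟨k, κ, κ', ρ', L, eps, n1 + n2 + 10 * k + 1, hκ0, hκ2, fun n hn => ?_⟩
  have hn0 : 0 < n := by omega
  have hn10 : 10 * k ≤ n := by omega
  have hnn1 : (n1 : ℝ) ≤ n := by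
    have : n1 ≤ n := by omega
    exact_mod_cast this
  have hnn2 : (n2 : ℝ) ≤ n := by
    have : n2 ≤ n := by omega
    exact_mod_cast this
  have f2 : (k + 1) * L ^ k * (78 * L ^ 2) * pr n 8 (k - 1) ≤ pr n 2 k := by
    have hk1 : 1 ≤ k := by omega
    have b1 : pr n 8 (k - 1) ≤ 2 * pr n 4 (k - 1) := pr_two (by omega) hn0 4
    have b2 : pr n 2 k = ((n : ℝ) + (2 : ℕ)) * pr n 4 (k - 1) := pr_pred hk1 n 2
    have b3 : 0 ≤ pr n 4 (k - 1) := pr_nonneg _ _ _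
    rw [b2]
    calc (k + 1) * L ^ k * (78 * L ^ 2) * pr n 8 (k - 1) ≤
        (k + 1) * L ^ k * (78 * L ^ 2) * (2 * pr n 4 (k - 1)) := by gcongr
      _ = 2 * ((k + 1) * L ^ k * (78 * L ^ 2)) * pr n 4 (k - 1) := by ring
      _ ≤ _ := by
          apply mul_le_mul_of_nonneg_right _ b3
          push_cast
          linarith
  exact
    { n0 := hn0
      k1 := by omega
      k0 := hκ0.le
      r0 := hρ0
      rk := hρκ.trans a1.le
      kk := a1
      kr := a2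
      r1 := a3
      hL := by
        rw [hL, inv_mul_cancel₀ a4.ne']
      e0 := he0
      e1 := he1
      e2 := he2
      nC := by
        rw [div_le_iff₀ he0] at hn1
        have := mul_le_mul_of_nonneg_right hnn1 he0.le
        linarith
      c1 := hkL
      f1 := pr_two hn10 hn0 2
      f2 := f2 }

/-- **Balls of radius `R < π/2` are minimal fillings of their boundaries, in all dimensions
`d + 1 > d₀(R)`**. -/
theorem ball_minimal {R : ℝ} (hR0 : 0 < R) (hR1 : R < π / 2) : ∃ d₀ : ℕ, ∀ d : ℕ, d₀ ≤ d →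
    ∀ {K : Type} [MetricSpace K] (S : Fill d K)
    (_ : (CompactSpace K ∧ S.Triangulated) ∨ S.NoRetraction) {c : E (d + 2)} (_ : ‖c‖ = 1)
    {J : E (d + 1) →ₗᵢ[ℝ] E (d + 2)} (_ : ∀ v, inner ℝ (J v) c = 0)
    (_ : ∀ v w : Sph (d + 1), angle (bp R c J v) (bp R c J w) ≤ dist (S.bd v) (S.bd w)),
    sig (d + 2) {x : Sph (d + 2) | angle (x : E (d + 2)) c ≤ R} ≤ S.vol := by
  have h1 : 0 < sin R := sin_pos_of_pos_of_lt_pi hR0 (by linarith [pi_pos])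
  have h2 : 0 < cos R := cos_pos_of_mem_Ioo ⟨by linarith, hR1⟩
  have h3 := cos_sq_add_sin_sq R
  have h4 : sin R < 1 := by nlinarith
  obtain ⟨k, κ, κ', ρ', L, eps, n₀, hκ0, hκ, hpar⟩ := par_exists h1 h4
  refine ⟨n₀, fun d hd K _ S hT c hc J hJ hdist => ?_⟩
  have hns : ∀ v w : Sph (d + 1), arccos (cos R ^ 2 + sin R ^ 2 *
      inner ℝ (v : E (d + 1)) (w : E (d + 1))) ≤ dist (S.bd v) (S.bd w) := by
    intro v w
    rw [← angle_bp hc hJ (sph_norm v) (sph_norm w)]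
    exact hdist v w
  have hdk := ek_dk (Nat.succ_pos d) h1 h2 h3 hns
  have hul := ek_ul (Nat.succ_pos d) h1 h2 h3 hκ0 hκ S.bd
  have hm := main_lf (hpar (d + 1) (by omega)) S hdk hul
    (fun v w => (angle_le_cap h1 h3 v w).trans (hns v w)) hT
  rw [ball_lf d hR0 hR1] at hm
  rw [cap_sig d hR0.le (by linarith [pi_pos]) hc]
  exact hm

/-- Fillings which are round outside the ball of radius `R`, high dimensions. -/
theorem round_outside {R : ℝ} (hR0 : 0 < R) (hR1 : R < π / 2) : ∃ d₀ : ℕ, ∀ d : ℕ, d₀ ≤ d →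
    ∀ {K M : Type} [MetricSpace K] [MetricSpace M] (S : Fill d K)
    (_ : (CompactSpace K ∧ S.Triangulated) ∨ S.NoRetraction) {n c : E (d + 2)} (_ : ‖c‖ = 1)
    {J : E (d + 1) →ₗᵢ[ℝ] E (d + 2)} (_ : ∀ v, inner ℝ (J v) c = 0)
    (_ : ∀ x : E (d + 2), ‖x‖ = 1 → angle x c ≤ R → 0 ≤ inner ℝ x n)
    {j : K → M} (_ : ∀ x y, dist (j x) (j y) ≤ dist x y)
    {ι : E (d + 2) → M} (_ : ∀ x ∈ Outside n c R, ∀ y ∈ Outside n c R, Free c R x y →
      dist (ι x) (ι y) ≤ angle x y)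
    (_ : ∀ v : Sph (d + 1), ι (bp R c J v) = j (S.bd v))
    (_ : ∀ x y, ‖x‖ = 1 → ‖y‖ = 1 → inner ℝ x n = 0 → inner ℝ y n = 0 →
      angle x y ≤ dist (ι x) (ι y)),
    sig (d + 2) {x : Sph (d + 2) | angle (x : E (d + 2)) c ≤ R} ≤ S.vol := by
  obtain ⟨d₀, h⟩ := ball_minimal hR0 hR1
  refine ⟨d₀, fun d hd K M _ _ S hT n c hc J hJ hball j hj ι hι hglue hno => ?_⟩
  exact h d hd S hT hc hJ (dist_ge hc hJ hR0.le hR1 hball hj hι hno hglue)

end Pool.Agent.Q183.HD
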